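import Pool.Agent.Helper21.AC0p.Override

/-!
Degree bounded by size, and the total size of the distinct subformulas.
-/

namespace Pool.Agent.Helper21.AC0p

open scoped BigOperators Classical

theorem Filt.prod_mem' {X K : Type} [Field K] (𝔉 : Filt X K) {ι : Type*} (s : Finset ι)
    (g : ι → X → K) (D : ι → ℕ) (h : ∀ i ∈ s, g i ∈ 𝔉.LD (D i)) :
    (∏ i ∈ s, g i) ∈ 𝔉.LD (∑ i ∈ s, D i) := by
  induction s using Finset.induction_on with
  | empty => simpa using 𝔉.one_mem
  | insert a s ha ih =>
    rw [Finset.prod_insert ha, Finset.sum_insert ha]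
    exact 𝔉.mul_mem (h a (Finset.mem_insert_self a s))
      (ih (fun i hi => h i (Finset.mem_insert_of_mem hi)))

theorem Fm.one_le_size (A : Fm) : 1 ≤ A.size := by
  cases A <;> simp [Fm.size]

theorem Fm.size_le_or {k : ℕ} (f : Fin k → Fm) (i : Fin k) :
    (f i).size ≤ (Fm.or k f).size := by
  have := Finset.single_le_sum (f := fun i => (f i).size) (fun _ _ => Nat.zero_le _)
    (Finset.mem_univ i)
  simp only [Fm.size]
  omega

theorem Fm.size_le_mod {k : ℕ} (f : Fin k → Fm) (i : Fin k) :
    (f i).size ≤ (Fm.mod k f).size := by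
  have := Finset.single_le_sum (f := fun i => (f i).size) (fun _ _ => Nat.zero_le _)
    (Finset.mem_univ i)
  simp only [Fm.size]
  omega

theorem sum_image_le {k : ℕ} (f : Fin k → Fm) (g : Fm → ℕ) :
    ∑ B ∈ Finset.univ.image f, g B ≤ ∑ i, g (f i) := by
  have h := Finset.sum_comp (s := (Finset.univ : Finset (Fin k))) g f
  rw [h]
  refine Finset.sum_le_sum (fun B hB => ?_)
  rw [Finset.mem_image] at hB
  obtain ⟨i, _, hi⟩ := hB
  have : 1 ≤ ((Finset.univ : Finset (Fin k)).filter (fun a => f a = B)).card :=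
    Finset.card_pos.2 ⟨i, by simp [hi]⟩
  rw [smul_eq_mul]
  exact Nat.le_mul_of_pos_left _ this

section

variable {X K : Type} [Field K] {𝔉 : Filt X K} {p : ℕ} {v : X → ℕ → Bool}

/-- The degree is bounded by the size. -/
theorem rf_mem_size [hp : Fact p.Prime] [CharP K p]
    (hv : ∀ i, ind K (fun x => v x i) ∈ 𝔉.LD 1) {E : Fm → Option Bool} (A : Fm) :
    rf K p v E A ∈ 𝔉.LD (p ^ A.depth * A.size) := by
  have hp1 : 1 ≤ p := hp.out.one_lt.le
  induction A with
  | var i =>
    have h1 : rf K p v E (.var i) = ind K (fun x => v x i) := rfl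
    rw [h1]
    refine 𝔉.mono ?_ (hv i)
    simp [Fm.depth, Fm.size]
  | neg A ih =>
    rw [rf_neg]
    refine Submodule.sub_mem _ (𝔉.one_mem' _) ?_
    refine 𝔉.mono ?_ (qf_mem_of_rf_mem ih)
    simp only [Fm.depth, Fm.size]
    exact Nat.mul_le_mul (Nat.pow_le_pow_right hp1 (Nat.le_succ _)) (Nat.le_succ _)
  | or k f ih =>
    by_cases hk : ∃ i, E (f i) = some true
    · obtain ⟨i, hi⟩ := hk
      rw [rf_or_killed hi]
      exact 𝔉.one_mem' _
    · rw [rf_or hk]
      refine Submodule.sub_mem _ (𝔉.one_mem' _) ?_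
      set m := Finset.univ.sup fun i => (f i).depth with hm
      have h1 : ∀ C ∈ live E f, (1 - qf K p v E C) ∈ 𝔉.LD (p ^ m * C.size) := by
        intro C hC
        simp only [live, Finset.mem_filter, Finset.mem_image, Finset.mem_univ, true_and] at hC
        obtain ⟨⟨i, rfl⟩, _⟩ := hC
        refine Submodule.sub_mem _ (𝔉.one_mem' _) ?_
        refine 𝔉.mono ?_ (qf_mem_of_rf_mem (ih i))
        refine Nat.mul_le_mul_right _ (Nat.pow_le_pow_right hp1 ?_)
        exact Finset.le_sup (f := fun i => (f i).depth) (Finset.mem_univ i)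
      refine 𝔉.mono ?_ (𝔉.prod_mem' (live E f) _ _ h1)
      rw [← Finset.mul_sum]
      simp only [Fm.depth, Fm.size]
      refine Nat.mul_le_mul (Nat.pow_le_pow_right hp1 (Nat.le_succ _)) ?_
      calc ∑ C ∈ live E f, C.size ≤ ∑ C ∈ Finset.univ.image f, C.size :=
            Finset.sum_le_sum_of_subset (Finset.filter_subset _ _)
        _ ≤ ∑ i, (f i).size := sum_image_le f Fm.size
        _ ≤ _ := Nat.le_succ _
  | mod k f ih =>
    rw [rf_mod]
    refine Submodule.sub_mem _ (𝔉.one_mem' _) ?_
    set m := Finset.univ.sup fun i => (f i).depth with hm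
    have h1 : ∀ i ∈ (Finset.univ : Finset (Fin k)), qf K p v E (f i) ∈
        𝔉.LD (p ^ m * ∑ i, (f i).size) := by
      intro i _
      refine 𝔉.mono ?_ (qf_mem_of_rf_mem (ih i))
      refine Nat.mul_le_mul (Nat.pow_le_pow_right hp1 ?_) ?_
      · exact Finset.le_sup (f := fun i => (f i).depth) (Finset.mem_univ i)
      · exact Finset.single_le_sum (f := fun i => (f i).size) (fun _ _ => Nat.zero_le _)
          (Finset.mem_univ i)
    have h2 := 𝔉.pow_mem (𝔉.sum_mem Finset.univ _ _ h1) (p - 1)
    refine 𝔉.mono ?_ h2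
    simp only [Fm.depth, Fm.size]
    calc (p - 1) * (p ^ m * ∑ i, (f i).size) ≤ p * (p ^ m * ∑ i, (f i).size) :=
          Nat.mul_le_mul_right _ (by omega)
      _ = p ^ (m + 1) * ∑ i, (f i).size := by ring
      _ ≤ p ^ (m + 1) * (∑ i, (f i).size + 1) := Nat.mul_le_mul_left _ (Nat.le_succ _)

end

/-- The list of all occurrences of subformulas. -/
def occs : Fm → List Fm
  | .var i => [.var i]
  | .neg A => .neg A :: occs A
  | .or k f => .or k f :: (List.ofFn (fun i => occs (f i))).flatten
  | .mod k f => .mod k f :: (List.ofFn (fun i => occs (f i))).flatten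

theorem mem_occs {A B : Fm} (h : Fm.IsSub B A) : B ∈ occs A := by
  induction h with
  | refl => cases B <;> simp [occs]
  | neg _ ih => simp [occs, ih]
  | @or k f i _ ih =>
    simp only [occs, List.mem_cons, List.mem_flatten, List.mem_ofFn]
    right
    exact ⟨_, ⟨i, rfl⟩, ih⟩
  | @mod k f i _ ih =>
    simp only [occs, List.mem_cons, List.mem_flatten, List.mem_ofFn]
    right
    exact ⟨_, ⟨i, rfl⟩, ih⟩

theorem sum_map_flatten_ofFn {k : ℕ} (L : Fin k → List Fm) (g : Fm → ℕ) :
    ((List.ofFn L).flatten.map g).sum = ∑ i, ((L i).map g).sum := by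
  rw [List.map_flatten, List.sum_flatten, List.map_map, List.map_ofFn, List.sum_ofFn]
  rfl

theorem occs_sum (A : Fm) : ((occs A).map Fm.size).sum ≤ (A.depth + 1) * A.size := by
  induction A with
  | var i => simp [occs, Fm.size, Fm.depth]
  | neg A ih =>
    simp only [occs, List.map_cons, List.sum_cons, Fm.size, Fm.depth]
    nlinarith
  | or k f ih =>
    simp only [occs, List.map_cons, List.sum_cons, sum_map_flatten_ofFn, Fm.size, Fm.depth]
    set m := Finset.univ.sup fun i => (f i).depth with hm
    have h1 : ∑ i, ((occs (f i)).map Fm.size).sum ≤ ∑ i, (m + 1) * (f i).size := by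
      refine Finset.sum_le_sum (fun i _ => (ih i).trans ?_)
      refine Nat.mul_le_mul_right _ (Nat.succ_le_succ ?_)
      exact Finset.le_sup (f := fun i => (f i).depth) (Finset.mem_univ i)
    rw [← Finset.mul_sum] at h1
    nlinarith
  | mod k f ih =>
    simp only [occs, List.map_cons, List.sum_cons, sum_map_flatten_ofFn, Fm.size, Fm.depth]
    set m := Finset.univ.sup fun i => (f i).depth with hm
    have h1 : ∑ i, ((occs (f i)).map Fm.size).sum ≤ ∑ i, (m + 1) * (f i).size := by
      refine Finset.sum_le_sum (fun i _ => (ih i).trans ?_)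
      refine Nat.mul_le_mul_right _ (Nat.succ_le_succ ?_)
      exact Finset.le_sup (f := fun i => (f i).depth) (Finset.mem_univ i)
    rw [← Finset.mul_sum] at h1
    nlinarith

theorem sum_toFinset_le (l : List Fm) (g : Fm → ℕ) :
    ∑ B ∈ l.toFinset, g B ≤ (l.map g).sum := by
  induction l with
  | nil => simp
  | cons a l ih =>
    rw [List.toFinset_cons, List.map_cons, List.sum_cons]
    by_cases ha : a ∈ l.toFinset
    · rw [Finset.insert_eq_of_mem ha]; omega
    · rw [Finset.sum_insert ha]; omega

theorem sum_subs_le {π : List Fm} {d : ℕ} (hd : ∀ A ∈ π, A.depth ≤ d) (S : Finset Fm)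
    (hS : ∀ B ∈ S, ∃ A ∈ π, Fm.IsSub B A) : ∑ B ∈ S, B.size ≤ (d + 1) * psize π := by
  have h1 : S ⊆ (π.flatMap occs).toFinset := by
    intro B hB
    obtain ⟨A, hA, hBA⟩ := hS B hB
    rw [List.mem_toFinset, List.mem_flatMap]
    exact ⟨A, hA, mem_occs hBA⟩
  calc ∑ B ∈ S, B.size ≤ ∑ B ∈ (π.flatMap occs).toFinset, B.size :=
        Finset.sum_le_sum_of_subset h1
    _ ≤ ((π.flatMap occs).map Fm.size).sum := sum_toFinset_le _ _
    _ ≤ (d + 1) * psize π := by
        clear h1 hS
        unfold psize
        induction π with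
        | nil => simp
        | cons A π ih =>
          rw [List.flatMap_cons, List.map_append, List.sum_append, List.map_cons, List.sum_cons]
          have h2 := occs_sum A
          have h3 := hd A List.mem_cons_self
          have h4 := ih (fun B hB => hd B (List.mem_cons_of_mem _ hB))
          have h5 : (A.depth + 1) * A.size ≤ (d + 1) * A.size :=
            Nat.mul_le_mul_right _ (by omega)
          rw [mul_add]
          omega

theorem occs_length (A : Fm) : (occs A).length = A.size := by
  induction A with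
  | var i => simp [occs, Fm.size]
  | neg A ih => simp [occs, Fm.size, ih]
  | or k f ih =>
    simp only [occs, List.length_cons, List.length_flatten, List.map_ofFn, List.sum_ofFn,
      Function.comp_apply, ih, Fm.size]
  | mod k f ih =>
    simp only [occs, List.length_cons, List.length_flatten, List.map_ofFn, List.sum_ofFn,
      Function.comp_apply, ih, Fm.size]

/-- The number of distinct disjunctions is at most the size. -/
theorem numOr_le_psize (π : List Fm) : numOr π ≤ psize π := by
  unfold numOr
  have hsub : {B : Fm | (∃ (k : ℕ) (f : Fin k → Fm), B = Fm.or k f) ∧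
      ∃ A ∈ π, Fm.IsSub B A} ⊆ ((π.flatMap occs).toFinset : Set Fm) := by
    rintro B ⟨_, A, hA, hBA⟩
    rw [Finset.mem_coe, List.mem_toFinset, List.mem_flatMap]
    exact ⟨A, hA, mem_occs hBA⟩
  refine (Set.ncard_le_ncard hsub (Finset.finite_toSet _)).trans ?_
  rw [Set.ncard_coe_finset]
  refine (List.toFinset_card_le _).trans ?_
  rw [List.length_flatMap]
  unfold psize
  have : (fun a => (occs a).length) = Fm.size := funext occs_length
  rw [this]

end Pool.Agent.Helper21.AC0p
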