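import Pool.Agent.Helper21.AC0p.System
import Pool.Agent.Helper21.AC0p.SizeDeg

/-!
The combinatorial core: refutations whose wide disjunctions take their disjuncts from a
small set are long.
-/

namespace Pool.Agent.Helper21.AC0p

open scoped BigOperators Classical

theorem finite_sub (A : Fm) : {B | Fm.IsSub B A}.Finite := by
  induction A with
  | var i =>
    refine (Set.finite_singleton (Fm.var i)).subset ?_
    intro B hB
    cases hB
    rfl
  | neg A ih =>
    refine (ih.union (Set.finite_singleton (Fm.neg A))).subset ?_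
    intro B hB
    cases hB with
    | refl => right; rfl
    | neg h => left; exact h
  | or k f ih =>
    refine ((Set.finite_iUnion ih).union (Set.finite_singleton (Fm.or k f))).subset ?_
    intro B hB
    cases hB with
    | refl => right; rfl
    | or i h => left; rw [Set.mem_iUnion]; exact ⟨i, h⟩
  | mod k f ih =>
    refine ((Set.finite_iUnion ih).union (Set.finite_singleton (Fm.mod k f))).subset ?_
    intro B hB
    cases hB with
    | refl => right; rfl
    | mod i h => left; rw [Set.mem_iUnion]; exact ⟨i, h⟩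

/-- The set of subformulas of the lines of `π`. -/
def subs (π : List Fm) : Set Fm := {B | ∃ A ∈ π, Fm.IsSub B A}

theorem finite_subs (π : List Fm) : (subs π).Finite := by
  have : subs π = ⋃ A ∈ {A | A ∈ π}, {B | Fm.IsSub B A} := by
    ext B
    simp [subs]
  rw [this]
  exact Set.Finite.biUnion (List.finite_toSet π) (fun A _ => finite_sub A)

theorem subs_trans {π : List Fm} {A B : Fm} (h : A ∈ subs π) (hB : Fm.IsSub B A) :
    B ∈ subs π := by
  obtain ⟨C, hC, hA⟩ := h
  exact ⟨C, hC, isSub_trans hB hA⟩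

theorem depth_sub {A B : Fm} (h : Fm.IsSub B A) : B.depth ≤ A.depth := by
  induction h with
  | refl => exact le_refl _
  | neg _ ih => exact ih.trans (Nat.le_succ _)
  | @or k f i _ ih =>
    refine ih.trans (le_trans ?_ (Nat.le_succ _))
    exact Finset.le_sup (f := fun i => (f i).depth) (Finset.mem_univ i)
  | @mod k f i _ ih =>
    refine ih.trans (le_trans ?_ (Nat.le_succ _))
    exact Finset.le_sup (f := fun i => (f i).depth) (Finset.mem_univ i)

theorem wideDepth_sub {t : ℕ} {A B : Fm} (h : Fm.IsSub B A) : B.wideDepth t ≤ A.wideDepth t := by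
  induction h with
  | refl => exact le_refl _
  | neg _ ih => exact ih
  | @or k f i _ ih =>
    refine ih.trans (le_trans ?_ (Nat.le_add_right _ _))
    exact Finset.le_sup (f := fun i => (f i).wideDepth t) (Finset.mem_univ i)
  | @mod k f i _ ih =>
    refine ih.trans ?_
    exact Finset.le_sup (f := fun i => (f i).wideDepth t) (Finset.mem_univ i)

/-- Immediate disjuncts. -/
noncomputable def kids : Fm → Finset Fm
  | .or _ f => Finset.univ.image f
  | _ => ∅

theorem ncard_range {k : ℕ} (f : Fin k → Fm) :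
    (Set.range f).ncard = (Finset.univ.image f).card := by
  rw [← Set.ncard_coe_finset]
  congr 1
  simp

/-- Products of thresholds. -/
def prodT (T : ℕ → ℕ) : ℕ → ℕ
  | 0 => 1
  | j + 1 => T (j + 1) * prodT T j

theorem prodT_pos {T : ℕ → ℕ} (hT : ∀ j, 1 ≤ T j) (j : ℕ) : 1 ≤ prodT T j := by
  induction j with
  | zero => exact le_refl _
  | succ j ih =>
    rw [prodT]
    exact Nat.mul_pos (hT _) ih

theorem prodT_mono {T : ℕ → ℕ} (hT : ∀ j, 1 ≤ T j) : Monotone (prodT T) := by
  apply monotone_nat_of_le_succ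
  intro j
  rw [prodT]
  exact Nat.le_mul_of_pos_left _ (hT _)

section Core

variable (π : List Fm) (Pop : Finset Fm) (t : ℕ)

/-- The wide disjunctions of level `j`. -/
noncomputable def gates (j : ℕ) : Finset Fm :=
  (finite_subs π).toFinset.filter (fun B => (∃ (k : ℕ) (f : Fin k → Fm), B = .or k f) ∧
    B.wideDepth t = j ∧ t < (kids B).card)

/-- Popular disjuncts of a gate. -/
noncomputable def pcs (B : Fm) : Finset Fm := (kids B).filter (fun z => z ∈ Pop)

/-- Atoms of level `j`. -/
noncomputable def atoms (j : ℕ) : Finset Fm :=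
  Pop.filter (fun z => z ∈ subs π ∧ z.wideDepth t + 1 ≤ j)

variable {π Pop t}

theorem pcs_subset {j : ℕ} : ∀ g ∈ gates π t j, pcs Pop g ⊆ atoms π Pop t j := by
  intro g hg z hz
  simp only [gates, Finset.mem_filter, Set.Finite.mem_toFinset] at hg
  obtain ⟨hgs, ⟨k, f, rfl⟩, hwd, hwide⟩ := hg
  simp only [pcs, kids, Finset.mem_filter, Finset.mem_image, Finset.mem_univ, true_and] at hz
  obtain ⟨⟨i, rfl⟩, hzP⟩ := hz
  simp only [atoms, Finset.mem_filter]
  refine ⟨hzP, subs_trans hgs (Fm.IsSub.or i Fm.IsSub.refl), ?_⟩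
  rw [Fm.wideDepth, ncard_range, if_pos (by simpa [kids] using hwide)] at hwd
  rw [← hwd]
  exact Nat.succ_le_succ
    (Finset.le_sup (f := fun i => (f i).wideDepth t) (Finset.mem_univ i))

/-- All wide disjunctions of levels `1, ..., j` are killed or thin. -/
def Clean (π : List Fm) (Pop : Finset Fm) (t : ℕ) (T : ℕ → ℕ) (j : ℕ)
    (E : Fm → Option Bool) : Prop :=
  ∀ i, 1 ≤ i → i ≤ j → badGates (gates π t i) (pcs Pop) (T i) E = ∅

theorem good_of_clean {T : ℕ → ℕ} {K0 : ℕ} (hK0 : t + 1 ≤ K0) (hT : ∀ j, 1 ≤ T j)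
    (hpop : ∀ (k : ℕ) (f : Fin k → Fm), Fm.or k f ∈ subs π →
      ((Finset.univ.image f).filter (fun z => z ∉ Pop)).card ≤ t)
    {j : ℕ} {E : Fm → Option Bool} (hE : Clean π Pop t T j E) {k : ℕ} {f : Fin k → Fm}
    (hf : Fm.or k f ∈ subs π) (hwd : (Fm.or k f).wideDepth t ≤ j) :
    (∃ i, E (f i) = some true) ∨
      (live E f).card * prodT T (Finset.univ.sup fun i => Fm.wideDepth t (f i)) ≤
        K0 * prodT T (Fm.wideDepth t (.or k f)) := by
  by_cases hwide : t < (Finset.univ.image f).card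
  · -- wide
    have hw : (Fm.or k f).wideDepth t = (Finset.univ.sup fun i => Fm.wideDepth t (f i)) + 1 := by
      rw [Fm.wideDepth, ncard_range, if_pos hwide]
    by_cases hk : ∃ i, E (f i) = some true
    · exact Or.inl hk
    right
    have hbad := hE ((Fm.or k f).wideDepth t) (by omega) hwd
    have hnot : Fm.or k f ∉ badGates (gates π t ((Fm.or k f).wideDepth t)) (pcs Pop)
        (T ((Fm.or k f).wideDepth t)) E := by rw [hbad]; simp
    have hgate : Fm.or k f ∈ gates π t ((Fm.or k f).wideDepth t) := by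
      rw [gates, Finset.mem_filter, Set.Finite.mem_toFinset]
      exact ⟨hf, ⟨k, f, rfl⟩, rfl, by simpa [kids] using hwide⟩
    have h1 : ((pcs Pop (Fm.or k f)).filter (fun z => E z = none)).card ≤
        T ((Fm.or k f).wideDepth t) := by
      by_contra hcon
      apply hnot
      simp only [badGates, Finset.mem_filter]
      refine ⟨hgate, ?_, by omega⟩
      rintro ⟨z, hz, hzE⟩
      simp only [pcs, kids, Finset.mem_filter, Finset.mem_image, Finset.mem_univ, true_and] at hz
      obtain ⟨⟨i, rfl⟩, _⟩ := hz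
      exact hk ⟨i, hzE⟩
    have h2 : (live E f).card ≤ T ((Fm.or k f).wideDepth t) + t := by
      have hsub : live E f ⊆ ((pcs Pop (Fm.or k f)).filter (fun z => E z = none)) ∪
          ((Finset.univ.image f).filter (fun z => z ∉ Pop)) := by
        intro z hz
        simp only [live, Finset.mem_filter] at hz
        simp only [Finset.mem_union, Finset.mem_filter, pcs, kids]
        by_cases hzP : z ∈ Pop
        · left; exact ⟨⟨hz.1, hzP⟩, hz.2⟩
        · right; exact ⟨hz.1, hzP⟩
      refine (Finset.card_le_card hsub).trans ((Finset.card_union_le _ _).trans ?_)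
      exact add_le_add h1 (hpop k f hf)
    rw [hw] at h2 ⊢
    rw [prodT]
    set j' := (Finset.univ.sup fun i => Fm.wideDepth t (f i)) with hj'
    have h3 : T (j' + 1) + t ≤ K0 * T (j' + 1) := by
      have := hT (j' + 1)
      calc T (j' + 1) + t ≤ T (j' + 1) + t * T (j' + 1) := by nlinarith
        _ = (t + 1) * T (j' + 1) := by ring
        _ ≤ K0 * T (j' + 1) := Nat.mul_le_mul_right _ hK0
    calc (live E f).card * prodT T j' ≤ (K0 * T (j' + 1)) * prodT T j' :=
          Nat.mul_le_mul_right _ (h2.trans h3)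
      _ = K0 * (T (j' + 1) * prodT T j') := by ring
  · -- narrow
    right
    have hw : (Fm.or k f).wideDepth t = (Finset.univ.sup fun i => Fm.wideDepth t (f i)) := by
      rw [Fm.wideDepth, ncard_range, if_neg hwide, add_zero]
    rw [hw]
    refine Nat.mul_le_mul_right _ ?_
    have : (live E f).card ≤ (Finset.univ.image f).card := Finset.card_filter_le _ _
    omega

variable {X K : Type} [Field K] {𝔉 : Filt X K} {p : ℕ} {v : X → ℕ → Bool}

theorem deg_of_clean [hp : Fact p.Prime] [CharP K p]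
    (hv : ∀ i, ind K (fun x => v x i) ∈ 𝔉.LD 1)
    {T : ℕ → ℕ} {K0 : ℕ} (hK0 : t + 1 ≤ K0) (hKp : p ≤ K0) (hT : ∀ j, 1 ≤ T j)
    (hpop : ∀ (k : ℕ) (f : Fin k → Fm), Fm.or k f ∈ subs π →
      ((Finset.univ.image f).filter (fun z => z ∉ Pop)).card ≤ t)
    {j : ℕ} {E : Fm → Option Bool} (hE : Clean π Pop t T j E) {A : Fm} (hA : A ∈ subs π)
    (hwd : A.wideDepth t ≤ j) : rf K p v E A ∈ 𝔉.LD (K0 ^ A.depth * prodT T (A.wideDepth t)) := by
  refine rf_mem hv (prodT_mono hT) (le_refl _) hKp A ?_
  intro k f hf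
  exact good_of_clean hK0 hT hpop hE (subs_trans hA hf)
    ((wideDepth_sub hf).trans hwd)

theorem depth_subs {d : ℕ} (hd : ∀ A ∈ π, A.depth ≤ d) {A : Fm} (hA : A ∈ subs π) :
    A.depth ≤ d := by
  obtain ⟨B, hB, hAB⟩ := hA
  exact (depth_sub hAB).trans (hd B hB)

theorem deg_of_clean' [hp : Fact p.Prime] [CharP K p]
    (hv : ∀ i, ind K (fun x => v x i) ∈ 𝔉.LD 1)
    {T : ℕ → ℕ} {K0 d : ℕ} (hK0 : t + 1 ≤ K0) (hKp : p ≤ K0) (hT : ∀ j, 1 ≤ T j)
    (hd : ∀ A ∈ π, A.depth ≤ d)
    (hpop : ∀ (k : ℕ) (f : Fin k → Fm), Fm.or k f ∈ subs π →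
      ((Finset.univ.image f).filter (fun z => z ∉ Pop)).card ≤ t)
    {j : ℕ} {E : Fm → Option Bool} (hE : Clean π Pop t T j E) {A : Fm} (hA : A ∈ subs π)
    (hwd : A.wideDepth t ≤ j) : rf K p v E A ∈ 𝔉.LD (K0 ^ d * prodT T j) := by
  refine 𝔉.mono ?_ (deg_of_clean hv hK0 hKp hT hpop hE hA hwd)
  exact Nat.mul_le_mul (Nat.pow_le_pow_right (by omega) (depth_subs hd hA))
    (prodT_mono hT hwd)

/-- Degree of the initial lines. -/
theorem clause_mem (hv : ∀ i, ind K (fun x => v x i) ∈ 𝔉.LD 1) (E : Fm → Option Bool)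
    (C : Clause) : qf K p v E (clauseFm C) ∈ 𝔉.LD C.length := by
  have hq1 : ∀ i, qf K p v E (.var i) ∈ 𝔉.LD 1 := by
    intro i
    exact qf_mem_of_rf_mem (hv i)
  have hlit : ∀ l : Lit, qf K p v E (litFm l) ∈ 𝔉.LD 1 := by
    rintro ⟨i, b⟩
    cases b with
    | true => exact hq1 i
    | false =>
      have : litFm (i, false) = .neg (.var i) := rfl
      rw [this]
      apply qf_mem_of_rf_mem
      rw [rf_neg]
      exact Submodule.sub_mem _ (𝔉.one_mem' _) (hq1 i)
  apply qf_mem_of_rf_mem
  have h1 : rf K p v E (clauseFm C) = 1 - ind K (fun x => allF p E (v x) (C.map litFm)) := by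
    rw [← ind_not]
    funext x
    simp only [rf, ind, clauseFm, rv_orL]
  rw [h1]
  refine Submodule.sub_mem _ (𝔉.one_mem' _) ?_
  induction C with
  | nil => rw [List.map_nil, ind_allF_nil]; exact 𝔉.one_mem
  | cons l C ih =>
    rw [List.map_cons, allF_fun_cons, List.length_cons, add_comm]
    refine 𝔉.mul_mem (Submodule.sub_mem _ (𝔉.one_mem' _) (hlit l)) (ih ?_)
    rw [← ind_not]
    funext x
    simp only [rf, ind, clauseFm, rv_orL]

theorem allF_eq_prod {E : Fm → Option Bool} (l : List Fm) (h : ¬ ∃ B ∈ l, E B = some true) :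
    ind K (fun x => allF p E (v x) l) =
      ∏ B ∈ l.toFinset.filter (fun B => E B = none), (1 - qf K p v E B) := by
  funext x
  rw [Finset.prod_apply]
  by_cases hx : allF p E (v x) l = true
  · rw [Finset.prod_eq_one]
    · simp [ind, hx]
    · intro B hB
      rw [Finset.mem_filter, List.mem_toFinset] at hB
      simp only [allF, List.all_eq_true] at hx
      have := hx B hB.1
      simp only [Bool.not_eq_true'] at this
      simp [qf, ind, this]
  · have hx' : allF p E (v x) l = false := by simpa using hx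
    have hx2 := hx'
    simp only [allF, List.all_eq_false] at hx'
    obtain ⟨B, hB, hBx⟩ := hx'
    have hBx' : ev p E (v x) B = true := by simpa using hBx
    rw [Finset.prod_eq_zero (i := B)]
    · simp [ind, hx2]
    · rw [Finset.mem_filter, List.mem_toFinset]
      refine ⟨hB, ?_⟩
      rcases hE : E B with _ | b
      · rfl
      · cases b with
        | true => exact absurd ⟨B, hB, hE⟩ h
        | false => rw [ev_of_some hE] at hBx'; exact absurd hBx' (by simp)
    · simp [qf, ind, hBx']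

/-- The level-by-level adversary. -/
theorem levels [hp : Fact p.Prime] [CharP K p]
    (hv : ∀ i, ind K (fun x => v x i) ∈ 𝔉.LD 1)
    {F : List Clause} {W : ℕ} (hard : ¬ Der 𝔉 {g | ∃ C ∈ F, g = clauseAx K p v C} W 1)
    {c : ℕ} (hc : ∀ C ∈ F, C.length ≤ c)
    {T b Cs : ℕ → ℕ} {κ : ℕ → Fm → ℕ} {K0 d h M wf w0 : ℕ}
    (hK0 : t + 1 ≤ K0) (hKp : p ≤ K0) (hT : ∀ j, 1 ≤ T j)
    (hd : ∀ A ∈ π, A.depth ≤ d)
    (hpop : ∀ (k : ℕ) (f : Fin k → Fm), Fm.or k f ∈ subs π →
      ((Finset.univ.image f).filter (fun z => z ∉ Pop)).card ≤ t)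
    (hM : numOr π ≤ M)
    (hκ1 : ∀ j z, 1 ≤ κ j z) (hκD : ∀ j z, κ j z ≤ K0 ^ d * prodT T (j - 1))
    (hκ : ∀ (j : ℕ) (z : Fm), K0 ^ d * prodT T (j - 1) ≤ κ j z ∨ p ^ z.depth * z.size ≤ κ j z)
    (hCs : ∀ j, 1 ≤ j → j ≤ h → ∑ z ∈ atoms π Pop t j, κ j z ≤ Cs j)
    (hs : ∀ j, 1 ≤ j → j ≤ h → 0 < Cs j →
      (M : ℝ) * Real.exp (-((b j : ℝ) * T j / Cs j)) < 1)
    (hw0 : K0 ^ d * prodT T (h - 1) + (c + K0 ^ d * prodT T (h - 1)) ≤ w0)
    (j : ℕ) (hj : j ≤ h) :
    ∀ W' : ℕ, W' + ∑ i ∈ Finset.Icc 1 j, (b i + K0 ^ d * prodT T (i - 1)) ≤ W → wf ≤ W' →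
    ∃ (E : Fm → Option Bool) (Ax : Set (X → K)), Clean π Pop t T j E ∧
      (∀ A b, E A = some b → A ∈ atoms π Pop t j) ∧
      Inv 𝔉 p v {B | ∃ C ∈ F, B = clauseFm C} w0 E Ax W' := by
  induction j with
  | zero =>
    intro W' hW' hwf
    refine ⟨fun _ => none, {g | ∃ C ∈ F, g = clauseAx K p v C}, ?_, ?_, ?_, ?_, ?_⟩
    · intro i h1 h2; omega
    · intro A b h; exact absurd h (by simp)
    · intro hd'
      exact hard (Der.mono (le_refl _) (by simpa using hW') hd')
    · intro A b h; exact absurd h (by simp)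
    · rintro B ⟨C, hC, rfl⟩
      have e : ind K (fun _ : X => true) - qf K p v (fun _ => none) (clauseFm C) =
          clauseAx K p v C := by
        rw [clauseAx, ind_const]; congr 1
      rw [e]
      refine Der.ax ⟨C, hC, rfl⟩ (𝔉.mono ?_ (clauseAx_mem hv C))
      have := hc C hC
      omega
  | succ j ih =>
    intro W' hW' hwf
    rw [Finset.sum_Icc_succ_top (by omega), ← add_assoc] at hW'
    simp only [Nat.add_sub_cancel] at hW'
    obtain ⟨E, Ax, hclean, hdom, hinv⟩ := ih (by omega)
      (W' + (b (j + 1) + K0 ^ d * prodT T j)) (by omega) (by omega)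
    -- apply the killing lemma at level j + 1
    have hatoms_mono : ∀ {A}, A ∈ atoms π Pop t j → A ∈ atoms π Pop t (j + 1) := by
      intro A hA
      simp only [atoms, Finset.mem_filter] at hA ⊢
      exact ⟨hA.1, hA.2.1, by omega⟩
    have hdegA : ∀ E', Clean π Pop t T j E' → ∀ A ∈ atoms π Pop t (j + 1),
        rf K p v E' A ∈ 𝔉.LD (K0 ^ d * prodT T j) := by
      intro E' hE' A hA
      simp only [atoms, Finset.mem_filter] at hA
      exact deg_of_clean' hv hK0 hKp hT hd hpop hE' hA.2.1 (by omega)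
    have hDle : K0 ^ d * prodT T j ≤ K0 ^ d * prodT T (h - 1) :=
      Nat.mul_le_mul_left _ (prodT_mono hT (by omega))
    have hbadM : (((badGates (gates π t (j + 1)) (pcs Pop) (T (j + 1)) E).card : ℝ)) *
        Real.exp (-((b (j + 1) : ℝ) * T (j + 1) / Cs (j + 1))) < 1 := by
      by_cases hne : badGates (gates π t (j + 1)) (pcs Pop) (T (j + 1)) E = ∅
      · rw [hne]; simp
      · obtain ⟨g, hg⟩ := Finset.nonempty_iff_ne_empty.2 hne
        have hTlt : T (j + 1) < (atoms π Pop t (j + 1)).card := by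
          simp only [badGates, Finset.mem_filter] at hg
          exact lt_of_lt_of_le hg.2.2 (Finset.card_le_card ((Finset.filter_subset _ _).trans
            (pcs_subset g hg.1)))
        have hA0 : (atoms π Pop t (j + 1)).card ≤ Cs (j + 1) := by
          refine le_trans ?_ (hCs (j + 1) (by omega) hj)
          rw [Finset.card_eq_sum_ones]
          exact Finset.sum_le_sum (fun z _ => hκ1 _ z)
        have h3 : ((badGates (gates π t (j + 1)) (pcs Pop) (T (j + 1)) E).card : ℝ) ≤ M := by
          have h4 : (badGates (gates π t (j + 1)) (pcs Pop) (T (j + 1)) E).card ≤ numOr π := by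
            unfold numOr
            rw [← Set.ncard_coe_finset]
            apply Set.ncard_le_ncard
            · intro B hB
              rw [Finset.mem_coe, badGates, Finset.mem_filter, gates, Finset.mem_filter,
                Set.Finite.mem_toFinset] at hB
              exact ⟨hB.1.2.1, hB.1.1⟩
            · refine (finite_subs π).subset ?_
              rintro B ⟨_, hB⟩
              exact hB
          exact_mod_cast h4.trans hM
        calc _ ≤ (M : ℝ) * Real.exp (-((b (j + 1) : ℝ) * T (j + 1) / Cs (j + 1))) :=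
              mul_le_mul_of_nonneg_right h3 (Real.exp_pos _).le
          _ < 1 := hs (j + 1) (by omega) hj (by omega)
    obtain ⟨E', Ax', hP', hinv', hbad'⟩ := kill (𝔉 := 𝔉) (p := p) (v := v)
      (G := gates π t (j + 1)) (pc := pcs Pop)
      (T := T (j + 1)) (C := Cs (j + 1)) (D := K0 ^ d * prodT T j)
      (D0 := c + K0 ^ d * prodT T (h - 1))
      (w0 := w0) (wf := W') (𝒜 := atoms π Pop t (j + 1))
      (Cl := {B | ∃ C ∈ F, B = clauseFm C}) pcs_subset (κ (j + 1))
      (hCs (j + 1) (by omega) hj)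
      (fun z _ => by simpa using hκD (j + 1) z)
      (fun E' => Clean π Pop t T j E' ∧ ∀ A b, E' A = some b → A ∈ atoms π Pop t (j + 1))
      (by
        rintro E' z b ⟨h1, h2⟩ hz hzE
        refine ⟨?_, ?_⟩
        · intro i hi1 hi2
          have := h1 i hi1 hi2
          apply Finset.subset_empty.1
          rw [← this]
          exact badGates_update_subset hzE b
        · intro A b' hA
          by_cases hAz : A = z
          · subst hAz; exact hz
          · rw [Function.update_of_ne hAz] at hA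
            exact h2 A b' hA)
      (by
        rintro E' ⟨h1, h2⟩ A hA
        have hA' : A ∈ atoms π Pop t (j + 1) := by
          rcases hA with hA | ⟨b, hA⟩
          · exact hA
          · exact h2 A b hA
        exact 𝔉.mono (by omega) (hdegA E' h1 A hA'))
      (by
        rintro E' ⟨h1, h2⟩ z hz
        rcases hκ (j + 1) z with h3 | h3
        · exact 𝔉.mono (by simpa using h3) (hdegA E' h1 z hz)
        · exact 𝔉.mono h3 (rf_mem_size hv z))
      (by
        rintro E' ⟨h1, h2⟩ B ⟨C, hC, rfl⟩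
        have := hc C hC
        exact 𝔉.mono (by omega) (clause_mem hv E' C))
      (by omega) _ E Ax (W' + (b (j + 1) + K0 ^ d * prodT T j)) (b (j + 1)) (le_refl _)
      ⟨hclean, fun A b hA => hatoms_mono (hdom A b hA)⟩ hinv hbadM (by omega)
    refine ⟨E', Ax', ?_, hP'.2, hinv'⟩
    intro i hi1 hi2
    rcases Nat.lt_or_ge i (j + 1) with hlt | hge
    · exact hP'.1 i hi1 (by omega)
    · have : i = j + 1 := by omega
      subst this
      exact hbad'

end Core

/-- The combinatorial core theorem. -/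
theorem core {p : ℕ} [hp : Fact p.Prime] {F : List Clause} {W : ℕ} (H : HardAt p F W)
    {c : ℕ} (hc : ∀ C ∈ F, C.length ≤ c) {R : List Rule} (hR : ∀ r ∈ R, r.Sound p)
    {π : List Fm} (hπ : Refutation R F π) (Pop : Finset Fm)
    {T b Cs : ℕ → ℕ} {κ : ℕ → Fm → ℕ} {K0 d h t M wf : ℕ} (hK0 : t + 1 ≤ K0) (hKp : p ≤ K0)
    (hT : ∀ j, 1 ≤ T j) (hd : ∀ A ∈ π, A.depth ≤ d) (hh : ∀ A ∈ π, A.wideDepth t ≤ h)
    (hpop : ∀ (k : ℕ) (f : Fin k → Fm), Fm.or k f ∈ subs π →
      ((Finset.univ.image f).filter (fun z => z ∉ Pop)).card ≤ t)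
    (hM : numOr π ≤ M)
    (hκ1 : ∀ j z, 1 ≤ κ j z) (hκD : ∀ j z, κ j z ≤ K0 ^ d * prodT T (j - 1))
    (hκ : ∀ (j : ℕ) (z : Fm), K0 ^ d * prodT T (j - 1) ≤ κ j z ∨ p ^ z.depth * z.size ≤ κ j z)
    (hCs : ∀ j, 1 ≤ j → j ≤ h → ∑ z ∈ atoms π Pop t j, κ j z ≤ Cs j)
    (hs : ∀ j, 1 ≤ j → j ≤ h → 0 < Cs j →
      (M : ℝ) * Real.exp (-((b j : ℝ) * T j / Cs j)) < 1)
    (hW : wf + ∑ i ∈ Finset.Icc 1 h, (b i + K0 ^ d * prodT T (i - 1)) ≤ W)
    (hw0 : K0 ^ d * prodT T (h - 1) + (c + K0 ^ d * prodT T (h - 1)) ≤ wf)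
    (hneed : ∀ r ∈ R, r.need p * (K0 ^ d * prodT T h) ≤ wf) : False := by
  obtain ⟨X, K, fK, cK, 𝔉, v, hv, hard⟩ := H
  obtain ⟨E, Ax, hclean, hdom, hinv⟩ := levels hv hard hc hK0 hKp hT hd hpop hM hκ1 hκD hκ
    hCs hs hw0 h (le_refl _) wf hW (le_refl _)
  have hdepth : ∀ A ∈ subs π, A.wideDepth t ≤ h := by
    rintro A ⟨B, hB, hAB⟩
    exact (wideDepth_sub hAB).trans (hh B hB)
  have hsim : SimHyp 𝔉 p v (subs π) E Ax wf (K0 ^ d * prodT T h) := by
    refine ⟨?_, ?_, ?_, ?_⟩
    · intro A hA B hB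
      exact subs_trans hA hB
    · intro A hA
      exact deg_of_clean' hv hK0 hKp hT hd hpop hclean hA (hdepth A hA)
    · intro l hl
      by_cases hk : ∃ B ∈ l, E B = some true
      · exact Or.inl hk
      right
      intro l' hl'
      have hk' : ¬ ∃ B ∈ l', E B = some true := by
        rintro ⟨B, hB, hBE⟩
        exact hk ⟨B, hl' B hB, hBE⟩
      rw [allF_eq_prod l' hk']
      have hgood := good_of_clean hK0 hT hpop hclean (k := l.length) (f := l.get) hl
        (hdepth _ hl)
      have hgood' := hgood.resolve_left (by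
        rintro ⟨i, hi⟩
        exact hk ⟨l.get i, l.get_mem i, hi⟩)
      have hsub : l'.toFinset.filter (fun B => E B = none) ⊆ live E l.get := by
        intro B hB
        rw [Finset.mem_filter, List.mem_toFinset] at hB
        simp only [live, Finset.mem_filter, Finset.mem_image, Finset.mem_univ, true_and]
        refine ⟨?_, hB.2⟩
        obtain ⟨i, hi⟩ := List.get_of_mem (hl' B hB.1)
        exact ⟨i, hi⟩
      have hdeg : ∀ B ∈ l'.toFinset.filter (fun B => E B = none), (1 - qf K p v E B) ∈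
          𝔉.LD (K0 ^ (Finset.univ.sup fun i => (l.get i).depth) *
            prodT T (Finset.univ.sup fun i => Fm.wideDepth t (l.get i))) := by
        intro B hB
        rw [Finset.mem_filter, List.mem_toFinset] at hB
        obtain ⟨i, hi⟩ := List.get_of_mem (hl' B hB.1)
        have hBs : B ∈ subs π := subs_trans hl (isSub_orL (hl' B hB.1))
        refine Submodule.sub_mem _ (𝔉.one_mem' _) (𝔉.mono ?_
          (qf_mem_of_rf_mem (deg_of_clean hv hK0 hKp hT hpop hclean hBs (hdepth B hBs))))
        subst hi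
        refine Nat.mul_le_mul (Nat.pow_le_pow_right (by omega) ?_) (prodT_mono hT ?_)
        · exact Finset.le_sup (f := fun i => (l.get i).depth) (Finset.mem_univ i)
        · exact Finset.le_sup (f := fun i => (l.get i).wideDepth t) (Finset.mem_univ i)
      refine 𝔉.mono ?_ (𝔉.prod_mem _ _ _ hdeg)
      have hcard := Finset.card_le_card hsub
      have hdl : (Finset.univ.sup fun i => (l.get i).depth) + 1 ≤ d := by
        have := depth_subs hd hl
        simpa [Fm.orL, Fm.depth] using this
      calc (l'.toFinset.filter (fun B => E B = none)).card *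
            (K0 ^ (Finset.univ.sup fun i => (l.get i).depth) *
              prodT T (Finset.univ.sup fun i => Fm.wideDepth t (l.get i)))
          ≤ (live E l.get).card * (K0 ^ (Finset.univ.sup fun i => (l.get i).depth) *
              prodT T (Finset.univ.sup fun i => Fm.wideDepth t (l.get i))) :=
            Nat.mul_le_mul_right _ hcard
        _ = K0 ^ (Finset.univ.sup fun i => (l.get i).depth) * ((live E l.get).card *
              prodT T (Finset.univ.sup fun i => Fm.wideDepth t (l.get i))) := by ring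
        _ ≤ K0 ^ (Finset.univ.sup fun i => (l.get i).depth) *
              (K0 * prodT T (Fm.wideDepth t (.or l.length l.get))) :=
            Nat.mul_le_mul_left _ hgood'
        _ = K0 ^ ((Finset.univ.sup fun i => (l.get i).depth) + 1) *
              prodT T (Fm.wideDepth t (.or l.length l.get)) := by ring
        _ ≤ K0 ^ d * prodT T h :=
            Nat.mul_le_mul (Nat.pow_le_pow_right (by omega) hdl) (prodT_mono hT (hdepth _ hl))
    · intro A b hA
      exact hinv.asg A b hA
  apply hinv.cons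
  refine hsim.no_refutation hR ?_ hneed hπ (fun A hA => ⟨A, hA, Fm.IsSub.refl⟩)
  intro C hC
  have h1 := hinv.cl (clauseFm C) ⟨C, hC, rfl⟩
  have e : ind K (fun _ : X => true) = 1 := by funext x; simp [ind]
  rwa [e] at h1

end Pool.Agent.Helper21.AC0p
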