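import Mathlib

/-!
Propositional formulas with unbounded fan-in disjunction, negation and MOD_p; Frege-style
systems given by finitely many sound schematic rules; refutations of CNF formulas.
-/

namespace Pool.Agent.Helper21.AC0p

/-- Formulas: variables, negation, unbounded fan-in disjunction, unbounded fan-in MOD_p. -/
inductive Fm : Type
  | var : ℕ → Fm
  | neg : Fm → Fm
  | or : (k : ℕ) → (Fin k → Fm) → Fm
  | mod : (k : ℕ) → (Fin k → Fm) → Fm

namespace Fm

/-- Truth value; `MOD_p (A_1, ..., A_k)` is true iff the number of true `A_i` is divisible by `p`. -/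
def eval (p : ℕ) (v : ℕ → Bool) : Fm → Bool
  | var i => v i
  | neg A => !(eval p v A)
  | or _ f => decide (∃ i, eval p v (f i) = true)
  | mod _ f => decide (p ∣ ∑ i, (eval p v (f i)).toNat)

/-- Maximal nesting of connectives. -/
def depth : Fm → ℕ
  | var _ => 0
  | neg A => depth A + 1
  | or _ f => (Finset.univ.sup fun i => depth (f i)) + 1
  | mod _ f => (Finset.univ.sup fun i => depth (f i)) + 1

/-- Number of symbols (occurrences of variables and connectives). -/
def size : Fm → ℕ
  | var _ => 1
  | neg A => size A + 1
  | or _ f => (∑ i, size (f i)) + 1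
  | mod _ f => (∑ i, size (f i)) + 1

/-- `IsSub B A`: the formula `B` is a subformula of `A`. -/
inductive IsSub (B : Fm) : Fm → Prop
  | refl : IsSub B B
  | neg {A : Fm} : IsSub B A → IsSub B (Fm.neg A)
  | or {k : ℕ} {f : Fin k → Fm} (i : Fin k) : IsSub B (f i) → IsSub B (Fm.or k f)
  | mod {k : ℕ} {f : Fin k → Fm} (i : Fin k) : IsSub B (f i) → IsSub B (Fm.mod k f)

/-- Nesting depth of the disjunctions that have more than `t` distinct disjuncts. -/
noncomputable def wideDepth (t : ℕ) : Fm → ℕ
  | var _ => 0
  | neg A => wideDepth t A
  | or _ f => (Finset.univ.sup fun i => wideDepth t (f i)) +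
      (if t < (Set.range f).ncard then 1 else 0)
  | mod _ f => Finset.univ.sup fun i => wideDepth t (f i)

/-- Disjunction of a list of formulas. -/
def orL (l : List Fm) : Fm := Fm.or l.length l.get

/-- `MOD_p` of a list of formulas. -/
def modL (l : List Fm) : Fm := Fm.mod l.length l.get

end Fm

/-- A literal: variable and sign. -/
abbrev Lit := ℕ × Bool

/-- A clause: list of literals; a CNF is a list of clauses. -/
abbrev Clause := List Lit

/-- The literal as a formula: `x` or `¬ x`. -/
def litFm (l : Lit) : Fm := if l.2 then Fm.var l.1 else Fm.neg (Fm.var l.1)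

/-- The clause as a formula: the disjunction of its literals. -/
def clauseFm (C : Clause) : Fm := Fm.orL (C.map litFm)

/-- Unsatisfiable CNF: every assignment makes all literals of some clause false. -/
def Unsat (F : List Clause) : Prop := ∀ v : ℕ → Bool, ∃ C ∈ F, ∀ l ∈ C, v l.1 ≠ l.2

mutual
/-- Formula schemes: built from metavariables for formulas by the connectives, the
arguments of `or` and `mod` being described by a list scheme. -/
inductive FSch : Type
  | mv : ℕ → FSch
  | neg : FSch → FSch
  | or : LSch → FSch
  | mod : LSch → FSch
/-- List schemes: lists whose items are formula schemes and metavariables for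
(arbitrarily long) lists of formulas. -/
inductive LSch : Type
  | nil : LSch
  | cons : FSch → LSch → LSch
  | app : ℕ → LSch → LSch
end

mutual
/-- Instance of a formula scheme under a substitution `σ` of formulas for the formula
metavariables and `τ` of lists of formulas for the list metavariables. -/
def FSch.inst (σ : ℕ → Fm) (τ : ℕ → List Fm) : FSch → Fm
  | .mv i => σ i
  | .neg s => Fm.neg (FSch.inst σ τ s)
  | .or l => Fm.orL (LSch.inst σ τ l)
  | .mod l => Fm.modL (LSch.inst σ τ l)
/-- Instance of a list scheme. -/
def LSch.inst (σ : ℕ → Fm) (τ : ℕ → List Fm) : LSch → List Fm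
  | .nil => []
  | .cons s l => FSch.inst σ τ s :: LSch.inst σ τ l
  | .app j l => τ j ++ LSch.inst σ τ l
end

/-- A schematic inference rule: finitely many premises and a conclusion. -/
structure Rule where
  prems : List FSch
  concl : FSch

/-- A rule is sound (for `MOD_p`) if in every instance the premises imply the conclusion. -/
def Rule.Sound (p : ℕ) (r : Rule) : Prop :=
  ∀ (σ : ℕ → Fm) (τ : ℕ → List Fm) (v : ℕ → Bool),
    (∀ s ∈ r.prems, (s.inst σ τ).eval p v = true) → (r.concl.inst σ τ).eval p v = true

/-- `Derivation R F π`: the list of lines `π` (latest line first) is a derivation from the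
clauses of `F` by the rules in `R`: every line is a clause of `F` or follows from earlier lines
by an instance of a rule. -/
inductive Derivation (R : List Rule) (F : List Clause) : List Fm → Prop
  | nil : Derivation R F []
  | clause {π : List Fm} {C : Clause} :
      Derivation R F π → C ∈ F → Derivation R F (clauseFm C :: π)
  | rule {π : List Fm} {r : Rule} (σ : ℕ → Fm) (τ : ℕ → List Fm) :
      Derivation R F π → r ∈ R → (∀ s ∈ r.prems, s.inst σ τ ∈ π) →
        Derivation R F (r.concl.inst σ τ :: π)

/-- A refutation is a derivation that contains the empty disjunction. -/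
def Refutation (R : List Rule) (F : List Clause) (π : List Fm) : Prop :=
  Derivation R F π ∧ Fm.orL [] ∈ π

/-- The size of `π`: the total number of symbols of its lines. -/
def psize (π : List Fm) : ℕ := (π.map Fm.size).sum

/-- The number of distinct disjunctions occurring (as subformulas) in `π`. -/
noncomputable def numOr (π : List Fm) : ℕ :=
  {B : Fm | (∃ (k : ℕ) (f : Fin k → Fm), B = Fm.or k f) ∧ ∃ A ∈ π, Fm.IsSub B A}.ncard

end Pool.Agent.Helper21.AC0p
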