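import Pool.Agent.Helper21.AC0p.LinSys

/-!
Existence of sparse systems with unique-neighbour expansion.
-/

namespace Pool.Agent.Helper21.AC0p

open scoped BigOperators Classical

/-- Neighbourhood of a set of rows. -/
noncomputable def nbh {m n : ℕ} (f : Fin m → Fin 5 → Fin n) (S : Finset (Fin m)) :
    Finset (Fin n) := (S ×ˢ (Finset.univ : Finset (Fin 5))).image (fun a => f a.1 a.2)

/-- The matrix of a neighbour function. -/
noncomputable def mat (q : ℕ) {m n : ℕ} (f : Fin m → Fin 5 → Fin n) (r : Fin m) (i : Fin n) :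
    ZMod q := ∑ t : Fin 5, if f r t = i then 1 else 0

theorem unique_nbh {q m n : ℕ} [hq : Fact q.Prime] (f : Fin m → Fin 5 → Fin n)
    (u : Fin m → ZMod q) :
    2 * (nbh f (Finset.univ.filter (fun r => u r ≠ 0))).card ≤
      hammingNorm (comb (mat q f) u) + 5 * hammingNorm u := by
  set S := Finset.univ.filter (fun r => u r ≠ 0) with hS
  set P := S ×ˢ (Finset.univ : Finset (Fin 5)) with hP
  have hPcard : P.card = 5 * hammingNorm u := by
    rw [hP, Finset.card_product]
    simp [hammingNorm, hS, mul_comm]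
  set g : Fin m × Fin 5 → Fin n := fun a => f a.1 a.2 with hg
  have h1 : P.card = ∑ i ∈ nbh f S, (P.filter (fun a => g a = i)).card :=
    Finset.card_eq_sum_card_image g P
  -- the unique neighbours
  set U := (nbh f S).filter (fun i => (P.filter (fun a => g a = i)).card = 1) with hU
  have h2 : U.card ≤ hammingNorm (comb (mat q f) u) := by
    unfold hammingNorm
    apply Finset.card_le_card
    intro i hi
    rw [hU, Finset.mem_filter] at hi
    obtain ⟨_, hi⟩ := hi
    rw [Finset.card_eq_one] at hi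
    obtain ⟨⟨r0, t0⟩, hr0⟩ := hi
    rw [Finset.mem_filter]
    refine ⟨Finset.mem_univ _, ?_⟩
    have hmem : (r0, t0) ∈ P.filter (fun a => g a = i) := by rw [hr0]; simp
    have hval : comb (mat q f) u i = u r0 := by
      have e1 : comb (mat q f) u i = ∑ a : Fin m × Fin 5, if g a = i then u a.1 else 0 := by
        rw [Fintype.sum_prod_type]
        simp only [comb, mat, Finset.mul_sum, hg]
        refine Finset.sum_congr rfl (fun r _ => Finset.sum_congr rfl (fun t _ => ?_))
        split_ifs <;> simp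
      rw [e1, Finset.sum_eq_single (r0, t0)]
      · rw [Finset.mem_filter] at hmem
        rw [if_pos hmem.2]
      · rintro ⟨r, t⟩ _ hne
        split_ifs with h
        · by_contra hne2
          apply hne
          have : (r, t) ∈ P.filter (fun a => g a = i) := by
            rw [Finset.mem_filter, hP, Finset.mem_product, hS, Finset.mem_filter]
            exact ⟨⟨⟨Finset.mem_univ _, hne2⟩, Finset.mem_univ _⟩, h⟩
          rw [hr0, Finset.mem_singleton] at this
          exact this
        · rfl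
      · intro h; exact absurd (Finset.mem_univ _) h
    rw [hval]
    rw [Finset.mem_filter, hP, Finset.mem_product, hS, Finset.mem_filter] at hmem
    exact hmem.1.1.2
  have h3 : 2 * (nbh f S).card ≤ U.card + ∑ i ∈ nbh f S, (P.filter (fun a => g a = i)).card := by
    have e : U.card = ∑ i ∈ nbh f S, if (P.filter (fun a => g a = i)).card = 1 then 1 else 0 := by
      rw [hU, Finset.card_filter]
    rw [e, ← Finset.sum_add_distrib]
    have : 2 * (nbh f S).card = ∑ i ∈ nbh f S, 2 := by simp [mul_comm]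
    rw [this]
    refine Finset.sum_le_sum (fun i hi => ?_)
    have hpos : 1 ≤ (P.filter (fun a => g a = i)).card := by
      rw [nbh, Finset.mem_image] at hi
      obtain ⟨a, ha, hai⟩ := hi
      exact Finset.card_pos.2 ⟨a, Finset.mem_filter.2 ⟨ha, hai⟩⟩
    split_ifs with h <;> omega
  omega

theorem card_bad {m n : ℕ} (S : Finset (Fin m)) (T : Finset (Fin n)) :
    (Finset.univ.filter (fun f : Fin m → Fin 5 → Fin n => ∀ r ∈ S, ∀ t, f r t ∈ T)).card =
      (T.card ^ 5) ^ S.card * (n ^ 5) ^ (m - S.card) := by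
  have h : Finset.univ.filter (fun f : Fin m → Fin 5 → Fin n => ∀ r ∈ S, ∀ t, f r t ∈ T) =
      Fintype.piFinset (fun r => if r ∈ S then Fintype.piFinset (fun _ : Fin 5 => T)
        else (Finset.univ : Finset (Fin 5 → Fin n))) := by
    ext f
    simp only [Finset.mem_filter, Finset.mem_univ, true_and, Fintype.mem_piFinset]
    constructor
    · intro h r
      split_ifs with hr
      · rw [Fintype.mem_piFinset]; exact h r hr
      · exact Finset.mem_univ _
    · intro h r hr t
      have := h r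
      rw [if_pos hr, Fintype.mem_piFinset] at this
      exact this t
  rw [h, Fintype.card_piFinset]
  have h2 : ∀ r : Fin m, (if r ∈ S then Fintype.piFinset (fun _ : Fin 5 => T)
        else (Finset.univ : Finset (Fin 5 → Fin n))).card =
        if r ∈ S then T.card ^ 5 else n ^ 5 := by
    intro r
    split_ifs <;> simp
  rw [Finset.prod_congr rfl (fun r _ => h2 r), Finset.prod_ite]
  simp only [Finset.prod_const, Finset.filter_mem_eq_inter, Finset.univ_inter]
  congr 2
  rw [Finset.filter_not, Finset.card_sdiff_of_subset (Finset.filter_subset _ _)]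
  simp

theorem exp_four_lt : Real.exp 4 < 55 := by
  have h1 : Real.exp 4 = Real.exp 1 ^ 4 := by
    rw [← Real.exp_nat_mul]; norm_num
  rw [h1]
  have h2 : Real.exp 1 < 2.7182818286 := Real.exp_one_lt_d9
  have h3 : 0 < Real.exp 1 := Real.exp_pos 1
  calc Real.exp 1 ^ 4 < 2.7182818286 ^ 4 := by gcongr
    _ < 55 := by norm_num

/-- The union bound, one size. -/
theorem union_term {m n s : ℕ} (hm : m ≤ 2 * n) (hs : 1 ≤ s) (hsn : 2000 * s ≤ n) :
    (m.choose s : ℝ) * (n.choose (3 * s) : ℝ) * ((3 * s : ℝ) ^ 5) ^ s ≤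
      (1 / 2) ^ s * ((n : ℝ) ^ 5) ^ s := by
  have hn0 : (0 : ℝ) < n := by
    have : 0 < n := by omega
    exact_mod_cast this
  have hs0 : (0 : ℝ) < s := by exact_mod_cast hs
  have h1 : (m.choose s : ℝ) ≤ (2 * n : ℝ) ^ s / s.factorial := by
    refine le_trans (Nat.choose_le_pow_div s m) ?_
    gcongr
    exact_mod_cast hm
  have h2 : (n.choose (3 * s) : ℝ) ≤ (n : ℝ) ^ (3 * s) / (3 * s).factorial :=
    Nat.choose_le_pow_div (3 * s) n
  have h3 : (1 : ℝ) / s.factorial ≤ Real.exp s / (s : ℝ) ^ s := by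
    rw [div_le_div_iff₀ (by positivity) (by positivity), one_mul]
    have := Real.pow_div_factorial_le_exp (s : ℝ) hs0.le s
    rw [div_le_iff₀ (by positivity)] at this
    exact this
  have h4 : (1 : ℝ) / (3 * s).factorial ≤ Real.exp (3 * s) / (3 * s : ℝ) ^ (3 * s) := by
    rw [div_le_div_iff₀ (by positivity) (by positivity), one_mul]
    have := Real.pow_div_factorial_le_exp (3 * s : ℝ) (by positivity) (3 * s)
    rw [div_le_iff₀ (by positivity)] at this
    exact this
  have h5 : (m.choose s : ℝ) * (n.choose (3 * s) : ℝ) * ((3 * s : ℝ) ^ 5) ^ s ≤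
      ((2 * n : ℝ) ^ s * (Real.exp s / (s : ℝ) ^ s)) *
      ((n : ℝ) ^ (3 * s) * (Real.exp (3 * s) / (3 * s : ℝ) ^ (3 * s))) *
      ((3 * s : ℝ) ^ 5) ^ s := by
    have a1 : (m.choose s : ℝ) ≤ (2 * n : ℝ) ^ s * (Real.exp s / (s : ℝ) ^ s) := by
      refine h1.trans ?_
      rw [div_eq_mul_one_div]
      exact mul_le_mul_of_nonneg_left h3 (by positivity)
    have a2 : (n.choose (3 * s) : ℝ) ≤
        (n : ℝ) ^ (3 * s) * (Real.exp (3 * s) / (3 * s : ℝ) ^ (3 * s)) := by
      refine h2.trans ?_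
      rw [div_eq_mul_one_div]
      exact mul_le_mul_of_nonneg_left h4 (by positivity)
    gcongr
  refine h5.trans ?_
  have e1 : Real.exp s = Real.exp 1 ^ s := by rw [← Real.exp_nat_mul]; ring_nf
  have e2 : Real.exp (3 * s) = (Real.exp 1 ^ 3) ^ s := by
    rw [← pow_mul, ← Real.exp_nat_mul]; push_cast; ring_nf
  have e3 : ((2 * n : ℝ) ^ s * (Real.exp s / (s : ℝ) ^ s)) *
      ((n : ℝ) ^ (3 * s) * (Real.exp (3 * s) / (3 * s : ℝ) ^ (3 * s))) *
      ((3 * s : ℝ) ^ 5) ^ s =
      (18 * Real.exp 1 ^ 4 * s / n) ^ s * ((n : ℝ) ^ 5) ^ s := by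
    rw [e1, e2, pow_mul, pow_mul]
    rw [← div_pow, ← div_pow, ← mul_pow, ← mul_pow, ← mul_pow, ← mul_pow, ← mul_pow]
    congr 1
    field_simp
    ring
  rw [e3]
  have h6 : 18 * Real.exp 1 ^ 4 * s / n ≤ 1 / 2 := by
    rw [div_le_iff₀ hn0]
    have hexp : Real.exp 1 ^ 4 < 55 := by
      have h1 : Real.exp 4 = Real.exp 1 ^ 4 := by
        rw [← Real.exp_nat_mul]; norm_num
      rw [← h1]; exact exp_four_lt
    have : (2000 * s : ℝ) ≤ n := by exact_mod_cast hsn
    nlinarith
  gcongr

/-- Existence of expanding neighbour functions. -/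
theorem exists_expander {m n : ℕ} (hm : m ≤ 2 * n) :
    ∃ f : Fin m → Fin 5 → Fin n, ∀ S : Finset (Fin m), 1 ≤ S.card → 2000 * S.card ≤ n →
      3 * S.card < (nbh f S).card := by
  by_contra hcon
  push Not at hcon
  rcases Nat.eq_zero_or_pos n with hn | hn
  · subst hn
    have hm0 : m = 0 := by omega
    subst hm0
    obtain ⟨S, hS1, hS2, _⟩ := hcon (fun r => r.elim0)
    omega
  -- every f is bad
  set L := n / 2000 with hL
  have hcover : (Finset.univ : Finset (Fin m → Fin 5 → Fin n)) ⊆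
      (Finset.Icc 1 L).biUnion (fun s =>
        ((Finset.univ : Finset (Fin m)).powersetCard s).biUnion (fun S =>
          ((Finset.univ : Finset (Fin n)).powersetCard (3 * s)).biUnion (fun T =>
            Finset.univ.filter (fun f : Fin m → Fin 5 → Fin n => ∀ r ∈ S, ∀ t, f r t ∈ T)))) := by
    intro f _
    obtain ⟨S, hS1, hS2, hS3⟩ := hcon f
    have h3 : 3 * S.card ≤ (Finset.univ : Finset (Fin n)).card := by
      rw [Finset.card_univ, Fintype.card_fin]; omega
    obtain ⟨T, hT1, _, hT2⟩ := Finset.exists_subsuperset_card_eq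
      (Finset.subset_univ (nbh f S)) hS3 h3
    simp only [Finset.mem_biUnion, Finset.mem_Icc, Finset.mem_powersetCard, Finset.mem_filter]
    refine ⟨S.card, ⟨hS1, ?_⟩, S, ⟨Finset.subset_univ _, rfl⟩, T, ⟨Finset.subset_univ _, hT2⟩,
      Finset.mem_univ _, ?_⟩
    · rw [hL, Nat.le_div_iff_mul_le (by norm_num)]; omega
    · intro r hr t
      apply hT1
      rw [nbh, Finset.mem_image]
      exact ⟨(r, t), Finset.mem_product.2 ⟨hr, Finset.mem_univ _⟩, rfl⟩
  have hcard := Finset.card_le_card hcover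
  have hle : (Finset.univ : Finset (Fin m → Fin 5 → Fin n)).card ≤
      ∑ s ∈ Finset.Icc 1 L, m.choose s * (n.choose (3 * s) *
        (((3 * s) ^ 5) ^ s * (n ^ 5) ^ (m - s))) := by
    refine hcard.trans (Finset.card_biUnion_le.trans (Finset.sum_le_sum (fun s _ => ?_)))
    refine Finset.card_biUnion_le.trans ?_
    have h1 : ∀ S ∈ (Finset.univ : Finset (Fin m)).powersetCard s,
        (((Finset.univ : Finset (Fin n)).powersetCard (3 * s)).biUnion (fun T =>
            Finset.univ.filter (fun f : Fin m → Fin 5 → Fin n =>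
              ∀ r ∈ S, ∀ t, f r t ∈ T))).card ≤
          n.choose (3 * s) * (((3 * s) ^ 5) ^ s * (n ^ 5) ^ (m - s)) := by
      intro S hS
      rw [Finset.mem_powersetCard] at hS
      refine Finset.card_biUnion_le.trans ?_
      have h2 : ∀ T ∈ (Finset.univ : Finset (Fin n)).powersetCard (3 * s),
          (Finset.univ.filter (fun f : Fin m → Fin 5 → Fin n =>
              ∀ r ∈ S, ∀ t, f r t ∈ T)).card ≤ ((3 * s) ^ 5) ^ s * (n ^ 5) ^ (m - s) := by
        intro T hT
        rw [Finset.mem_powersetCard] at hT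
        rw [card_bad, hT.2, hS.2]
      refine (Finset.sum_le_sum h2).trans ?_
      rw [Finset.sum_const, Finset.card_powersetCard, Finset.card_univ, Fintype.card_fin,
        smul_eq_mul]
    refine (Finset.sum_le_sum h1).trans ?_
    rw [Finset.sum_const, Finset.card_powersetCard, Finset.card_univ, Fintype.card_fin,
      smul_eq_mul]
  have hcardΩ : (Finset.univ : Finset (Fin m → Fin 5 → Fin n)).card = (n ^ 5) ^ m := by
    rw [Finset.card_univ]
    simp
  rw [hcardΩ] at hle
  have hn0 : (0 : ℝ) < n := by exact_mod_cast hn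
  have hreal : (((n : ℝ) ^ 5) ^ m) ≤ ∑ s ∈ Finset.Icc 1 L, (1 / 2 : ℝ) ^ s * ((n : ℝ) ^ 5) ^ m := by
    have h1 : (((n : ℝ) ^ 5) ^ m) ≤ ∑ s ∈ Finset.Icc 1 L, (m.choose s : ℝ) *
        ((n.choose (3 * s) : ℝ) * (((3 * s : ℝ) ^ 5) ^ s * ((n : ℝ) ^ 5) ^ (m - s))) := by
      exact_mod_cast hle
    refine h1.trans (Finset.sum_le_sum (fun s hs => ?_))
    rw [Finset.mem_Icc] at hs
    by_cases hsm : s ≤ m
    · have h2 := union_term (m := m) (n := n) (s := s) hm hs.1 (by
        have := hs.2
        rw [hL, Nat.le_div_iff_mul_le (by norm_num)] at this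
        omega)
      have e : ((n : ℝ) ^ 5) ^ m = ((n : ℝ) ^ 5) ^ s * ((n : ℝ) ^ 5) ^ (m - s) := by
        rw [← pow_add]; congr 1; omega
      calc (m.choose s : ℝ) *
          ((n.choose (3 * s) : ℝ) * (((3 * s : ℝ) ^ 5) ^ s * ((n : ℝ) ^ 5) ^ (m - s)))
          = ((m.choose s : ℝ) * (n.choose (3 * s) : ℝ) * ((3 * s : ℝ) ^ 5) ^ s) *
              ((n : ℝ) ^ 5) ^ (m - s) := by ring
        _ ≤ ((1 / 2) ^ s * ((n : ℝ) ^ 5) ^ s) * ((n : ℝ) ^ 5) ^ (m - s) := by gcongr
        _ = (1 / 2 : ℝ) ^ s * ((n : ℝ) ^ 5) ^ m := by rw [e]; ring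
    · rw [Nat.choose_eq_zero_of_lt (by omega)]
      have : (0 : ℝ) ≤ (1 / 2 : ℝ) ^ s * ((n : ℝ) ^ 5) ^ m := by positivity
      simpa using this
  rw [← Finset.sum_mul] at hreal
  have hsum : ∑ s ∈ Finset.Icc 1 L, (1 / 2 : ℝ) ^ s < 1 := by
    have h1 : ∀ L : ℕ, ∑ s ∈ Finset.Icc 1 L, (1 / 2 : ℝ) ^ s = 1 - (1 / 2) ^ L := by
      intro L
      induction L with
      | zero => simp
      | succ L ih => rw [Finset.sum_Icc_succ_top (by omega), ih]; ring
    rw [h1]
    have : (0 : ℝ) < (1 / 2) ^ L := by positivity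
    linarith
  have hpos : (0 : ℝ) < ((n : ℝ) ^ 5) ^ m := by positivity
  nlinarith

/-- The expansion hypothesis for the matrix of an expanding neighbour function. -/
theorem expands_of {q m n : ℕ} [hq : Fact q.Prime] (f : Fin m → Fin 5 → Fin n)
    (hf : ∀ S : Finset (Fin m), 1 ≤ S.card → 2000 * S.card ≤ n → 3 * S.card < (nbh f S).card)
    {w : ℕ} (hw : 1 ≤ w) (hwn : 8000 * w ≤ n) : Expands (mat q f) (2 * w) w := by
  have key : ∀ u : Fin m → ZMod q, 1 ≤ hammingNorm u → 2000 * hammingNorm u ≤ n →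
      hammingNorm u < hammingNorm (comb (mat q f) u) := by
    intro u h1 h2
    have h3 := unique_nbh f u
    have h4 := hf (Finset.univ.filter (fun r => u r ≠ 0)) h1 h2
    have h5 : (Finset.univ.filter (fun r => u r ≠ 0)).card = hammingNorm u := rfl
    rw [h5] at h4
    omega
  refine ⟨by omega, ?_, ?_⟩
  · intro u h1 h2
    by_contra hcon
    have := key u (by omega) (by omega)
    omega
  · intro u h1 h2
    by_contra hne
    have h3 : 1 ≤ hammingNorm u := by
      rw [Nat.one_le_iff_ne_zero]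
      intro h0
      exact hne (hammingNorm_eq_zero.1 h0)
    have := key u h3 (by omega)
    rw [h2] at this
    simp at this

end Pool.Agent.Helper21.AC0p
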