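import Pool.Agent.Helper21.AC0p.Core

/-!
Asymptotics for the core theorem.
-/

namespace Pool.Agent.Helper21.AC0p

open scoped BigOperators Classical

theorem exp_budget {M : ℕ} {y : ℝ} {T C b : ℕ} (hM : (M : ℝ) < Real.exp y)
    (hC : 0 < C) (hb : y * C / T ≤ b) (hT : 1 ≤ T) :
    (M : ℝ) * Real.exp (-((b : ℝ) * T / C)) < 1 := by
  have hC0 : (0 : ℝ) < C := by exact_mod_cast hC
  have hT0 : (0 : ℝ) < T := by exact_mod_cast hT
  have h3 : y ≤ (b : ℝ) * T / C := by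
    rw [le_div_iff₀ hC0]
    rwa [div_le_iff₀ hT0] at hb
  calc (M : ℝ) * Real.exp (-((b : ℝ) * T / C)) ≤ M * Real.exp (-y) := by
        gcongr
    _ < Real.exp y * Real.exp (-y) := by
        apply mul_lt_mul_of_pos_right hM (Real.exp_pos _)
    _ = 1 := by rw [← Real.exp_add]; simp

/-- Thresholds. -/
noncomputable def Tf (x τ : ℝ) (j : ℕ) : ℕ := ⌈x ^ (τ * 2 ^ (j - 1))⌉₊

theorem one_le_Tf {x τ : ℝ} (hx : 1 ≤ x) (hτ : 0 ≤ τ) (j : ℕ) : 1 ≤ Tf x τ j := by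
  unfold Tf
  rw [Nat.one_le_ceil_iff]
  positivity

theorem Tf_le {x τ : ℝ} (hx : 1 ≤ x) (hτ : 0 ≤ τ) (j : ℕ) :
    (Tf x τ j : ℝ) ≤ 2 * x ^ (τ * 2 ^ (j - 1)) := by
  unfold Tf
  have h1 : (1 : ℝ) ≤ x ^ (τ * 2 ^ (j - 1)) := Real.one_le_rpow hx (by positivity)
  have h2 := Nat.ceil_lt_add_one (a := x ^ (τ * 2 ^ (j - 1))) (by positivity)
  linarith

theorem prodT_le {x τ : ℝ} (hx : 1 ≤ x) (hτ : 0 ≤ τ) (j : ℕ) :
    (prodT (Tf x τ) j : ℝ) ≤ 2 ^ j * x ^ (τ * (2 ^ j - 1)) := by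
  have hx0 : 0 < x := by linarith
  induction j with
  | zero => simp [prodT]
  | succ j ih =>
    rw [prodT]
    push_cast
    have h1 := Tf_le hx hτ (j + 1)
    simp only [Nat.add_sub_cancel] at h1
    calc (Tf x τ (j + 1) : ℝ) * prodT (Tf x τ) j
        ≤ (2 * x ^ (τ * 2 ^ j)) * (2 ^ j * x ^ (τ * (2 ^ j - 1))) := by gcongr
      _ = 2 ^ (j + 1) * (x ^ (τ * 2 ^ j) * x ^ (τ * (2 ^ j - 1))) := by ring
      _ = 2 ^ (j + 1) * x ^ (τ * (2 ^ (j + 1) - 1)) := by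
          rw [← Real.rpow_add hx0]; ring_nf

set_option maxHeartbeats 4000000 in
/-- The main theorem on few distinct disjuncts. -/
theorem few_disjuncts (p : ℕ) (hp : p.Prime) :
    ∃ (c : ℕ) (F : ℕ → List Clause),
      (∀ n, (∀ C ∈ F n, C.length ≤ c ∧ ∀ l ∈ C, l.1 < n) ∧ (F n).length ≤ c * (n + 1) ∧
        Unsat (F n)) ∧
      ∀ R : List Rule, (∀ r ∈ R, r.Sound p) → ∀ d h : ℕ, 1 ≤ h → ∀ η : ℝ, 0 < η →
        ∃ ε : ℝ, 0 < ε ∧ ∃ n₀ : ℕ, ∀ n : ℕ, n₀ ≤ n → ∀ π : List Fm, Refutation R (F n) π →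
          ∀ t : ℕ, (t : ℝ) ≤ (n : ℝ) ^ ε → (∀ A ∈ π, A.depth ≤ d ∧ A.wideDepth t ≤ h) →
          ∀ P : Set Fm, P.Finite →
            (P.ncard : ℝ) ≤ (n : ℝ) ^ (1 + 1 / ((2 : ℝ) ^ h - 1) - η) →
            (∀ (k : ℕ) (f : Fin k → Fm), (∃ A ∈ π, Fm.IsSub (Fm.or k f) A) →
              (Set.range f \ P).ncard ≤ t) →
            (2 : ℝ) ^ ((n : ℝ) ^ ε) ≤ numOr π ∧ (2 : ℝ) ^ ((n : ℝ) ^ ε) ≤ psize π := by
  have : Fact p.Prime := ⟨hp⟩
  obtain ⟨c, F, hc1, hF, hhard⟩ := exists_hard p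
  refine ⟨c, F, hF, ?_⟩
  intro R hR d h hh η hη
  -- exponents
  set ε : ℝ := min (η / (4 * d + 3)) (1 / (4 * d + 2)) with hε
  have hε0 : 0 < ε := by
    rw [hε]; apply lt_min <;> positivity
  have hε1 : (4 * d + 3) * ε ≤ η := by
    have : ε ≤ η / (4 * d + 3) := min_le_left _ _
    rwa [le_div_iff₀ (by positivity), mul_comm] at this
  have hε2 : (4 * d + 2) * ε ≤ 1 := by
    have : ε ≤ 1 / (4 * d + 2) := min_le_right _ _
    rwa [le_div_iff₀ (by positivity), mul_comm] at this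
  have h2h : (2 : ℝ) ≤ 2 ^ h := by
    calc (2 : ℝ) = 2 ^ 1 := by norm_num
      _ ≤ 2 ^ h := pow_le_pow_right₀ (by norm_num) hh
  set a : ℝ := 1 / ((2 : ℝ) ^ h - 1) with ha
  have ha0 : 0 < a := by rw [ha]; apply div_pos one_pos; linarith
  have ha1 : a ≤ 1 := by rw [ha, div_le_one (by linarith)]; linarith
  have hamul : a * (2 ^ h - 1) = 1 := by
    rw [ha]; exact one_div_mul_cancel (by linarith)
  have hd0 : (0 : ℝ) ≤ d := Nat.cast_nonneg d
  set τ : ℝ := a * (1 - (2 * d + 1) * ε) with hτ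
  have hδ1 : (2 * d + 1) * ε ≤ 1 / 2 := by nlinarith
  have hτ0 : 0 ≤ τ := by
    rw [hτ]
    apply mul_nonneg ha0.le
    linarith
  -- constants
  set needs : ℕ := (R.map (fun r => r.need p)).sum with hneeds
  set Cst : ℝ := (c + 2 + needs) * 2 ^ h + h * (2 ^ h * 3) with hCst
  have hCst0 : 0 < Cst := by
    rw [hCst]
    have : (0 : ℝ) ≤ needs := Nat.cast_nonneg _
    have : (0 : ℝ) ≤ c := Nat.cast_nonneg _
    positivity
  -- large n
  have hlarge : ∀ᶠ n : ℕ in Filter.atTop, (2 : ℝ) ≤ (n : ℝ) ^ ε ∧ (p : ℝ) ≤ (n : ℝ) ^ ε ∧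
      Cst * (2 * c) ≤ (n : ℝ) ^ ε ∧ (2 * c : ℝ) ≤ n ∧ ((c + 1) * c : ℝ) ≤ n ∧ (1 : ℝ) ≤ n := by
    have h1 : Filter.Tendsto (fun n : ℕ => ((n : ℝ)) ^ ε) Filter.atTop Filter.atTop :=
      (tendsto_rpow_atTop hε0).comp tendsto_natCast_atTop_atTop
    have h2 : Filter.Tendsto (fun n : ℕ => ((n : ℝ))) Filter.atTop Filter.atTop :=
      tendsto_natCast_atTop_atTop
    filter_upwards [h1.eventually_ge_atTop 2, h1.eventually_ge_atTop (p : ℝ),
      h1.eventually_ge_atTop (Cst * (2 * c)), h2.eventually_ge_atTop (2 * c : ℝ),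
      h2.eventually_ge_atTop ((c + 1) * c : ℝ), h2.eventually_ge_atTop 1] with n a1 a2 a3 a4 a5 a6
    exact ⟨a1, a2, a3, a4, a5, a6⟩
  obtain ⟨n₀, hn₀⟩ := Filter.eventually_atTop.1 hlarge
  refine ⟨ε, hε0, n₀, ?_⟩
  intro n hn π hπ t ht hdep P hPfin hPcard hPop
  obtain ⟨hx2, hxp, hxC, hx2c, hxcc, hx1⟩ := hn₀ n hn
  suffices hmain : (2 : ℝ) ^ ((n : ℝ) ^ ε) ≤ numOr π from
    ⟨hmain, hmain.trans (by exact_mod_cast numOr_le_psize π)⟩
  by_contra hcon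
  push Not at hcon
  set x : ℝ := (n : ℝ) with hx
  have hx0 : 0 < x := by linarith
  -- parameters
  set K0 : ℕ := max p (t + 1) with hK0
  have hK0x : (K0 : ℝ) ≤ x ^ (2 * ε) := by
    have e : x ^ (2 * ε) = x ^ ε * x ^ ε := by
      rw [← Real.rpow_add hx0]; ring_nf
    have hxe0 : 0 < x ^ ε := Real.rpow_pos_of_pos hx0 _
    rw [e, hK0]
    push_cast
    apply max_le
    · nlinarith
    · nlinarith
  set D0 : ℝ := x ^ (2 * d * ε) with hD0
  have hK0d : ((K0 : ℝ)) ^ d ≤ D0 := by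
    calc ((K0 : ℝ)) ^ d ≤ (x ^ (2 * ε)) ^ d := by gcongr
      _ = x ^ (2 * d * ε) := by
          rw [← Real.rpow_natCast, ← Real.rpow_mul hx0.le]; ring_nf
  set N : ℕ := P.ncard with hNdef
  set Cs : ℕ → ℕ := fun j => N * (K0 ^ d * prodT (Tf x τ) (j - 1)) with hCsdef
  set s : ℕ → ℕ := fun j => ⌈x ^ ε * Cs j / Tf x τ j⌉₊ with hs
  set W : ℕ := n / c with hW
  have hc0 : 0 < c := hc1
  have hcr : (1 : ℝ) ≤ c := by exact_mod_cast hc1
  have hWx : x / (2 * c) ≤ W := by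
    have h1 : (n : ℝ) / c - 1 ≤ (n / c : ℕ) := by
      have := Nat.lt_floor_add_one ((n : ℝ) / c)
      rw [Nat.floor_div_eq_div] at this
      linarith
    have h2 : x / (2 * c) ≤ x / c - 1 := by
      rw [div_le_iff₀ (by positivity)]
      have : (x / c - 1) * (2 * c) = 2 * x - 2 * c := by field_simp
      rw [this]; linarith
    exact h2.trans h1
  have hWc : c ≤ W := by
    rw [hW, Nat.le_div_iff_mul_le hc0]
    have : ((c * c : ℕ) : ℝ) ≤ n := by push_cast; nlinarith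
    exact_mod_cast this
  have hWn : c * W ≤ n := Nat.mul_div_le n c
  obtain ⟨H⟩ := hhard n W hWc hWn
  set wf : ℕ := (c + 2 + needs) * (K0 ^ d * prodT (Tf x τ) h) with hwf
  have hT1 : ∀ j, 1 ≤ Tf x τ j := one_le_Tf hx1 hτ0
  have hK0pos : 1 ≤ K0 := by rw [hK0]; exact le_max_of_le_right (by omega)
  have hK0dpos : 1 ≤ K0 ^ d := Nat.one_le_pow _ _ hK0pos
  -- upper bounds
  have hDh : ((K0 ^ d * prodT (Tf x τ) h : ℕ) : ℝ) ≤ 2 ^ h * x ^ (1 - ε) := by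
    push_cast
    calc ((K0 : ℝ)) ^ d * (prodT (Tf x τ) h : ℝ) ≤ D0 * (2 ^ h * x ^ (τ * (2 ^ h - 1))) := by
          gcongr
          exact prodT_le hx1 hτ0 h
      _ = 2 ^ h * (D0 * x ^ (τ * (2 ^ h - 1))) := by ring
      _ = 2 ^ h * x ^ (1 - ε) := by
          rw [hD0, ← Real.rpow_add hx0]
          congr 2
          have : τ * (2 ^ h - 1) = (1 - (2 * d + 1) * ε) * (a * (2 ^ h - 1)) := by rw [hτ]; ring
          rw [this, hamul]; ring
  have hcost : ∀ j ∈ Finset.Icc 1 h,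
      ((s j + K0 ^ d * prodT (Tf x τ) (j - 1) : ℕ) : ℝ) ≤ (2 ^ h * 3) * x ^ (1 - ε) := by
    intro j hj
    rw [Finset.mem_Icc] at hj
    have h1 : (prodT (Tf x τ) (j - 1) : ℝ) ≤ 2 ^ h * x ^ (τ * (2 ^ (j - 1) - 1)) := by
      refine (prodT_le hx1 hτ0 (j - 1)).trans ?_
      gcongr
      · norm_num
      · omega
    have hD : ((K0 ^ d * prodT (Tf x τ) (j - 1) : ℕ) : ℝ) ≤
        2 ^ h * x ^ (2 * d * ε + τ * (2 ^ (j - 1) - 1)) := by
      push_cast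
      calc ((K0 : ℝ)) ^ d * (prodT (Tf x τ) (j - 1) : ℝ) ≤
            D0 * (2 ^ h * x ^ (τ * (2 ^ (j - 1) - 1))) := by gcongr
        _ = 2 ^ h * x ^ (2 * d * ε + τ * (2 ^ (j - 1) - 1)) := by
            rw [hD0, Real.rpow_add hx0]; ring
    have h2 : (s j : ℝ) ≤ 2 ^ h * x ^ (ε + (1 + a - η) + 2 * d * ε - τ) + 1 := by
      rw [hs]
      have h3 := Nat.ceil_lt_add_one (a := x ^ ε * Cs j / Tf x τ j) (by positivity)
      refine h3.le.trans ?_
      gcongr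
      have h4 : x ^ (τ * 2 ^ (j - 1)) ≤ Tf x τ j := Nat.le_ceil _
      have h5 : (0 : ℝ) < x ^ (τ * 2 ^ (j - 1)) := Real.rpow_pos_of_pos hx0 _
      have h6 : (Cs j : ℝ) ≤ x ^ (1 + a - η) *
          (2 ^ h * x ^ (2 * d * ε + τ * (2 ^ (j - 1) - 1))) := by
        rw [hCsdef]
        simp only []
        rw [Nat.cast_mul]
        gcongr
      calc x ^ ε * Cs j / Tf x τ j ≤ x ^ ε * (x ^ (1 + a - η) *
            (2 ^ h * x ^ (2 * d * ε + τ * (2 ^ (j - 1) - 1)))) / x ^ (τ * 2 ^ (j - 1)) := by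
            gcongr
        _ = 2 ^ h * (x ^ ε * x ^ (1 + a - η) * x ^ (2 * d * ε + τ * (2 ^ (j - 1) - 1)) /
              x ^ (τ * 2 ^ (j - 1))) := by ring
        _ = 2 ^ h * x ^ (ε + (1 + a - η) + 2 * d * ε - τ) := by
            rw [← Real.rpow_add hx0, ← Real.rpow_add hx0, ← Real.rpow_sub hx0]
            ring_nf
    have h7 : x ^ (ε + (1 + a - η) + 2 * d * ε - τ) ≤ x ^ (1 - ε) := by
      apply Real.rpow_le_rpow_of_exponent_le hx1
      rw [hτ]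
      have h8 : a * ((2 * d + 1) * ε) ≤ 1 * ((2 * d + 1) * ε) := by gcongr
      nlinarith
    have h9 : x ^ (2 * d * ε + τ * (2 ^ (j - 1) - 1)) ≤ x ^ (1 - ε) := by
      apply Real.rpow_le_rpow_of_exponent_le hx1
      have h10 : (2 : ℝ) ^ (j - 1) ≤ 2 ^ (h - 1) := by
        apply pow_le_pow_right₀ (by norm_num); omega
      have h11 : (2 : ℝ) ^ h = 2 * 2 ^ (h - 1) := by
        rw [← pow_succ']; congr 1; omega
      have h12 : τ * (2 ^ (j - 1) - 1) ≤ 1 / 2 := by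
        have h13 : τ ≤ a := by
          rw [hτ]
          have : 0 ≤ (2 * d + 1) * ε := by positivity
          nlinarith
        have h14 : (0 : ℝ) ≤ 2 ^ (j - 1) - 1 := by
          have : (1 : ℝ) ≤ 2 ^ (j - 1) := one_le_pow₀ (by norm_num)
          linarith
        calc τ * (2 ^ (j - 1) - 1) ≤ a * (2 ^ (h - 1) - 1) := by gcongr
          _ = (a * (2 ^ h - 1) - a) / 2 := by rw [h11]; ring
          _ ≤ 1 / 2 := by rw [hamul]; linarith
      nlinarith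
    have h10 : (1 : ℝ) ≤ 2 ^ h * x ^ (1 - ε) := by
      have : (1 : ℝ) ≤ x ^ (1 - ε) := Real.one_le_rpow hx1 (by nlinarith)
      nlinarith
    rw [Nat.cast_add]
    calc (s j : ℝ) + ((K0 ^ d * prodT (Tf x τ) (j - 1) : ℕ) : ℝ)
        ≤ (2 ^ h * x ^ (ε + (1 + a - η) + 2 * d * ε - τ) + 1) +
          2 ^ h * x ^ (2 * d * ε + τ * (2 ^ (j - 1) - 1)) := add_le_add h2 hD
      _ ≤ (2 ^ h * x ^ (1 - ε) + 2 ^ h * x ^ (1 - ε)) + 2 ^ h * x ^ (1 - ε) := by gcongr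
      _ = (2 ^ h * 3) * x ^ (1 - ε) := by ring
  have htotal : (wf : ℝ) + ((∑ i ∈ Finset.Icc 1 h,
      (s i + K0 ^ d * prodT (Tf x τ) (i - 1)) : ℕ) : ℝ) ≤ W := by
    have h1 : (wf : ℝ) ≤ (c + 2 + needs) * (2 ^ h * x ^ (1 - ε)) := by
      rw [hwf, Nat.cast_mul]
      push_cast
      push_cast at hDh
      gcongr
    have h2 : ((∑ i ∈ Finset.Icc 1 h, (s i + K0 ^ d * prodT (Tf x τ) (i - 1)) : ℕ) : ℝ) ≤
        h * ((2 ^ h * 3) * x ^ (1 - ε)) := by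
      rw [Nat.cast_sum]
      refine (Finset.sum_le_sum hcost).trans ?_
      rw [Finset.sum_const, Nat.card_Icc, nsmul_eq_mul]
      simp
    have h3 : Cst * x ^ (1 - ε) ≤ x / (2 * c) := by
      rw [le_div_iff₀ (by positivity)]
      calc Cst * x ^ (1 - ε) * (2 * c) = (Cst * (2 * c)) * x ^ (1 - ε) := by ring
        _ ≤ x ^ ε * x ^ (1 - ε) := by gcongr
        _ = x := by rw [← Real.rpow_add hx0]; simp
    have h4 : (c + 2 + needs) * (2 ^ h * x ^ (1 - ε)) + h * ((2 ^ h * 3) * x ^ (1 - ε)) =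
        Cst * x ^ (1 - ε) := by rw [hCst]; ring
    linarith
  -- apply the core theorem
  have hPop' : ∀ (k : ℕ) (f : Fin k → Fm), Fm.or k f ∈ subs π →
      ((Finset.univ.image f).filter (fun z => z ∉ hPfin.toFinset)).card ≤ t := by
    intro k f hf
    have h1 := hPop k f hf
    have h2 : (Set.range f \ P) =
        (((Finset.univ.image f).filter (fun z => z ∉ hPfin.toFinset) : Finset Fm) : Set Fm) := by
      ext z
      simp
    rw [h2, Set.ncard_coe_finset] at h1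
    exact h1
  refine core H (fun C hC => (hF n).1 C hC |>.1) hR hπ hPfin.toFinset (T := Tf x τ) (b := s)
    (Cs := Cs) (κ := fun j _ => K0 ^ d * prodT (Tf x τ) (j - 1))
    (K0 := K0) (d := d) (h := h) (t := t) (M := numOr π) (wf := wf)
    (le_max_right _ _) (le_max_left _ _) hT1 (fun A hA => (hdep A hA).1)
    (fun A hA => (hdep A hA).2) hPop' (le_refl _)
    (fun j _ => Nat.mul_pos hK0dpos (prodT_pos hT1 _)) (fun _ _ => le_refl _)
    (fun _ _ => Or.inl (le_refl _)) ?_ ?_ ?_ ?_ ?_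
  · intro j _ _
    rw [Finset.sum_const, smul_eq_mul, hCsdef]
    apply Nat.mul_le_mul_right
    refine (Finset.card_filter_le _ _).trans ?_
    rw [hNdef, Set.ncard_eq_toFinset_card P hPfin]
  · intro j _ _ hCj
    apply exp_budget (y := x ^ ε) _ hCj _ (hT1 j)
    · refine hcon.trans_le ?_
      rw [← Real.exp_one_rpow]
      gcongr
      have := Real.exp_one_gt_d9
      linarith
    · exact Nat.le_ceil _
  · exact_mod_cast htotal
  · have h1 : prodT (Tf x τ) (h - 1) ≤ prodT (Tf x τ) h := prodT_mono hT1 (Nat.sub_le _ _)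
    have h2 : K0 ^ d * prodT (Tf x τ) (h - 1) ≤ K0 ^ d * prodT (Tf x τ) h :=
      Nat.mul_le_mul_left _ h1
    have h3 : 1 ≤ K0 ^ d * prodT (Tf x τ) h :=
      Nat.mul_pos hK0dpos (prodT_pos hT1 h)
    rw [hwf]
    nlinarith
  · intro r hr
    rw [hwf]
    apply Nat.mul_le_mul_right
    have : r.need p ≤ needs := by
      rw [hneeds]
      exact List.single_le_sum (by simp) _ (List.mem_map.2 ⟨r, hr, rfl⟩)
    omega

end Pool.Agent.Helper21.AC0p
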