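import Mathlib

/-!
Degree filtrations on function rings and the closure polynomial calculus in degree w.
-/

namespace Pool.Agent.Helper21.AC0p

open scoped BigOperators Classical

/-- A multiplicative filtration of the ring of functions `X → K`. -/
structure Filt (X K : Type) [Field K] where
  LD : ℕ → Submodule K (X → K)
  mono : Monotone LD
  one_mem : (1 : X → K) ∈ LD 0
  mul_mem : ∀ {a b : ℕ} {f g : X → K}, f ∈ LD a → g ∈ LD b → f * g ∈ LD (a + b)

variable {X K : Type} [Field K] (𝔉 : Filt X K)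

namespace Filt

theorem const_mem (c : K) (a : ℕ) : (fun _ => c : X → K) ∈ 𝔉.LD a := by
  have h : (fun _ => c : X → K) = c • (1 : X → K) := by
    funext x; simp
  rw [h]
  exact 𝔉.mono (Nat.zero_le a) ((𝔉.LD 0).smul_mem c 𝔉.one_mem)

theorem one_mem' (a : ℕ) : (1 : X → K) ∈ 𝔉.LD a := 𝔉.mono (Nat.zero_le a) 𝔉.one_mem

theorem prod_mem {ι : Type*} (s : Finset ι) (g : ι → X → K) (D : ℕ)
    (h : ∀ i ∈ s, g i ∈ 𝔉.LD D) : (∏ i ∈ s, g i) ∈ 𝔉.LD (s.card * D) := by
  classical
  induction s using Finset.induction_on with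
  | empty => simpa using 𝔉.one_mem
  | insert a s ha ih =>
    rw [Finset.prod_insert ha, Finset.card_insert_of_notMem ha]
    have h1 := h a (Finset.mem_insert_self a s)
    have h2 := ih (fun i hi => h i (Finset.mem_insert_of_mem hi))
    have := 𝔉.mul_mem h1 h2
    convert this using 2
    ring

theorem pow_mem {f : X → K} {D : ℕ} (h : f ∈ 𝔉.LD D) (n : ℕ) : f ^ n ∈ 𝔉.LD (n * D) := by
  induction n with
  | zero => simpa using 𝔉.one_mem
  | succ n ih =>
    rw [pow_succ]
    have := 𝔉.mul_mem ih h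
    convert this using 2
    ring

theorem sum_mem {ι : Type*} (s : Finset ι) (g : ι → X → K) (D : ℕ)
    (h : ∀ i ∈ s, g i ∈ 𝔉.LD D) : (∑ i ∈ s, g i) ∈ 𝔉.LD D :=
  Submodule.sum_mem _ h

end Filt

/-- Polynomial calculus in degree `w` over the filtration `𝔉` with axioms `Ax`. -/
inductive Der (Ax : Set (X → K)) (w : ℕ) : (X → K) → Prop
  | ax {f : X → K} : f ∈ Ax → f ∈ 𝔉.LD w → Der Ax w f
  | zero : Der Ax w 0
  | add {f g : X → K} : Der Ax w f → Der Ax w g → Der Ax w (f + g)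
  | mul {f g : X → K} {a b : ℕ} : Der Ax w f → f ∈ 𝔉.LD a → g ∈ 𝔉.LD b → a + b ≤ w →
      Der Ax w (f * g)

namespace Der

variable {𝔉} {Ax Ax' : Set (X → K)} {w w' : ℕ} {f g : X → K}

theorem mem_LD (h : Der 𝔉 Ax w f) : f ∈ 𝔉.LD w := by
  induction h with
  | ax _ h => exact h
  | zero => exact Submodule.zero_mem _
  | add _ _ h1 h2 => exact Submodule.add_mem _ h1 h2
  | mul _ ha hb hab _ => exact 𝔉.mono hab (𝔉.mul_mem ha hb)

theorem mono (hA : Ax ⊆ Ax') (hw : w ≤ w') (h : Der 𝔉 Ax w f) : Der 𝔉 Ax' w' f := by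
  induction h with
  | ax h1 h2 => exact Der.ax (hA h1) (𝔉.mono hw h2)
  | zero => exact Der.zero
  | add _ _ h1 h2 => exact Der.add h1 h2
  | mul _ ha hb hab ih => exact Der.mul ih ha hb (hab.trans hw)

theorem mul_right {a b : ℕ} (h : Der 𝔉 Ax w f) (ha : f ∈ 𝔉.LD a) (hb : g ∈ 𝔉.LD b)
    (hab : a + b ≤ w) : Der 𝔉 Ax w (f * g) := Der.mul h ha hb hab

theorem mul_left {a b : ℕ} (h : Der 𝔉 Ax w f) (ha : f ∈ 𝔉.LD a) (hb : g ∈ 𝔉.LD b)
    (hab : a + b ≤ w) : Der 𝔉 Ax w (g * f) := by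
  rw [mul_comm]; exact Der.mul h ha hb hab

theorem smul (c : K) (h : Der 𝔉 Ax w f) : Der 𝔉 Ax w (c • f) := by
  have h1 : c • f = f * (fun _ => c) := by funext x; simp [mul_comm]
  rw [h1]
  exact Der.mul h h.mem_LD (𝔉.const_mem c 0) (by simp)

theorem neg (h : Der 𝔉 Ax w f) : Der 𝔉 Ax w (-f) := by
  have := h.smul (-1)
  simpa using this

theorem sub (hf : Der 𝔉 Ax w f) (hg : Der 𝔉 Ax w g) : Der 𝔉 Ax w (f - g) := by
  rw [sub_eq_add_neg]; exact Der.add hf hg.neg

theorem sum {ι : Type*} (s : Finset ι) (F : ι → X → K) (h : ∀ i ∈ s, Der 𝔉 Ax w (F i)) :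
    Der 𝔉 Ax w (∑ i ∈ s, F i) := by
  classical
  induction s using Finset.induction_on with
  | empty => simpa using Der.zero
  | insert a s ha ih =>
    rw [Finset.sum_insert ha]
    exact Der.add (h a (Finset.mem_insert_self a s))
      (ih (fun i hi => h i (Finset.mem_insert_of_mem hi)))

/-- An axiom that is derivable can be dropped. -/
theorem cut (hg : Der 𝔉 Ax w g) (h : Der 𝔉 (insert g Ax) w f) : Der 𝔉 Ax w f := by
  induction h with
  | ax h1 h2 =>
    rcases h1 with h1 | h1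
    · rw [h1]; exact hg
    · exact Der.ax h1 h2
  | zero => exact Der.zero
  | add _ _ h1 h2 => exact Der.add h1 h2
  | mul _ ha hb hab ih => exact Der.mul ih ha hb hab

/-- Weakening by an idempotent factor: a derivation from `Ax` and `g - 1` gives, after
multiplication by `g`, a derivation from `Ax`. -/
theorem branch {D : ℕ} (hg : g * g = g) (hgD : g ∈ 𝔉.LD D) (hw : w' + D ≤ w)
    (h : Der 𝔉 (insert (g - 1) Ax) w' f) : Der 𝔉 Ax w (g * f) := by
  induction h with
  | ax h1 h2 =>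
    rcases h1 with h1 | h1
    · rw [h1]
      have : g * (g - 1) = 0 := by rw [mul_sub, hg, mul_one, sub_self]
      rw [this]; exact Der.zero
    · exact Der.mul_left (Der.ax h1 (𝔉.mono (by omega) h2)) h2 hgD hw
  | zero => rw [mul_zero]; exact Der.zero
  | add _ _ h1 h2 => rw [mul_add]; exact Der.add h1 h2
  | @mul f' g' a b hd ha hb hab ih =>
    have h1 : g * (f' * g') = (g * f') * g' := by ring
    rw [h1]
    exact Der.mul ih (𝔉.mul_mem hgD ha) hb (by omega)

/-- The adversary lemma: an idempotent `g` of degree `D` can be set to `0` for free or to `1`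
at cost `D`. -/
theorem adversary {D : ℕ} (hg : g * g = g) (hgD : g ∈ 𝔉.LD D) (hw : w' + D ≤ w)
    (h : ¬ Der 𝔉 Ax w 1) :
    ¬ Der 𝔉 (insert g Ax) w 1 ∨ ¬ Der 𝔉 (insert (g - 1) Ax) w' 1 := by
  by_contra hcon
  push Not at hcon
  obtain ⟨h0, h1⟩ := hcon
  apply h
  have := branch hg hgD hw h1
  rw [mul_one] at this
  exact cut this h0

end Der

end Pool.Agent.Helper21.AC0p
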