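import Pool.Agent.Helper21.AC0p.Override

/-!
The adversary argument: setting popular disjuncts so that all wide disjunctions become
true or have few live popular disjuncts.
-/

namespace Pool.Agent.Helper21.AC0p

open scoped BigOperators Classical

variable {X K : Type} [Field K] (𝔉 : Filt X K) (p : ℕ) (v : X → ℕ → Bool)

/-- The invariant of the adversary argument. `Cl` is the set of initial lines. -/
structure Inv (Cl : Set Fm) (w0 : ℕ) (E : Fm → Option Bool) (Ax : Set (X → K)) (w : ℕ) :
    Prop where
  cons : ¬ Der 𝔉 Ax w 1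
  asg : ∀ A b, E A = some b → Der 𝔉 Ax w0 (rf K p v E A - ind K (fun _ => b))
  cl : ∀ C ∈ Cl, Der 𝔉 Ax w0 (ind K (fun _ => true) - qf K p v E C)

variable {𝔉 p v}

theorem Inv.mono {Cl : Set Fm} {w0 : ℕ} {E : Fm → Option Bool} {Ax : Set (X → K)} {w w' : ℕ}
    (h : Inv 𝔉 p v Cl w0 E Ax w) (hw : w' ≤ w) : Inv 𝔉 p v Cl w0 E Ax w' :=
  ⟨fun hd => h.cons (Der.mono (le_refl _) hw hd), h.asg, h.cl⟩

theorem Inv.step_aux {Cl : Set Fm} {w0 : ℕ} {E : Fm → Option Bool} {Ax : Set (X → K)} {w : ℕ}
    {D D0 : ℕ} (h : Inv 𝔉 p v Cl w0 E Ax w) {z : Fm} (hz : E z = none)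
    (hzD : rf K p v E z ∈ 𝔉.LD D) (hDD : D + D0 ≤ w0) {b : Bool} {w' : ℕ}
    (hdeg : ∀ A, (A = z ∨ ∃ b, E A = some b) →
      rf K p v E A ∈ 𝔉.LD D0 ∧ rf K p v (Function.update E z (some b)) A ∈ 𝔉.LD D0)
    (hcl : ∀ C ∈ Cl,
      qf K p v E C ∈ 𝔉.LD D0 ∧ qf K p v (Function.update E z (some b)) C ∈ 𝔉.LD D0)
    (hcons : ¬ Der 𝔉 (insert (rf K p v E z - ind K (fun _ => b)) Ax) w' 1) :
    Inv 𝔉 p v Cl w0 (Function.update E z (some b))
      (insert (rf K p v E z - ind K (fun _ => b)) Ax) w' := by
  have hconst : ind K (fun _ : X => b) ∈ 𝔉.LD D := 𝔉.const_mem _ _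
  have hax : Der 𝔉 (insert (rf K p v E z - ind K (fun _ => b)) Ax) w0
      (rf K p v E z - ind K (fun _ => b)) :=
    Der.ax (Set.mem_insert _ _)
      (𝔉.mono (by omega) (Submodule.sub_mem _ hzD hconst))
  have hmono : ∀ {f : X → K}, Der 𝔉 Ax w0 f →
      Der 𝔉 (insert (rf K p v E z - ind K (fun _ => b)) Ax) w0 f :=
    fun hf => Der.mono (Set.subset_insert _ _) (le_refl _) hf
  have hdiff : ∀ A, (A = z ∨ ∃ b, E A = some b) →
      Der 𝔉 (insert (rf K p v E z - ind K (fun _ => b)) Ax) w0
        (rf K p v (Function.update E z (some b)) A - rf K p v E A) := by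
    intro A hA
    exact diff_der (b := b) (b0 := fun x => rv p E (v x) z)
      (fun x hx => rv_update hz hx A) hax hzD (hdeg A hA).2 (hdeg A hA).1 hDD
  refine ⟨hcons, ?_, ?_⟩
  · intro A c hA
    by_cases hAz : A = z
    · subst hAz
      rw [Function.update_self] at hA
      have hcb : b = c := by simpa using hA
      subst hcb
      have := Der.add (hdiff A (Or.inl rfl)) hax
      simpa using this
    · rw [Function.update_of_ne hAz] at hA
      have := Der.add (hdiff A (Or.inr ⟨c, hA⟩)) (hmono (h.asg A c hA))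
      simpa using this
  · intro C hC
    have h1 : Der 𝔉 (insert (rf K p v E z - ind K (fun _ => b)) Ax) w0
        (qf K p v E C - qf K p v (Function.update E z (some b)) C) :=
      diff_der (b := b) (b0 := fun x => rv p E (v x) z)
        (fun x hx => (ev_update hz hx C).symm) hax hzD (hcl C hC).1 (hcl C hC).2 hDD
    have := Der.add (hmono (h.cl C hC)) h1
    simpa using this

/-- One step of the adversary. -/
theorem Inv.step {Cl : Set Fm} {w0 : ℕ} {E : Fm → Option Bool} {Ax : Set (X → K)} {w w' : ℕ}
    {D D0 : ℕ} (h : Inv 𝔉 p v Cl w0 E Ax w) {z : Fm} (hz : E z = none)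
    (hzD : rf K p v E z ∈ 𝔉.LD D) (hDD : D + D0 ≤ w0)
    (hdeg : ∀ b A, (A = z ∨ ∃ b, E A = some b) →
      rf K p v E A ∈ 𝔉.LD D0 ∧ rf K p v (Function.update E z (some b)) A ∈ 𝔉.LD D0)
    (hcl : ∀ b, ∀ C ∈ Cl,
      qf K p v E C ∈ 𝔉.LD D0 ∧ qf K p v (Function.update E z (some b)) C ∈ 𝔉.LD D0)
    (hw' : w' + D ≤ w) :
    (∃ Ax', Inv 𝔉 p v Cl w0 (Function.update E z (some false)) Ax' w) ∨
    (∃ Ax', Inv 𝔉 p v Cl w0 (Function.update E z (some true)) Ax' w') := by
  rcases Der.adversary (ind_sq _) hzD hw' h.cons with h0 | h1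
  · left
    refine ⟨_, h.step_aux hz hzD hDD (b := false) (hdeg false) (hcl false) ?_⟩
    have : ind K (fun _ : X => false) = 0 := by funext x; simp [ind]
    rw [this, sub_zero]
    exact h0
  · right
    refine ⟨_, h.step_aux hz hzD hDD (b := true) (hdeg true) (hcl true) ?_⟩
    have : ind K (fun _ : X => true) = 1 := by funext x; simp [ind]
    rw [this]
    exact h1

/-- The gates that are neither killed nor thin. -/
noncomputable def badGates {ι : Type} (G : Finset ι) (pc : ι → Finset Fm) (T : ℕ)
    (E : Fm → Option Bool) : Finset ι :=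
  G.filter (fun g => (¬ ∃ z ∈ pc g, E z = some true) ∧
    T < ((pc g).filter (fun z => E z = none)).card)

theorem badGates_update_subset {ι : Type} {G : Finset ι} {pc : ι → Finset Fm} {T : ℕ}
    {E : Fm → Option Bool} {z : Fm} (hz : E z = none) (b : Bool) :
    badGates G pc T (Function.update E z (some b)) ⊆ badGates G pc T E := by
  intro g hg
  simp only [badGates, Finset.mem_filter] at hg ⊢
  obtain ⟨hgG, hnk, hlt⟩ := hg
  refine ⟨hgG, ?_, lt_of_lt_of_le hlt (Finset.card_le_card ?_)⟩
  · rintro ⟨y, hy, hyE⟩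
    apply hnk
    refine ⟨y, hy, ?_⟩
    have hne : y ≠ z := by
      rintro rfl
      rw [hz] at hyE
      exact absurd hyE (by simp)
    rw [Function.update_of_ne hne]
    exact hyE
  · intro y hy
    simp only [Finset.mem_filter] at hy ⊢
    refine ⟨hy.1, ?_⟩
    by_cases hyz : y = z
    · subst hyz; exact hz
    · have := hy.2
      rwa [Function.update_of_ne hyz] at this

theorem badGates_update_true {ι : Type} {G : Finset ι} {pc : ι → Finset Fm} {T : ℕ}
    {E : Fm → Option Bool} {z : Fm} (hz : E z = none) :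
    badGates G pc T (Function.update E z (some true)) ⊆
      (badGates G pc T E).filter (fun g => z ∉ pc g) := by
  intro g hg
  rw [Finset.mem_filter]
  refine ⟨badGates_update_subset hz true hg, ?_⟩
  intro hzg
  simp only [badGates, Finset.mem_filter] at hg
  exact hg.2.1 ⟨z, hzg, by simp⟩

/-- A live disjunct that is popular in proportion to its cost. -/
theorem exists_popular {ι : Type} {G : Finset ι} {pc : ι → Finset Fm} {T : ℕ}
    {E : Fm → Option Bool} {𝒜 : Finset Fm} (hpc : ∀ g ∈ G, pc g ⊆ 𝒜) (κ : Fm → ℕ) {C : ℕ}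
    (hC : ∑ z ∈ 𝒜, κ z ≤ C) (hne : (badGates G pc T E).Nonempty) :
    ∃ z ∈ 𝒜, E z = none ∧
      (badGates G pc T E).card * T * κ z ≤
        ((badGates G pc T E).filter (fun g => z ∈ pc g)).card * C := by
  by_contra hcon
  push Not at hcon
  set Bd := badGates G pc T E with hBd
  set U := 𝒜.filter (fun z => E z = none) with hU
  have h1 : ∑ z ∈ U, (Bd.filter (fun g => z ∈ pc g)).card =
      ∑ g ∈ Bd, ((pc g).filter (fun z => E z = none)).card := by
    have : ∀ z ∈ U, (Bd.filter (fun g => z ∈ pc g)).card = ∑ g ∈ Bd, if z ∈ pc g then 1 else 0 := by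
      intro z _
      rw [Finset.card_filter]
    rw [Finset.sum_congr rfl this, Finset.sum_comm]
    refine Finset.sum_congr rfl (fun g hg => ?_)
    rw [← Finset.card_filter]
    congr 1
    ext z
    simp only [hU, Finset.mem_filter]
    constructor
    · rintro ⟨⟨_, h2⟩, h3⟩; exact ⟨h3, h2⟩
    · rintro ⟨h3, h2⟩
      refine ⟨⟨hpc g ?_ h3, h2⟩, h3⟩
      simp only [hBd, badGates, Finset.mem_filter] at hg
      exact hg.1
  have h2 : Bd.card * T < ∑ g ∈ Bd, ((pc g).filter (fun z => E z = none)).card := by
    have : ∑ g ∈ Bd, T < ∑ g ∈ Bd, ((pc g).filter (fun z => E z = none)).card := by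
      apply Finset.sum_lt_sum_of_nonempty hne
      intro g hg
      simp only [hBd, badGates, Finset.mem_filter] at hg
      exact hg.2.2
    simpa using this
  have h3 : (∑ z ∈ U, (Bd.filter (fun g => z ∈ pc g)).card) * C ≤
      (∑ z ∈ U, κ z) * (Bd.card * T) := by
    rw [Finset.sum_mul, Finset.sum_mul]
    refine Finset.sum_le_sum (fun z hz => ?_)
    simp only [hU, Finset.mem_filter] at hz
    have := (hcon z hz.1 hz.2).le
    calc (Bd.filter (fun g => z ∈ pc g)).card * C ≤ Bd.card * T * κ z := this
      _ = κ z * (Bd.card * T) := by ring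
  have h4 : ∑ z ∈ U, κ z ≤ C :=
    (Finset.sum_le_sum_of_subset (Finset.filter_subset _ _)).trans hC
  have h5 : 0 < C := by
    rcases Nat.eq_zero_or_pos C with h | h
    · exfalso
      rcases Finset.eq_empty_or_nonempty U with hU0 | ⟨z, hz⟩
      · rw [← h1, hU0] at h2
        simp at h2
      · have hz' := hz
        simp only [hU, Finset.mem_filter] at hz'
        have := hcon z hz'.1 hz'.2
        have hκ : κ z = 0 := by
          have := Finset.single_le_sum (f := κ) (fun _ _ => Nat.zero_le _) hz
          omega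
        rw [hκ, h] at this
        simp at this
    · exact h
  rw [h1] at h3
  have h6 : Bd.card * T * C < (∑ g ∈ Bd, ((pc g).filter (fun z => E z = none)).card) *
      C := Nat.mul_lt_mul_of_pos_right h2 h5
  have h7 : (∑ z ∈ U, κ z) * (Bd.card * T) ≤ C * (Bd.card * T) := Nat.mul_le_mul_right _ h4
  nlinarith

/-- The killing lemma. -/
theorem kill {ι : Type} {G : Finset ι} {pc : ι → Finset Fm} {T C D D0 w0 wf : ℕ}
    {𝒜 : Finset Fm} {Cl : Set Fm} (hpc : ∀ g ∈ G, pc g ⊆ 𝒜) (κ : Fm → ℕ)
    (hC : ∑ z ∈ 𝒜, κ z ≤ C) (hκ : ∀ z ∈ 𝒜, κ z ≤ D)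
    (P : (Fm → Option Bool) → Prop)
    (hPstep : ∀ E z b, P E → z ∈ 𝒜 → E z = none → P (Function.update E z (some b)))
    (hPdeg : ∀ E, P E → ∀ A, (A ∈ 𝒜 ∨ ∃ b, E A = some b) → rf K p v E A ∈ 𝔉.LD D0)
    (hPD : ∀ E, P E → ∀ z ∈ 𝒜, rf K p v E z ∈ 𝔉.LD (κ z))
    (hPcl : ∀ E, P E → ∀ C ∈ Cl, qf K p v E C ∈ 𝔉.LD D0)
    (hDD : D + D0 ≤ w0) (n : ℕ) :
    ∀ (E : Fm → Option Bool) (Ax : Set (X → K)) (w b : ℕ),
      (𝒜.filter (fun z => E z = none)).card ≤ n →
      P E → Inv 𝔉 p v Cl w0 E Ax w →
      ((badGates G pc T E).card : ℝ) * Real.exp (-(b * T / C)) < 1 →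
      wf + b + D ≤ w →
      ∃ E' Ax', P E' ∧ Inv 𝔉 p v Cl w0 E' Ax' wf ∧ badGates G pc T E' = ∅ := by
  induction n with
  | zero =>
    intro E Ax w s hn hP hInv hs hw
    refine ⟨E, Ax, hP, hInv.mono (by omega), ?_⟩
    by_contra hne
    obtain ⟨z, hz, hzE, _⟩ := exists_popular hpc κ hC (Finset.nonempty_iff_ne_empty.2 hne)
    have : z ∈ 𝒜.filter (fun z => E z = none) := Finset.mem_filter.2 ⟨hz, hzE⟩
    have := Finset.card_pos.2 ⟨z, this⟩
    omega
  | succ n ih =>
    intro E Ax w b hn hP hInv hs hw
    by_cases hne : badGates G pc T E = ∅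
    · exact ⟨E, Ax, hP, hInv.mono (by omega), hne⟩
    have hne' := Finset.nonempty_iff_ne_empty.2 hne
    obtain ⟨z, hz, hzE, hpop⟩ := exists_popular hpc κ hC hne'
    have hcard : ∀ b, (𝒜.filter (fun y => (Function.update E z (some b)) y = none)).card ≤ n := by
      intro b
      have hlt : (𝒜.filter (fun y => (Function.update E z (some b)) y = none)).card <
          (𝒜.filter (fun y => E y = none)).card := by
        apply Finset.card_lt_card
        refine ⟨?_, ?_⟩
        · intro y hy
          simp only [Finset.mem_filter] at hy ⊢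
          refine ⟨hy.1, ?_⟩
          by_cases hyz : y = z
          · subst hyz; exact hzE
          · have := hy.2
            rwa [Function.update_of_ne hyz] at this
        · intro hsub
          have : z ∈ 𝒜.filter (fun y => (Function.update E z (some b)) y = none) :=
            hsub (Finset.mem_filter.2 ⟨hz, hzE⟩)
          simp at this
      omega
    have hκz := hκ z hz
    have hstep := hInv.step (D := κ z) (D0 := D0) (w' := w - κ z) hzE (hPD E hP z hz)
      (by omega)
      (fun b A hA => ⟨hPdeg E hP A (by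
          rcases hA with rfl | h
          · exact Or.inl hz
          · exact Or.inr h),
        hPdeg _ (hPstep E z b hP hz hzE) A (by
          rcases hA with rfl | ⟨c, h⟩
          · exact Or.inl hz
          · by_cases hAz : A = z
            · subst hAz; exact Or.inl hz
            · exact Or.inr ⟨c, by rw [Function.update_of_ne hAz]; exact h⟩)⟩)
      (fun b C hC => ⟨hPcl E hP C hC, hPcl _ (hPstep E z b hP hz hzE) C hC⟩)
      (by omega)
    rcases hstep with ⟨Ax', h0⟩ | ⟨Ax', h1⟩
    · refine ih _ Ax' w b (hcard false) (hPstep E z false hP hz hzE) h0 ?_ hw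
      have h2 : ((badGates G pc T (Function.update E z (some false))).card : ℝ) ≤
          (badGates G pc T E).card := by
        exact_mod_cast Finset.card_le_card (badGates_update_subset hzE false)
      calc _ ≤ ((badGates G pc T E).card : ℝ) * Real.exp (-(b * T / C)) :=
            mul_le_mul_of_nonneg_right h2 (Real.exp_pos _).le
        _ < 1 := hs
    · -- the number of bad gates drops
      have h2 : ((badGates G pc T (Function.update E z (some true))).card : ℝ) ≤
          (badGates G pc T E).card * Real.exp (-(κ z * T / C)) := by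
        have h3 := Finset.card_le_card (badGates_update_true (G := G) (pc := pc) (T := T) hzE)
        have h4 := Finset.card_filter_add_card_filter_not (s := badGates G pc T E)
          (p := fun g => z ∈ pc g)
        have h5 : ((badGates G pc T (Function.update E z (some true))).card : ℝ) +
            ((badGates G pc T E).filter (fun g => z ∈ pc g)).card ≤ (badGates G pc T E).card := by
          exact_mod_cast (by omega)
        have h6 : ((badGates G pc T E).card : ℝ) * T * κ z ≤
            ((badGates G pc T E).filter (fun g => z ∈ pc g)).card * C := by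
          exact_mod_cast hpop
        have h7 : ((badGates G pc T E).card : ℝ) * (κ z * T / C) ≤
            ((badGates G pc T E).filter (fun g => z ∈ pc g)).card := by
          rcases Nat.eq_zero_or_pos C with hC0 | hC0
          · subst hC0; simp
          · have hC0' : (0 : ℝ) < C := by exact_mod_cast hC0
            rw [mul_div_assoc', div_le_iff₀ hC0']
            linarith
        have h8 : 1 - (κ z * T / C : ℝ) ≤ Real.exp (-(κ z * T / C)) := by
          have := Real.add_one_le_exp (-(κ z * T / C : ℝ))
          linarith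
        calc ((badGates G pc T (Function.update E z (some true))).card : ℝ)
            ≤ (badGates G pc T E).card * (1 - (κ z * T / C : ℝ)) := by linarith
          _ ≤ (badGates G pc T E).card * Real.exp (-(κ z * T / C)) :=
            mul_le_mul_of_nonneg_left h8 (by positivity)
      by_cases hb : κ z ≤ b
      · refine ih _ Ax' (w - κ z) (b - κ z) (hcard true) (hPstep E z true hP hz hzE) h1 ?_
          (by omega)
        calc _ ≤ ((badGates G pc T E).card * Real.exp (-(κ z * T / C))) *
                Real.exp (-((b - κ z : ℕ) * T / C)) :=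
              mul_le_mul_of_nonneg_right h2 (Real.exp_pos _).le
          _ = ((badGates G pc T E).card : ℝ) * Real.exp (-(b * T / C)) := by
              rw [mul_assoc, ← Real.exp_add, Nat.cast_sub hb]
              congr 2
              ring
          _ < 1 := hs
      · refine ⟨_, Ax', hPstep E z true hP hz hzE, h1.mono (by omega), ?_⟩
        rw [← Finset.card_eq_zero]
        have h9 : ((badGates G pc T (Function.update E z (some true))).card : ℝ) < 1 := by
          refine lt_of_le_of_lt (h2.trans ?_) hs
          apply mul_le_mul_of_nonneg_left _ (by positivity)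
          apply Real.exp_le_exp.2
          apply neg_le_neg
          have : (b : ℝ) ≤ κ z := by exact_mod_cast (by omega : b ≤ κ z)
          gcongr
        have h10 : (badGates G pc T (Function.update E z (some true))).card < 1 := by
          exact_mod_cast h9
        omega

end Pool.Agent.Helper21.AC0p
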