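import Pool.Agent.Helper21.AC0p.Filt

/-!
Polynomial calculus degree lower bound for sparse linear systems over `ZMod q` with good
expansion, over fields containing a primitive `q`-th root of unity.
-/

namespace Pool.Agent.Helper21.AC0p

open scoped BigOperators Classical

section Char

variable {q n : ℕ} [hq : Fact q.Prime] {K : Type} [Field K]

theorem addChar_sum {ι : Type} (ψ : AddChar (ZMod q) K) (s : Finset ι) (g : ι → ZMod q) :
    ψ (∑ i ∈ s, g i) = ∏ i ∈ s, ψ (g i) := by
  induction s using Finset.induction_on with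
  | empty => simp
  | insert a s ha ih => rw [Finset.sum_insert ha, Finset.prod_insert ha,
      AddChar.map_add_eq_mul, ih]

/-- The character of `ZMod q ^ n` given by the vector `a`. -/
noncomputable def chr (ψ : AddChar (ZMod q) K) (a : Fin n → ZMod q) (x : Fin n → ZMod q) : K :=
  ψ (∑ i, a i * x i)

theorem chr_add (ψ : AddChar (ZMod q) K) (a b : Fin n → ZMod q) :
    chr ψ (a + b) = chr ψ a * chr ψ b := by
  funext x
  simp only [chr, Pi.add_apply, Pi.mul_apply, add_mul, Finset.sum_add_distrib,
    AddChar.map_add_eq_mul]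

theorem chr_zero (ψ : AddChar (ZMod q) K) : chr ψ (0 : Fin n → ZMod q) = 1 := by
  funext x
  simp [chr]

theorem hamming_add_le (a b : Fin n → ZMod q) :
    hammingNorm (a + b) ≤ hammingNorm a + hammingNorm b := by
  unfold hammingNorm
  refine le_trans (Finset.card_le_card ?_) (Finset.card_union_le _ _)
  intro i hi
  simp only [Finset.mem_filter, Finset.mem_univ, true_and, Finset.mem_union, Pi.add_apply] at hi ⊢
  by_contra hcon
  push Not at hcon
  rw [hcon.1, hcon.2] at hi
  simp at hi

theorem hamming_neg (a : Fin n → ZMod q) : hammingNorm (-a) = hammingNorm a := by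
  unfold hammingNorm
  congr 1
  ext i
  simp

theorem hamming_sub_le (a b : Fin n → ZMod q) :
    hammingNorm (a - b) ≤ hammingNorm a + hammingNorm b := by
  rw [sub_eq_add_neg]
  refine le_trans (hamming_add_le _ _) ?_
  rw [hamming_neg]

/-- The filtration of the functions on `ZMod q ^ n` by character weight. -/
noncomputable def chrFilt (ψ : AddChar (ZMod q) K) (n : ℕ) : Filt (Fin n → ZMod q) K where
  LD k := Submodule.span K {f | ∃ a : Fin n → ZMod q, hammingNorm a ≤ k ∧ f = chr ψ a}
  mono := by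
    intro k l hkl
    apply Submodule.span_mono
    rintro f ⟨a, ha, rfl⟩
    exact ⟨a, ha.trans hkl, rfl⟩
  one_mem := by
    apply Submodule.subset_span
    exact ⟨0, by simp, (chr_zero ψ).symm⟩
  mul_mem := by
    intro a b f g hf hg
    have h := Submodule.mul_mem_mul hf hg
    rw [Submodule.span_mul_span] at h
    refine Submodule.span_mono ?_ h
    rintro _ ⟨_, ⟨c, hc, rfl⟩, _, ⟨d, hd, rfl⟩, rfl⟩
    refine ⟨c + d, ?_, (chr_add ψ c d).symm⟩
    exact (hamming_add_le c d).trans (add_le_add hc hd)

theorem chr_mem (ψ : AddChar (ZMod q) K) {a : Fin n → ZMod q} {k : ℕ} (h : hammingNorm a ≤ k) :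
    chr ψ a ∈ (chrFilt ψ n).LD k := Submodule.subset_span ⟨a, h, rfl⟩

theorem sum_chr (ψ : AddChar (ZMod q) K) (hψ : ψ.IsPrimitive) (a : Fin n → ZMod q) :
    ∑ x, chr ψ a x = if a = 0 then (q : K) ^ n else 0 := by
  have h1 : ∑ x, chr ψ a x = ∏ i, ∑ t : ZMod q, ψ (a i * t) := by
    rw [Finset.prod_univ_sum]
    simp only [Fintype.piFinset_univ]
    refine Finset.sum_congr rfl (fun x _ => ?_)
    simp only [chr]
    exact addChar_sum _ _ _
  have h2 : ∀ i, ∑ t : ZMod q, ψ (a i * t) = if a i = 0 then (q : K) else 0 := by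
    intro i
    have := AddChar.sum_mulShift (a i) hψ
    simp only [ZMod.card, Nat.cast_ite, Nat.cast_zero] at this
    rw [← this]
    refine Finset.sum_congr rfl (fun t _ => ?_)
    rw [mul_comm]
  rw [h1, Finset.prod_congr rfl (fun i _ => h2 i)]
  by_cases ha : a = 0
  · subst ha
    simp
  · rw [if_neg ha]
    have : ∃ i, a i ≠ 0 := by
      by_contra hcon
      push Not at hcon
      exact ha (funext hcon)
    obtain ⟨i, hi⟩ := this
    exact Finset.prod_eq_zero (Finset.mem_univ i) (by simp [hi])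

/-- Fourier coefficient (not normalised). -/
noncomputable def hat (ψ : AddChar (ZMod q) K) (a : Fin n → ZMod q) (f : (Fin n → ZMod q) → K) :
    K := ∑ x, f x * chr ψ (-a) x

theorem hat_add (ψ : AddChar (ZMod q) K) (a : Fin n → ZMod q) (f g : (Fin n → ZMod q) → K) :
    hat ψ a (f + g) = hat ψ a f + hat ψ a g := by
  simp [hat, add_mul, Finset.sum_add_distrib]

theorem hat_smul (ψ : AddChar (ZMod q) K) (a : Fin n → ZMod q) (c : K)
    (f : (Fin n → ZMod q) → K) : hat ψ a (c • f) = c * hat ψ a f := by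
  simp [hat, Finset.mul_sum, mul_assoc]

theorem hat_zero (ψ : AddChar (ZMod q) K) (a : Fin n → ZMod q) : hat ψ a 0 = 0 := by
  simp [hat]

theorem hat_chr (ψ : AddChar (ZMod q) K) (hψ : ψ.IsPrimitive) (a b : Fin n → ZMod q) :
    hat ψ a (chr ψ b) = if a = b then (q : K) ^ n else 0 := by
  have h : hat ψ a (chr ψ b) = ∑ x, chr ψ (b - a) x := by
    unfold hat
    refine Finset.sum_congr rfl (fun x _ => ?_)
    rw [sub_eq_add_neg, chr_add]; rfl
  rw [h, sum_chr ψ hψ]
  by_cases hab : a = b
  · subst hab; simp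
  · rw [if_neg hab, if_neg]
    intro h0
    exact hab (sub_eq_zero.1 h0).symm

theorem hat_mul_chr (ψ : AddChar (ZMod q) K) (a e : Fin n → ZMod q)
    (f : (Fin n → ZMod q) → K) : hat ψ a (f * chr ψ e) = hat ψ (a - e) f := by
  unfold hat
  refine Finset.sum_congr rfl (fun x _ => ?_)
  have : chr ψ (-(a - e)) = chr ψ e * chr ψ (-a) := by
    rw [← chr_add]; congr 1; abel
  rw [this]
  simp only [Pi.mul_apply]
  ring

theorem hat_of_mem (ψ : AddChar (ZMod q) K) (hψ : ψ.IsPrimitive) {k : ℕ}
    {f : (Fin n → ZMod q) → K} (hf : f ∈ (chrFilt ψ n).LD k) {a : Fin n → ZMod q}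
    (ha : k < hammingNorm a) : hat ψ a f = 0 := by
  refine Submodule.span_induction (p := fun f _ => hat ψ a f = 0) ?_ ?_ ?_ ?_ hf
  · rintro _ ⟨b, hb, rfl⟩
    rw [hat_chr ψ hψ, if_neg]
    rintro rfl
    omega
  · exact hat_zero ψ a
  · intro f g _ _ h1 h2
    rw [hat_add, h1, h2, add_zero]
  · intro c f _ h
    rw [hat_smul, h, mul_zero]

/-- The indicator of `s = 0` through characters. -/
theorem sum_psi (ψ : AddChar (ZMod q) K) (hψ : ψ.IsPrimitive) (s : ZMod q) :
    ∑ j : ZMod q, ψ (j * s) = if s = 0 then (q : K) else 0 := by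
  have := AddChar.sum_mulShift s hψ
  simpa using this

/-- Functions of one coordinate have degree one. -/
theorem coord_mem (ψ : AddChar (ZMod q) K) (hψ : ψ.IsPrimitive) (hqK : (q : K) ≠ 0)
    (i : Fin n) (g : ZMod q → K) : (fun x => g (x i)) ∈ (chrFilt ψ n).LD 1 := by
  have h : (fun x : Fin n → ZMod q => g (x i)) =
      ∑ s : ZMod q, ∑ j : ZMod q, ((q : K)⁻¹ * g s * ψ (-(j * s))) • chr ψ (Pi.single i j) := by
    funext x
    simp only [Finset.sum_apply, Pi.smul_apply, smul_eq_mul]
    have h1 : ∀ j : ZMod q, chr ψ (Pi.single i j) x = ψ (j * x i) := by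
      intro j
      simp only [chr]
      congr 1
      rw [Finset.sum_eq_single i]
      · simp
      · intro k _ hk; simp [Pi.single_eq_of_ne hk]
      · intro h; exact absurd (Finset.mem_univ i) h
    have h2 : ∀ s : ZMod q, ∑ j : ZMod q, (q : K)⁻¹ * g s * ψ (-(j * s)) *
        chr ψ (Pi.single i j) x = (q : K)⁻¹ * g s * (if x i - s = 0 then (q : K) else 0) := by
      intro s
      rw [← sum_psi ψ hψ, Finset.mul_sum]
      refine Finset.sum_congr rfl (fun j _ => ?_)
      rw [h1, mul_assoc, ← AddChar.map_add_eq_mul]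
      congr 2
      ring
    rw [Finset.sum_congr rfl (fun s _ => h2 s), Finset.sum_eq_single (x i)]
    · simp only [sub_self, if_true]
      field_simp
    · intro s _ hs
      rw [if_neg (sub_ne_zero.2 (Ne.symm hs)), mul_zero]
    · intro h; exact absurd (Finset.mem_univ _) h
  rw [h]
  refine Submodule.sum_mem _ (fun s _ => Submodule.sum_mem _ (fun j _ =>
    Submodule.smul_mem _ _ (chr_mem ψ ?_)))
  unfold hammingNorm
  refine le_trans (Finset.card_le_card (t := {i}) ?_) (by simp)
  intro k hk
  simp only [Finset.mem_filter, Finset.mem_univ, true_and] at hk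
  rw [Finset.mem_singleton]
  by_contra hne
  exact hk (Pi.single_eq_of_ne hne _)

end Char

section System

variable {q n m : ℕ} [hq : Fact q.Prime] {K : Type} [Field K]

/-- Combination of the rows of the system. -/
def comb (M : Fin m → Fin n → ZMod q) (u : Fin m → ZMod q) : Fin n → ZMod q :=
  fun i => ∑ r, u r * M r i

theorem comb_add (M : Fin m → Fin n → ZMod q) (u u' : Fin m → ZMod q) :
    comb M (u + u') = comb M u + comb M u' := by
  funext i
  simp [comb, add_mul, Finset.sum_add_distrib]

theorem comb_single (M : Fin m → Fin n → ZMod q) (r : Fin m) (j : ZMod q) :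
    comb M (Pi.single r j) = j • M r := by
  funext i
  simp only [comb, Pi.smul_apply, smul_eq_mul]
  rw [Finset.sum_eq_single r]
  · simp
  · intro k _ hk; simp [Pi.single_eq_of_ne hk]
  · intro h; exact absurd (Finset.mem_univ r) h

/-- Scalar product with the right-hand side. -/
def dotb (b u : Fin m → ZMod q) : ZMod q := ∑ r, u r * b r

theorem dotb_add (b u u' : Fin m → ZMod q) : dotb b (u + u') = dotb b u + dotb b u' := by
  simp [dotb, add_mul, Finset.sum_add_distrib]

theorem dotb_single (b : Fin m → ZMod q) (r : Fin m) (j : ZMod q) :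
    dotb b (Pi.single r j) = j * b r := by
  simp only [dotb]
  rw [Finset.sum_eq_single r]
  · simp
  · intro k _ hk; simp [Pi.single_eq_of_ne hk]
  · intro h; exact absurd (Finset.mem_univ r) h

/-- The functionals defining the pseudo-solution. -/
noncomputable def Phi (ψ : AddChar (ZMod q) K) (M : Fin m → Fin n → ZMod q) (b : Fin m → ZMod q)
    (ρ w : ℕ) (c : Fin n → ZMod q) (f : (Fin n → ZMod q) → K) : K :=
  ∑ u : Fin m → ZMod q,
    if hammingNorm u ≤ ρ ∧ hammingNorm (c + comb M u) ≤ w then
      ψ (dotb b u) * hat ψ (c + comb M u) f else 0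

/-- The expansion hypothesis. -/
structure Expands (M : Fin m → Fin n → ZMod q) (ρ w : ℕ) : Prop where
  one_le : 1 ≤ ρ
  exp : ∀ u, hammingNorm u ≤ 2 * ρ → hammingNorm (comb M u) ≤ 2 * w → hammingNorm u ≤ ρ
  inj : ∀ u, hammingNorm u ≤ ρ → comb M u = 0 → u = 0

variable (ψ : AddChar (ZMod q) K) (M : Fin m → Fin n → ZMod q) (b : Fin m → ZMod q) (ρ w : ℕ)

/-- The functions that vanish in the pseudo-solution. -/
def Van (f : (Fin n → ZMod q) → K) : Prop :=
  ∀ c, hammingNorm c ≤ w → Phi ψ M b ρ w c f = 0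

variable {ψ M b ρ w}

theorem Phi_add (c : Fin n → ZMod q) (f g : (Fin n → ZMod q) → K) :
    Phi ψ M b ρ w c (f + g) = Phi ψ M b ρ w c f + Phi ψ M b ρ w c g := by
  unfold Phi
  rw [← Finset.sum_add_distrib]
  refine Finset.sum_congr rfl (fun u _ => ?_)
  split_ifs
  · rw [hat_add]; ring
  · simp

theorem Phi_smul (c : Fin n → ZMod q) (a : K) (f : (Fin n → ZMod q) → K) :
    Phi ψ M b ρ w c (a • f) = a * Phi ψ M b ρ w c f := by
  unfold Phi
  rw [Finset.mul_sum]
  refine Finset.sum_congr rfl (fun u _ => ?_)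
  split_ifs
  · rw [hat_smul]; ring
  · simp

theorem Phi_zero (c : Fin n → ZMod q) : Phi ψ M b ρ w c (0 : (Fin n → ZMod q) → K) = 0 := by
  unfold Phi
  refine Finset.sum_eq_zero (fun u _ => ?_)
  split_ifs
  · rw [hat_zero, mul_zero]
  · rfl

theorem Van.zero : Van ψ M b ρ w 0 := fun c _ => Phi_zero c

theorem Van.add {f g : (Fin n → ZMod q) → K} (hf : Van ψ M b ρ w f) (hg : Van ψ M b ρ w g) :
    Van ψ M b ρ w (f + g) := fun c hc => by rw [Phi_add, hf c hc, hg c hc, add_zero]

theorem Van.smul {f : (Fin n → ZMod q) → K} (a : K) (hf : Van ψ M b ρ w f) :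
    Van ψ M b ρ w (a • f) := fun c hc => by rw [Phi_smul, hf c hc, mul_zero]

theorem Van.mul_chr (hψ : ψ.IsPrimitive) (hE : Expands M ρ w) {f : (Fin n → ZMod q) → K}
    {a : ℕ} (hf : Van ψ M b ρ w f) (hfa : f ∈ (chrFilt ψ n).LD a) {e : Fin n → ZMod q}
    (hae : a + hammingNorm e ≤ w) : Van ψ M b ρ w (f * chr ψ e) := by
  intro c hc
  unfold Phi
  by_cases hex : ∃ u0 : Fin m → ZMod q, (hammingNorm u0 ≤ ρ ∧ hammingNorm (c + comb M u0) ≤ w) ∧
      hat ψ (c + comb M u0 - e) f ≠ 0
  · obtain ⟨u0, ⟨hu0, hcu0⟩, hne⟩ := hex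
    set c1 := c + comb M u0 - e with hc1
    have hc1a : hammingNorm c1 ≤ a := by
      by_contra hcon
      exact hne (hat_of_mem ψ hψ hfa (by omega))
    have key : ∀ u' : Fin m → ZMod q,
        (if hammingNorm (u0 + u') ≤ ρ ∧ hammingNorm (c + comb M (u0 + u')) ≤ w then
          ψ (dotb b (u0 + u')) * hat ψ (c + comb M (u0 + u')) (f * chr ψ e) else 0) =
        ψ (dotb b u0) * (if hammingNorm u' ≤ ρ ∧ hammingNorm (c1 + comb M u') ≤ w then
          ψ (dotb b u') * hat ψ (c1 + comb M u') f else 0) := by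
      intro u'
      have e1 : c + comb M (u0 + u') = c1 + comb M u' + e := by
        rw [comb_add, hc1]; abel
      have e2 : hat ψ (c + comb M (u0 + u')) (f * chr ψ e) = hat ψ (c1 + comb M u') f := by
        rw [hat_mul_chr, e1]; congr 1; abel
      by_cases hz : hat ψ (c1 + comb M u') f = 0
      · rw [e2, hz]; simp
      · have hlow : hammingNorm (c1 + comb M u') ≤ a := by
          by_contra hcon
          exact hz (hat_of_mem ψ hψ hfa (by omega))
        have hlow2 : hammingNorm (c + comb M (u0 + u')) ≤ w := by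
          rw [e1]
          exact (hamming_add_le _ _).trans (by omega)
        have hiff : hammingNorm (u0 + u') ≤ ρ ↔ hammingNorm u' ≤ ρ := by
          constructor
          · intro h
            apply hE.exp
            · have : u' = (u0 + u') - u0 := by abel
              rw [this]
              exact (hamming_sub_le _ _).trans (by omega)
            · have : comb M u' = (c1 + comb M u') - c1 := by abel
              rw [this]
              exact (hamming_sub_le _ _).trans (by omega)
          · intro h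
            apply hE.exp
            · exact (hamming_add_le _ _).trans (by omega)
            · have : comb M (u0 + u') = (c + comb M (u0 + u')) - c := by abel
              rw [this]
              exact (hamming_sub_le _ _).trans (by omega)
        by_cases hu' : hammingNorm u' ≤ ρ
        · rw [if_pos ⟨hiff.2 hu', hlow2⟩, if_pos ⟨hu', by omega⟩, e2, dotb_add,
            AddChar.map_add_eq_mul]
          ring
        · rw [if_neg (fun h => hu' (hiff.1 h.1)), if_neg (fun h => hu' h.1), mul_zero]
    rw [← Fintype.sum_equiv (Equiv.addLeft u0)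
      (fun u' => ψ (dotb b u0) * (if hammingNorm u' ≤ ρ ∧ hammingNorm (c1 + comb M u') ≤ w then
          ψ (dotb b u') * hat ψ (c1 + comb M u') f else 0)) _ (fun u' => (key u').symm),
      ← Finset.mul_sum]
    have := hf c1 (by omega)
    unfold Phi at this
    rw [this, mul_zero]
  · push Not at hex
    refine Finset.sum_eq_zero (fun u _ => ?_)
    split_ifs with h
    · rw [hat_mul_chr, hex u h, mul_zero]
    · rfl

theorem Van.mul (hψ : ψ.IsPrimitive) (hE : Expands M ρ w) {f g : (Fin n → ZMod q) → K}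
    {a a' : ℕ} (hf : Van ψ M b ρ w f) (hfa : f ∈ (chrFilt ψ n).LD a)
    (hg : g ∈ (chrFilt ψ n).LD a') (haa : a + a' ≤ w) : Van ψ M b ρ w (f * g) := by
  refine Submodule.span_induction (p := fun g _ => Van ψ M b ρ w (f * g)) ?_ ?_ ?_ ?_ hg
  · rintro _ ⟨e, he, rfl⟩
    exact hf.mul_chr hψ hE hfa (by omega)
  · rw [mul_zero]; exact Van.zero
  · intro g1 g2 _ _ h1 h2
    rw [mul_add]; exact h1.add h2
  · intro c g _ h
    rw [mul_smul_comm]; exact h.smul c

/-- The basic vanishing functions. -/
theorem Van.base (hψ : ψ.IsPrimitive) (hE : Expands M ρ w) (r : Fin m) (j : ZMod q)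
    (hr : hammingNorm (j • M r) ≤ w) :
    Van ψ M b ρ w (1 - ψ (-(j * b r)) • chr ψ (j • M r)) := by
  intro c hc
  have hsingle : hammingNorm (Pi.single r j : Fin m → ZMod q) ≤ 1 := by
    unfold hammingNorm
    refine le_trans (Finset.card_le_card (t := {r}) ?_) (by simp)
    intro k hk
    simp only [Finset.mem_filter, Finset.mem_univ, true_and] at hk
    rw [Finset.mem_singleton]
    by_contra hne
    exact hk (Pi.single_eq_of_ne hne _)
  have hρ := hE.one_le
  have h1 : Phi ψ M b ρ w c (1 - ψ (-(j * b r)) • chr ψ (j • M r)) =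
      Phi ψ M b ρ w c 1 - ψ (-(j * b r)) * Phi ψ M b ρ w c (chr ψ (j • M r)) := by
    rw [sub_eq_add_neg, Phi_add, ← neg_one_smul K (ψ (-(j * b r)) • chr ψ (j • M r)),
      Phi_smul, Phi_smul]
    ring
  rw [h1]
  have key : ∀ u : Fin m → ZMod q,
      ψ (-(j * b r)) * (if hammingNorm (Pi.single r j + u) ≤ ρ ∧
        hammingNorm (c + comb M (Pi.single r j + u)) ≤ w then
          ψ (dotb b (Pi.single r j + u)) *
            hat ψ (c + comb M (Pi.single r j + u)) (chr ψ (j • M r)) else 0) =
      (if hammingNorm u ≤ ρ ∧ hammingNorm (c + comb M u) ≤ w then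
          ψ (dotb b u) * hat ψ (c + comb M u) 1 else 0) := by
    intro u
    have e1 : c + comb M (Pi.single r j + u) = c + comb M u + j • M r := by
      rw [comb_add, comb_single]; abel
    have e2 : hat ψ (c + comb M (Pi.single r j + u)) (chr ψ (j • M r)) =
        hat ψ (c + comb M u) 1 := by
      have : chr ψ (j • M r) = 1 * chr ψ (j • M r) := by rw [one_mul]
      rw [this, hat_mul_chr, e1]; congr 1; abel
    by_cases hz : hat ψ (c + comb M u) 1 = 0
    · rw [e2, hz]; simp
    · have h0 : c + comb M u = 0 := by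
        by_contra hcon
        apply hz
        rw [← chr_zero ψ, hat_chr ψ hψ, if_neg hcon]
      have hlow2 : hammingNorm (c + comb M (Pi.single r j + u)) ≤ w := by
        rw [e1, h0, zero_add]; exact hr
      have hlow1 : hammingNorm (c + comb M u) ≤ w := by rw [h0]; simp
      have hiff : hammingNorm (Pi.single r j + u) ≤ ρ ↔ hammingNorm u ≤ ρ := by
        constructor
        · intro h
          apply hE.exp
          · have : u = (Pi.single r j + u) - Pi.single r j := by abel
            rw [this]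
            exact (hamming_sub_le _ _).trans (by omega)
          · have : comb M u = (c + comb M u) - c := by abel
            rw [this]
            exact (hamming_sub_le _ _).trans (by omega)
        · intro h
          apply hE.exp
          · exact (hamming_add_le _ _).trans (by omega)
          · have : comb M (Pi.single r j + u) = (c + comb M (Pi.single r j + u)) - c := by abel
            rw [this]
            exact (hamming_sub_le _ _).trans (by omega)
      by_cases hu : hammingNorm u ≤ ρ
      · rw [if_pos ⟨hiff.2 hu, hlow2⟩, if_pos ⟨hu, hlow1⟩, e2, dotb_add, dotb_single,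
          ← mul_assoc, ← AddChar.map_add_eq_mul]
        congr 2
        ring
      · rw [if_neg (fun h => hu (hiff.1 h.1)), if_neg (fun h => hu h.1), mul_zero]
  unfold Phi
  rw [Finset.mul_sum, Fintype.sum_equiv (Equiv.addLeft (Pi.single r j : Fin m → ZMod q))
    (fun u => if hammingNorm u ≤ ρ ∧ hammingNorm (c + comb M u) ≤ w then
          ψ (dotb b u) * hat ψ (c + comb M u) 1 else 0)
    (fun u => ψ (-(j * b r)) * (if hammingNorm u ≤ ρ ∧ hammingNorm (c + comb M u) ≤ w then
          ψ (dotb b u) * hat ψ (c + comb M u) (chr ψ (j • M r)) else 0))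
    (fun u => (key u).symm), sub_self]

theorem Van.of_vanish (hψ : ψ.IsPrimitive) (hqK : (q : K) ≠ 0) (hE : Expands M ρ w)
    {f : (Fin n → ZMod q) → K} {k : ℕ} (hk : 2 * k ≤ w) (hfk : f ∈ (chrFilt ψ n).LD k)
    {r : Fin m} (hrk : ∀ j : ZMod q, hammingNorm (j • M r) ≤ k)
    (hf : ∀ x, ∑ i, M r i * x i = b r → f x = 0) : Van ψ M b ρ w f := by
  have h : f = ∑ j : ZMod q, (q : K)⁻¹ • ((1 - ψ (-(j * b r)) • chr ψ (j • M r)) * f) := by
    funext x
    simp only [Finset.sum_apply, Pi.smul_apply, Pi.mul_apply, Pi.sub_apply, Pi.one_apply,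
      smul_eq_mul]
    have h1 : ∀ j : ZMod q, (q : K)⁻¹ * ((1 - ψ (-(j * b r)) * chr ψ (j • M r) x) * f x) =
        (q : K)⁻¹ * f x - (q : K)⁻¹ * f x * ψ (j * (∑ i, M r i * x i - b r)) := by
      intro j
      have : ψ (-(j * b r)) * chr ψ (j • M r) x = ψ (j * (∑ i, M r i * x i - b r)) := by
        rw [chr, ← AddChar.map_add_eq_mul]
        congr 1
        rw [mul_sub, Finset.mul_sum]
        simp only [Pi.smul_apply, smul_eq_mul, mul_assoc]
        ring
      rw [this]; ring
    rw [Finset.sum_congr rfl (fun j _ => h1 j), Finset.sum_sub_distrib,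
      ← Finset.mul_sum Finset.univ (fun j : ZMod q => ψ (j * (∑ i, M r i * x i - b r))),
      sum_psi ψ hψ]
    by_cases hx : ∑ i, M r i * x i = b r
    · rw [hf x hx]; simp
    · rw [if_neg (sub_ne_zero.2 hx)]
      simp only [Finset.sum_const, Finset.card_univ, ZMod.card, nsmul_eq_mul, mul_zero, sub_zero]
      field_simp
  rw [h]
  have hall : ∀ s : Finset (ZMod q), Van ψ M b ρ w
      (∑ j ∈ s, (q : K)⁻¹ • ((1 - ψ (-(j * b r)) • chr ψ (j • M r)) * f)) := by
    intro s
    induction s using Finset.induction_on with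
    | empty => simpa using Van.zero
    | insert j s hj ih =>
      rw [Finset.sum_insert hj]
      refine Van.add (Van.smul _ ?_) ih
      refine (Van.base hψ hE r j ((hrk j).trans (by omega))).mul hψ hE (a := k) (a' := k) ?_ hfk
        (by omega)
      exact Submodule.sub_mem _ ((chrFilt ψ n).one_mem' _)
        (Submodule.smul_mem _ _ (chr_mem ψ (hrk j)))
  exact hall Finset.univ

theorem not_Van_one (hψ : ψ.IsPrimitive) (hqK : (q : K) ≠ 0) (hE : Expands M ρ w) :
    ¬ Van ψ M b ρ w 1 := by
  intro h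
  have h0 := h 0 (by simp)
  unfold Phi at h0
  rw [Finset.sum_eq_single (0 : Fin m → ZMod q)] at h0
  · have hc0 : comb M (0 : Fin m → ZMod q) = 0 := by funext i; simp [comb]
    have hd0 : dotb b (0 : Fin m → ZMod q) = 0 := by simp [dotb]
    rw [hc0, hd0, add_zero, if_pos ⟨by simp, by simp⟩, ← chr_zero ψ, hat_chr ψ hψ,
      if_pos rfl, AddChar.map_zero_eq_one, one_mul] at h0
    exact pow_ne_zero n hqK h0
  · intro u _ hu
    by_cases hcond : hammingNorm u ≤ ρ ∧ hammingNorm (0 + comb M u) ≤ w
    · rw [if_pos hcond, ← chr_zero ψ, hat_chr ψ hψ, if_neg, mul_zero]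
      intro h1
      rw [zero_add] at h1
      exact hu (hE.inj u hcond.1 h1)
    · rw [if_neg hcond]
  · intro h1; exact absurd (Finset.mem_univ _) h1

/-- Polynomial calculus degree lower bound. -/
theorem linsys_lower (hψ : ψ.IsPrimitive) (hqK : (q : K) ≠ 0) (hE : Expands M ρ w) {k : ℕ}
    (hk : 2 * k ≤ w) {Ax : Set ((Fin n → ZMod q) → K)}
    (hrk : ∀ (r : Fin m) (j : ZMod q), hammingNorm (j • M r) ≤ k)
    (hAx : ∀ f ∈ Ax, f ∈ (chrFilt ψ n).LD k ∧
      ∃ r : Fin m, ∀ x, ∑ i, M r i * x i = b r → f x = 0) :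
    ¬ Der (chrFilt ψ n) Ax w 1 := by
  intro hd
  have h : ∀ f, Der (chrFilt ψ n) Ax w f → Van ψ M b ρ w f := by
    intro f hf
    induction hf with
    | ax h1 _ =>
      obtain ⟨h2, r, h3⟩ := hAx _ h1
      exact Van.of_vanish hψ hqK hE hk h2 (hrk r) h3
    | zero => exact Van.zero
    | add _ _ h1 h2 => exact h1.add h2
    | mul _ ha hb hab ih => exact ih.mul hψ hE ha hb hab
  exact not_Van_one hψ hqK hE (h 1 hd)

end System

end Pool.Agent.Helper21.AC0p
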