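import Pool.Agent.Helper21.AC0p.Defs
import Pool.Agent.Helper21.AC0p.Filt

/-!
Evaluation of formulas with overrides, and degrees of the resulting functions.
-/

namespace Pool.Agent.Helper21.AC0p

open scoped BigOperators Classical

/-- Evaluation with overrides `E`. -/
noncomputable def ev (p : ℕ) (E : Fm → Option Bool) (v : ℕ → Bool) : Fm → Bool
  | .var i => (E (.var i)).getD (v i)
  | .neg A => (E (.neg A)).getD (!(ev p E v A))
  | .or k f => (E (.or k f)).getD (decide (∃ i, ev p E v (f i) = true))
  | .mod k f => (E (.mod k f)).getD (decide (p ∣ ∑ i, (ev p E v (f i)).toNat))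

/-- One step of evaluation, ignoring the override at the top. -/
noncomputable def rv (p : ℕ) (E : Fm → Option Bool) (v : ℕ → Bool) : Fm → Bool
  | .var i => v i
  | .neg A => !(ev p E v A)
  | .or _ f => decide (∃ i, ev p E v (f i) = true)
  | .mod _ f => decide (p ∣ ∑ i, (ev p E v (f i)).toNat)

theorem ev_eq (p : ℕ) (E : Fm → Option Bool) (v : ℕ → Bool) (A : Fm) :
    ev p E v A = (E A).getD (rv p E v A) := by
  cases A <;> simp [ev, rv]

theorem ev_of_some {p : ℕ} {E : Fm → Option Bool} {v : ℕ → Bool} {A : Fm} {b : Bool}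
    (h : E A = some b) : ev p E v A = b := by
  rw [ev_eq, h]; rfl

theorem ev_of_none {p : ℕ} {E : Fm → Option Bool} {v : ℕ → Bool} {A : Fm}
    (h : E A = none) : ev p E v A = rv p E v A := by
  rw [ev_eq, h]; rfl

theorem ev_empty (p : ℕ) (v : ℕ → Bool) (A : Fm) : ev p (fun _ => none) v A = A.eval p v := by
  induction A with
  | var i => simp [ev, Fm.eval]
  | neg A ih => simp [ev, Fm.eval, ih]
  | or k f ih => simp [ev, Fm.eval, ih]
  | mod k f ih => simp [ev, Fm.eval, ih]

/-- Updating the override at `z` to the value that `z` takes anyway changes nothing. -/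
theorem ev_update {p : ℕ} {E : Fm → Option Bool} {v : ℕ → Bool} {z : Fm} {b : Bool}
    (hz : E z = none) (hb : rv p E v z = b) (A : Fm) :
    ev p (Function.update E z (some b)) v A = ev p E v A := by
  induction A with
  | var i =>
    by_cases h : (Fm.var i) = z
    · subst h
      rw [ev_of_some (b := b) (by simp), ev_of_none hz, hb]
    · rw [ev_eq, ev_eq, Function.update_of_ne h]; rfl
  | neg A ih =>
    by_cases h : (Fm.neg A) = z
    · subst h
      rw [ev_of_some (b := b) (by simp), ev_of_none hz, hb]
    · rw [ev_eq, ev_eq, Function.update_of_ne h]; simp only [rv, ih]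
  | or k f ih =>
    by_cases h : (Fm.or k f) = z
    · subst h
      rw [ev_of_some (b := b) (by simp), ev_of_none hz, hb]
    · rw [ev_eq, ev_eq, Function.update_of_ne h]; simp only [rv, ih]
  | mod k f ih =>
    by_cases h : (Fm.mod k f) = z
    · subst h
      rw [ev_of_some (b := b) (by simp), ev_of_none hz, hb]
    · rw [ev_eq, ev_eq, Function.update_of_ne h]; simp only [rv, ih]

theorem rv_update {p : ℕ} {E : Fm → Option Bool} {v : ℕ → Bool} {z : Fm} {b : Bool}
    (hz : E z = none) (hb : rv p E v z = b) (A : Fm) :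
    rv p (Function.update E z (some b)) v A = rv p E v A := by
  cases A <;> simp [rv, ev_update hz hb]

section Ind

variable {X K : Type} [Field K]

/-- Indicator function of a Boolean function. -/
def ind (K : Type) [Field K] (b : X → Bool) : X → K := fun x => if b x then 1 else 0

theorem ind_sq (b : X → Bool) : ind K b * ind K b = ind K b := by
  funext x
  simp only [ind, Pi.mul_apply]
  split_ifs <;> simp

theorem ind_not (b : X → Bool) : ind K (fun x => !(b x)) = 1 - ind K b := by
  funext x
  by_cases hb : b x = true <;> simp [ind, hb]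

theorem ind_and (b c : X → Bool) : ind K (fun x => b x && c x) = ind K b * ind K c := by
  funext x
  by_cases hb : b x = true <;> by_cases hc : c x = true <;> simp [ind, hb, hc]

theorem ind_const (b : Bool) : ind K (fun _ : X => b) = (if b then 1 else 0) := by
  funext x
  cases b <;> simp [ind]

/-- The cost of replacing a Boolean function by one that agrees with it wherever the
equation `b0 = b` holds. -/
theorem diff_der {𝔉 : Filt X K} {Ax : Set (X → K)} {w D D0 : ℕ} {b0 b1 b2 : X → Bool} {b : Bool}
    (hagree : ∀ x, b0 x = b → b1 x = b2 x)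
    (hd : Der 𝔉 Ax w (ind K b0 - ind K (fun _ => b)))
    (hD : ind K b0 ∈ 𝔉.LD D) (h1 : ind K b1 ∈ 𝔉.LD D0) (h2 : ind K b2 ∈ 𝔉.LD D0)
    (hw : D + D0 ≤ w) : Der 𝔉 Ax w (ind K b1 - ind K b2) := by
  have hc : ind K (fun _ : X => b) ∈ 𝔉.LD D := 𝔉.const_mem _ _
  have hg : ind K b0 - ind K (fun _ => b) ∈ 𝔉.LD D := Submodule.sub_mem _ hD hc
  have hdiff : ind K b1 - ind K b2 ∈ 𝔉.LD D0 := Submodule.sub_mem _ h1 h2
  cases b with
  | false =>
    have : ind K b1 - ind K b2 = (ind K b0 - ind K (fun _ => false)) * (ind K b1 - ind K b2) := by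
      funext x
      by_cases hx : b0 x = false
      · have := hagree x hx
        simp [ind, hx, this]
      · have hx' : b0 x = true := by simpa using hx
        simp [ind, hx']
    rw [this]
    exact Der.mul hd hg hdiff hw
  | true =>
    have : ind K b1 - ind K b2 =
        (ind K b0 - ind K (fun _ => true)) * (-(ind K b1 - ind K b2)) := by
      funext x
      by_cases hx : b0 x = true
      · have := hagree x hx
        simp [ind, hx, this]
      · have hx' : b0 x = false := by simpa using hx
        simp [ind, hx']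
    rw [this]
    exact Der.mul hd hg (Submodule.neg_mem _ hdiff) hw

end Ind

section Degree

variable {X K : Type} [Field K] (𝔉 : Filt X K) (p : ℕ) (v : X → ℕ → Bool)

/-- The function computed by a formula with overrides. -/
noncomputable def qf (K : Type) [Field K] (p : ℕ) (v : X → ℕ → Bool) (E : Fm → Option Bool)
    (A : Fm) : X → K := ind K (fun x => ev p E (v x) A)

/-- The function computed by a formula with overrides below the top. -/
noncomputable def rf (K : Type) [Field K] (p : ℕ) (v : X → ℕ → Bool) (E : Fm → Option Bool)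
    (A : Fm) : X → K := ind K (fun x => rv p E (v x) A)

variable {p v}

theorem qf_of_some {E : Fm → Option Bool} {A : Fm} {b : Bool} (h : E A = some b) :
    qf K p v E A = ind K (fun _ => b) := by
  funext x
  simp [qf, ind, ev_of_some h]

theorem qf_of_none {E : Fm → Option Bool} {A : Fm} (h : E A = none) :
    qf K p v E A = rf K p v E A := by
  funext x
  simp [qf, rf, ind, ev_of_none h]

theorem rf_neg (E : Fm → Option Bool) (A : Fm) :
    rf K p v E (.neg A) = 1 - qf K p v E A := by
  rw [qf, ← ind_not]; rfl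

theorem cast_pow_pred [hp : Fact p.Prime] [CharP K p] (s : ℕ) :
    (s : K) ^ (p - 1) = if p ∣ s then 0 else 1 := by
  have hp1 : p - 1 ≠ 0 := by have := hp.out.two_le; omega
  by_cases h : p ∣ s
  · rw [if_pos h, (CharP.cast_eq_zero_iff K p s).2 h, zero_pow hp1]
  · rw [if_neg h]
    have h1 : ((s : ZMod p)) ≠ 0 := by
      intro h0
      exact h ((ZMod.natCast_eq_zero_iff s p).1 h0)
    have h2 : ((s : ZMod p)) ^ (p - 1) = 1 := ZMod.pow_card_sub_one_eq_one h1
    have h3 := congrArg (ZMod.castHom (dvd_refl p) K) h2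
    simpa using h3

theorem ind_dvd [hp : Fact p.Prime] [CharP K p] (c : X → ℕ) :
    ind K (fun x => decide (p ∣ c x)) = 1 - (fun x => ((c x : ℕ) : K)) ^ (p - 1) := by
  funext x
  have := cast_pow_pred (p := p) (K := K) (c x)
  simp only [ind, Pi.sub_apply, Pi.one_apply, Pi.pow_apply, this]
  by_cases h : p ∣ c x <;> simp [h]

theorem rf_mod [hp : Fact p.Prime] [CharP K p] (E : Fm → Option Bool) (k : ℕ)
    (f : Fin k → Fm) :
    rf K p v E (.mod k f) = 1 - (∑ i, qf K p v E (f i)) ^ (p - 1) := by
  have h : (∑ i, qf K p v E (f i)) =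
      (fun x => ((∑ i, (ev p E (v x) (f i)).toNat : ℕ) : K)) := by
    funext x
    simp only [Finset.sum_apply, qf, ind]
    push_cast
    refine Finset.sum_congr rfl (fun i _ => ?_)
    by_cases hb : ev p E (v x) (f i) = true <;> simp [hb]
  rw [h, ← ind_dvd]
  rfl

/-- Distinct disjuncts that are not overridden. -/
noncomputable def live {k : ℕ} (E : Fm → Option Bool) (f : Fin k → Fm) : Finset Fm :=
  (Finset.univ.image f).filter (fun B => E B = none)

theorem rf_or_killed {E : Fm → Option Bool} {k : ℕ} {f : Fin k → Fm} {i : Fin k}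
    (h : E (f i) = some true) : rf K p v E (.or k f) = 1 := by
  funext x
  have : ∃ i, ev p E (v x) (f i) = true := ⟨i, ev_of_some h⟩
  simp [rf, ind, rv, this]

theorem rf_or {E : Fm → Option Bool} {k : ℕ} {f : Fin k → Fm}
    (h : ¬ ∃ i, E (f i) = some true) :
    rf K p v E (.or k f) = 1 - ∏ B ∈ live E f, (1 - qf K p v E B) := by
  funext x
  simp only [rf, ind, rv, Pi.sub_apply, Pi.one_apply, Finset.prod_apply, decide_eq_true_eq]
  by_cases hx : ∃ i, ev p E (v x) (f i) = true
  · rw [if_pos hx]
    obtain ⟨i, hi⟩ := hx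
    have hlive : f i ∈ live E f := by
      simp only [live, Finset.mem_filter, Finset.mem_image, Finset.mem_univ, true_and]
      refine ⟨⟨i, rfl⟩, ?_⟩
      rcases hE : E (f i) with _ | b
      · rfl
      · cases b with
        | true => exact absurd ⟨i, hE⟩ h
        | false =>
          rw [ev_of_some hE] at hi
          exact absurd hi (by simp)
    rw [Finset.prod_eq_zero hlive]
    · simp
    · simp [qf, ind, hi]
  · rw [if_neg hx]
    push Not at hx
    rw [Finset.prod_eq_one]
    · simp
    · intro B hB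
      simp only [live, Finset.mem_filter, Finset.mem_image, Finset.mem_univ, true_and] at hB
      obtain ⟨⟨i, rfl⟩, _⟩ := hB
      have := hx i
      simp only [Bool.not_eq_true] at this
      simp [qf, ind, this]

variable {𝔉}

theorem qf_mem_of_rf_mem {E : Fm → Option Bool} {A : Fm} {D : ℕ} (h : rf K p v E A ∈ 𝔉.LD D) :
    qf K p v E A ∈ 𝔉.LD D := by
  rcases hE : E A with _ | b
  · rw [qf_of_none hE]; exact h
  · rw [qf_of_some hE]; exact 𝔉.const_mem _ _

theorem isSub_trans {A B C : Fm} (h1 : Fm.IsSub A B) (h2 : Fm.IsSub B C) : Fm.IsSub A C := by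
  induction h2 with
  | refl => exact h1
  | neg _ ih => exact Fm.IsSub.neg ih
  | or i _ ih => exact Fm.IsSub.or i ih
  | mod i _ ih => exact Fm.IsSub.mod i ih

/-- Degree bound. `B` bounds the contribution of the wide disjunctions. -/
theorem rf_mem [hp : Fact p.Prime] [CharP K p]
    (hv : ∀ i, ind K (fun x => v x i) ∈ 𝔉.LD 1)
    {B : ℕ → ℕ} (hB : Monotone B) (hB0 : 1 ≤ B 0) {K0 t : ℕ} (hK : p ≤ K0)
    {E : Fm → Option Bool} (A : Fm)
    (hgood : ∀ (k : ℕ) (f : Fin k → Fm), Fm.IsSub (.or k f) A →
      (∃ i, E (f i) = some true) ∨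
      (live E f).card * B (Finset.univ.sup fun i => Fm.wideDepth t (f i)) ≤
        K0 * B (Fm.wideDepth t (.or k f))) :
    rf K p v E A ∈ 𝔉.LD (K0 ^ A.depth * B (A.wideDepth t)) := by
  have hK1 : 1 ≤ K0 := le_trans hp.out.one_lt.le hK
  induction A with
  | var i =>
    have h1 : rf K p v E (.var i) = ind K (fun x => v x i) := rfl
    rw [h1]
    refine 𝔉.mono ?_ (hv i)
    simpa [Fm.depth, Fm.wideDepth] using hB0
  | neg A ih =>
    rw [rf_neg]
    have h1 := ih (fun k f h => hgood k f (Fm.IsSub.neg h))
    refine Submodule.sub_mem _ (𝔉.one_mem' _) ?_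
    refine 𝔉.mono ?_ (qf_mem_of_rf_mem h1)
    simp only [Fm.depth, Fm.wideDepth]
    exact Nat.mul_le_mul_right _ (Nat.pow_le_pow_right hK1 (Nat.le_succ _))
  | or k f ih =>
    by_cases hk : ∃ i, E (f i) = some true
    · obtain ⟨i, hi⟩ := hk
      rw [rf_or_killed hi]
      exact 𝔉.one_mem' _
    · rw [rf_or hk]
      refine Submodule.sub_mem _ (𝔉.one_mem' _) ?_
      have h1 : ∀ C ∈ live E f, (1 - qf K p v E C) ∈
          𝔉.LD (K0 ^ (Finset.univ.sup fun i => (f i).depth) *
            B (Finset.univ.sup fun i => Fm.wideDepth t (f i))) := by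
        intro C hC
        simp only [live, Finset.mem_filter, Finset.mem_image, Finset.mem_univ, true_and] at hC
        obtain ⟨⟨i, rfl⟩, _⟩ := hC
        refine Submodule.sub_mem _ (𝔉.one_mem' _) ?_
        have h2 := ih i (fun k g h => hgood k g (Fm.IsSub.or i h))
        refine 𝔉.mono ?_ (qf_mem_of_rf_mem h2)
        refine Nat.mul_le_mul (Nat.pow_le_pow_right hK1 ?_) (hB ?_)
        · exact Finset.le_sup (f := fun i => (f i).depth) (Finset.mem_univ i)
        · exact Finset.le_sup (f := fun i => Fm.wideDepth t (f i)) (Finset.mem_univ i)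
      have h3 := 𝔉.prod_mem (live E f) _ _ h1
      refine 𝔉.mono ?_ h3
      have h4 := (hgood k f Fm.IsSub.refl).resolve_left hk
      simp only [Fm.depth]
      calc (live E f).card * (K0 ^ (Finset.univ.sup fun i => (f i).depth) *
              B (Finset.univ.sup fun i => Fm.wideDepth t (f i)))
          = K0 ^ (Finset.univ.sup fun i => (f i).depth) *
            ((live E f).card * B (Finset.univ.sup fun i => Fm.wideDepth t (f i))) := by ring
        _ ≤ K0 ^ (Finset.univ.sup fun i => (f i).depth) *
            (K0 * B (Fm.wideDepth t (.or k f))) := Nat.mul_le_mul_left _ h4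
        _ = K0 ^ ((Finset.univ.sup fun i => (f i).depth) + 1) *
            B (Fm.wideDepth t (.or k f)) := by ring
  | mod k f ih =>
    rw [rf_mod]
    refine Submodule.sub_mem _ (𝔉.one_mem' _) ?_
    have h1 : ∀ i ∈ (Finset.univ : Finset (Fin k)), qf K p v E (f i) ∈
        𝔉.LD (K0 ^ (Finset.univ.sup fun i => (f i).depth) *
          B (Finset.univ.sup fun i => Fm.wideDepth t (f i))) := by
      intro i _
      have h2 := ih i (fun k g h => hgood k g (Fm.IsSub.mod i h))
      refine 𝔉.mono ?_ (qf_mem_of_rf_mem h2)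
      refine Nat.mul_le_mul (Nat.pow_le_pow_right hK1 ?_) (hB ?_)
      · exact Finset.le_sup (f := fun i => (f i).depth) (Finset.mem_univ i)
      · exact Finset.le_sup (f := fun i => Fm.wideDepth t (f i)) (Finset.mem_univ i)
    have h2 := 𝔉.pow_mem (𝔉.sum_mem Finset.univ _ _ h1) (p - 1)
    refine 𝔉.mono ?_ h2
    simp only [Fm.depth, Fm.wideDepth]
    calc (p - 1) * (K0 ^ (Finset.univ.sup fun i => (f i).depth) *
          B (Finset.univ.sup fun i => Fm.wideDepth t (f i)))
        ≤ K0 * (K0 ^ (Finset.univ.sup fun i => (f i).depth) *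
          B (Finset.univ.sup fun i => Fm.wideDepth t (f i))) :=
          Nat.mul_le_mul_right _ (by omega)
      _ = K0 ^ ((Finset.univ.sup fun i => (f i).depth) + 1) *
          B (Finset.univ.sup fun i => Fm.wideDepth t (f i)) := by ring

end Degree

end Pool.Agent.Helper21.AC0p
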