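import Pool.Agent.Helper21.AC0p.Kill

/-!
Low-degree simulation of arbitrary sound schematic rules.
-/

namespace Pool.Agent.Helper21.AC0p

open scoped BigOperators Classical

mutual
/-- Truth value of a scheme from the truth values `α` of the formula metavariables, and, for
the list metavariables, the truth values `β` of all items are false and numbers `γ` of true
items. -/
def FSch.val (p : ℕ) (α β : ℕ → Bool) (γ : ℕ → ℕ) : FSch → Bool
  | .mv i => α i
  | .neg s => !(FSch.val p α β γ s)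
  | .or l => !(LSch.valF p α β γ l)
  | .mod l => decide (p ∣ LSch.valC p α β γ l)
def LSch.valF (p : ℕ) (α β : ℕ → Bool) (γ : ℕ → ℕ) : LSch → Bool
  | .nil => true
  | .cons s l => !(FSch.val p α β γ s) && LSch.valF p α β γ l
  | .app j l => β j && LSch.valF p α β γ l
def LSch.valC (p : ℕ) (α β : ℕ → Bool) (γ : ℕ → ℕ) : LSch → ℕ
  | .nil => 0
  | .cons s l => (FSch.val p α β γ s).toNat + LSch.valC p α β γ l
  | .app j l => γ j + LSch.valC p α β γ l
end

/-- All items of the list are false. -/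
noncomputable def allF (p : ℕ) (E : Fm → Option Bool) (v : ℕ → Bool) (l : List Fm) : Bool :=
  l.all (fun B => !(ev p E v B))

/-- The number of true items of the list. -/
noncomputable def cntT (p : ℕ) (E : Fm → Option Bool) (v : ℕ → Bool) (l : List Fm) : ℕ :=
  (l.map (fun B => (ev p E v B).toNat)).sum

theorem allF_nil (p : ℕ) (E : Fm → Option Bool) (v : ℕ → Bool) : allF p E v [] = true := rfl

theorem allF_cons (p : ℕ) (E : Fm → Option Bool) (v : ℕ → Bool) (A : Fm) (l : List Fm) :
    allF p E v (A :: l) = (!(ev p E v A) && allF p E v l) := rfl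

theorem allF_append (p : ℕ) (E : Fm → Option Bool) (v : ℕ → Bool) (l l' : List Fm) :
    allF p E v (l ++ l') = (allF p E v l && allF p E v l') := by
  simp [allF]

theorem cntT_nil (p : ℕ) (E : Fm → Option Bool) (v : ℕ → Bool) : cntT p E v [] = 0 := rfl

theorem cntT_cons (p : ℕ) (E : Fm → Option Bool) (v : ℕ → Bool) (A : Fm) (l : List Fm) :
    cntT p E v (A :: l) = (ev p E v A).toNat + cntT p E v l := by
  simp [cntT]

theorem cntT_append (p : ℕ) (E : Fm → Option Bool) (v : ℕ → Bool) (l l' : List Fm) :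
    cntT p E v (l ++ l') = cntT p E v l + cntT p E v l' := by
  simp [cntT]

theorem exists_get_iff {α : Type*} (l : List α) (P : α → Prop) :
    (∃ i, P (l.get i)) ↔ ∃ a ∈ l, P a := by
  constructor
  · rintro ⟨i, hi⟩; exact ⟨l.get i, l.get_mem i, hi⟩
  · rintro ⟨a, ha, hP⟩
    obtain ⟨i, rfl⟩ := List.get_of_mem ha
    exact ⟨i, hP⟩

theorem rv_orL (p : ℕ) (E : Fm → Option Bool) (v : ℕ → Bool) (l : List Fm) :
    rv p E v (Fm.orL l) = !(allF p E v l) := by
  simp only [rv, Fm.orL, allF]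
  rw [Bool.eq_iff_iff]
  rw [decide_eq_true_eq, exists_get_iff l (fun A => ev p E v A = true)]
  simp

theorem sum_get {α : Type*} (l : List α) (g : α → ℕ) :
    ∑ i, g (l.get i) = (l.map g).sum := by
  induction l with
  | nil => simp
  | cons a l ih =>
    have : ∑ i : Fin (a :: l).length, g ((a :: l).get i) =
        g a + ∑ i : Fin l.length, g (l.get i) := by
      rw [show (∑ i : Fin (a :: l).length, g ((a :: l).get i)) =
        ∑ i : Fin (l.length + 1), g ((a :: l).get i) from rfl, Fin.sum_univ_succ]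
      rfl
    rw [this, ih]
    simp

theorem rv_modL (p : ℕ) (E : Fm → Option Bool) (v : ℕ → Bool) (l : List Fm) :
    rv p E v (Fm.modL l) = decide (p ∣ cntT p E v l) := by
  simp only [rv, Fm.modL, cntT]
  rw [sum_get l (fun A => (ev p E v A).toNat)]
  rfl

/-! ### Real evaluation of instances -/

mutual
theorem FSch.eval_inst (p : ℕ) (σ : ℕ → Fm) (τ : ℕ → List Fm) (v : ℕ → Bool) :
    (s : FSch) → ev p (fun _ => none) v (s.inst σ τ) =
      s.val p (fun i => ev p (fun _ => none) v (σ i))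
        (fun j => allF p (fun _ => none) v (τ j)) (fun j => cntT p (fun _ => none) v (τ j))
  | .mv i => by simp [FSch.inst, FSch.val]
  | .neg s => by
      rw [FSch.inst, FSch.val, ← FSch.eval_inst p σ τ v s, ev_of_none rfl]; rfl
  | .or l => by
      rw [FSch.inst, FSch.val, ← LSch.allF_inst p σ τ v l, ev_of_none rfl, rv_orL]
  | .mod l => by
      rw [FSch.inst, FSch.val, ← LSch.cntT_inst p σ τ v l, ev_of_none rfl, rv_modL]
theorem LSch.allF_inst (p : ℕ) (σ : ℕ → Fm) (τ : ℕ → List Fm) (v : ℕ → Bool) :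
    (l : LSch) → allF p (fun _ => none) v (l.inst σ τ) =
      l.valF p (fun i => ev p (fun _ => none) v (σ i))
        (fun j => allF p (fun _ => none) v (τ j)) (fun j => cntT p (fun _ => none) v (τ j))
  | .nil => by simp [LSch.inst, LSch.valF, allF]
  | .cons s l => by
      rw [LSch.inst, LSch.valF, allF_cons, FSch.eval_inst p σ τ v s, LSch.allF_inst p σ τ v l]
  | .app j l => by
      rw [LSch.inst, LSch.valF, allF_append, LSch.allF_inst p σ τ v l]
theorem LSch.cntT_inst (p : ℕ) (σ : ℕ → Fm) (τ : ℕ → List Fm) (v : ℕ → Bool) :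
    (l : LSch) → cntT p (fun _ => none) v (l.inst σ τ) =
      l.valC p (fun i => ev p (fun _ => none) v (σ i))
        (fun j => allF p (fun _ => none) v (τ j)) (fun j => cntT p (fun _ => none) v (τ j))
  | .nil => by simp [LSch.inst, LSch.valC, cntT]
  | .cons s l => by
      rw [LSch.inst, LSch.valC, cntT_cons, FSch.eval_inst p σ τ v s, LSch.cntT_inst p σ τ v l]
  | .app j l => by
      rw [LSch.inst, LSch.valC, cntT_append, LSch.cntT_inst p σ τ v l]
end

mutual
theorem FSch.val_congr (p : ℕ) (α β : ℕ → Bool) {γ γ' : ℕ → ℕ} (h : ∀ j, γ j ≡ γ' j [MOD p]) :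
    (s : FSch) → s.val p α β γ = s.val p α β γ'
  | .mv i => by simp [FSch.val]
  | .neg s => by rw [FSch.val, FSch.val, FSch.val_congr p α β h s]
  | .or l => by rw [FSch.val, FSch.val, LSch.valF_congr p α β h l]
  | .mod l => by
      rw [FSch.val, FSch.val]
      congr 1
      exact propext ((LSch.valC_congr p α β h l).dvd_iff (dvd_refl p))
theorem LSch.valF_congr (p : ℕ) (α β : ℕ → Bool) {γ γ' : ℕ → ℕ} (h : ∀ j, γ j ≡ γ' j [MOD p]) :
    (l : LSch) → l.valF p α β γ = l.valF p α β γ'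
  | .nil => by simp [LSch.valF]
  | .cons s l => by
      rw [LSch.valF, LSch.valF, FSch.val_congr p α β h s, LSch.valF_congr p α β h l]
  | .app j l => by rw [LSch.valF, LSch.valF, LSch.valF_congr p α β h l]
theorem LSch.valC_congr (p : ℕ) (α β : ℕ → Bool) {γ γ' : ℕ → ℕ} (h : ∀ j, γ j ≡ γ' j [MOD p]) :
    (l : LSch) → l.valC p α β γ ≡ l.valC p α β γ' [MOD p]
  | .nil => by simp [LSch.valC]; rfl
  | .cons s l => by
      rw [LSch.valC, LSch.valC, FSch.val_congr p α β h s]
      exact (LSch.valC_congr p α β h l).add_left _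
  | .app j l => by
      rw [LSch.valC, LSch.valC]
      exact (h j).add (LSch.valC_congr p α β h l)
end

/-- Abstract soundness of a sound rule. -/
theorem Rule.Sound.val {p : ℕ} (hp : 0 < p) {r : Rule} (hr : r.Sound p) (α β : ℕ → Bool)
    (γ : ℕ → ℕ) (hβ : ∀ j, β j = true → γ j = 0)
    (h : ∀ s ∈ r.prems, s.val p α β γ = true) : r.concl.val p α β γ = true := by
  let tt : Fm := Fm.neg (Fm.orL [])
  let ff : Fm := Fm.orL []
  let σ : ℕ → Fm := fun i => if α i then tt else ff
  let τ : ℕ → List Fm := fun j => if β j then [] else List.replicate (γ j + p) tt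
  let v : ℕ → Bool := fun _ => false
  have hff : ev p (fun _ => none) v ff = false := by
    rw [ev_of_none rfl, rv_orL]; rfl
  have htt : ev p (fun _ => none) v tt = true := by
    rw [ev_of_none rfl]
    simp only [tt, rv]
    have : ev p (fun _ => none) v (Fm.orL []) = false := hff
    rw [this]; rfl
  have hσ : ∀ i, ev p (fun _ => none) v (σ i) = α i := by
    intro i
    simp only [σ]
    by_cases h : α i = true
    · rw [if_pos h, htt, h]
    · rw [if_neg h, hff]
      simpa using h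
  have hallrep : ∀ n, 0 < n → allF p (fun _ => none) v (List.replicate n tt) = false := by
    intro n hn
    obtain ⟨m, rfl⟩ := Nat.exists_eq_succ_of_ne_zero hn.ne'
    rw [List.replicate_succ, allF_cons, htt]; rfl
  have hcntrep : ∀ n, cntT p (fun _ => none) v (List.replicate n tt) = n := by
    intro n
    induction n with
    | zero => rfl
    | succ n ih => rw [List.replicate_succ, cntT_cons, htt, ih]; simp [add_comm]
  have hτ : ∀ j, allF p (fun _ => none) v (τ j) = β j := by
    intro j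
    simp only [τ]
    by_cases h : β j = true
    · rw [if_pos h, h]; rfl
    · rw [if_neg h, hallrep _ (by omega)]
      simpa using (by simpa using h : β j = false).symm
  have hτc : ∀ j, cntT p (fun _ => none) v (τ j) ≡ γ j [MOD p] := by
    intro j
    simp only [τ]
    by_cases h : β j = true
    · rw [if_pos h, hβ j h]; rfl
    · rw [if_neg h, hcntrep]
      simp [Nat.ModEq]
  have key : ∀ s : FSch, (s.inst σ τ).eval p v = s.val p α β γ := by
    intro s
    rw [← ev_empty, FSch.eval_inst, FSch.val_congr p _ _ hτc]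
    congr 1
    · funext i; exact hσ i
    · funext j; exact hτ j
  rw [← key]
  exact hr σ τ v (fun s hs => by rw [key]; exact h s hs)

mutual
/-- Degree of a scheme. -/
def FSch.deg (p : ℕ) : FSch → ℕ
  | .mv _ => 1
  | .neg s => FSch.deg p s
  | .or l => LSch.deg p l
  | .mod l => p * LSch.deg p l
def LSch.deg (p : ℕ) : LSch → ℕ
  | .nil => 0
  | .cons s l => FSch.deg p s + LSch.deg p l
  | .app _ l => 1 + LSch.deg p l
end

mutual
/-- Budget needed by a scheme. -/
def FSch.need (p : ℕ) : FSch → ℕ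
  | .mv _ => 1
  | .neg s => FSch.need p s
  | .or l => LSch.need p l
  | .mod l => LSch.need p l + (p + 2) * (LSch.deg p l + 1)
def LSch.need (p : ℕ) : LSch → ℕ
  | .nil => 1
  | .cons s l => FSch.need p s + LSch.need p l + 2 * (FSch.deg p s + LSch.deg p l + 1)
  | .app _ l => LSch.need p l + LSch.deg p l + 2
end

section Sim

variable {X K : Type} [Field K] {𝔉 : Filt X K} {p : ℕ} {v : X → ℕ → Bool}

theorem ind_allF_nil (E : Fm → Option Bool) :
    ind K (fun x => allF p E (v x) []) = 1 := by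
  funext x; simp [ind, allF]

/-- The functions used for the list metavariables. -/
noncomputable def betaF (𝔉 : Filt X K) (p : ℕ) (v : X → ℕ → Bool) (E : Fm → Option Bool) (D : ℕ)
    (τ : ℕ → List Fm) (x : X) (j : ℕ) : Bool :=
  if ind K (fun x => allF p E (v x) (τ j)) ∈ 𝔉.LD D then allF p E (v x) (τ j) else false

/-- The function computed by a scheme. -/
noncomputable def vF (𝔉 : Filt X K) (p : ℕ) (v : X → ℕ → Bool) (E : Fm → Option Bool) (D : ℕ)
    (σ : ℕ → Fm) (τ : ℕ → List Fm) (s : FSch) (x : X) : Bool :=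
  s.val p (fun i => ev p E (v x) (σ i)) (betaF 𝔉 p v E D τ x) (fun j => cntT p E (v x) (τ j))

noncomputable def vL (𝔉 : Filt X K) (p : ℕ) (v : X → ℕ → Bool) (E : Fm → Option Bool) (D : ℕ)
    (σ : ℕ → Fm) (τ : ℕ → List Fm) (l : LSch) (x : X) : Bool :=
  l.valF p (fun i => ev p E (v x) (σ i)) (betaF 𝔉 p v E D τ x) (fun j => cntT p E (v x) (τ j))

noncomputable def cL (𝔉 : Filt X K) (p : ℕ) (v : X → ℕ → Bool) (E : Fm → Option Bool) (D : ℕ)
    (σ : ℕ → Fm) (τ : ℕ → List Fm) (l : LSch) (x : X) : ℕ :=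
  l.valC p (fun i => ev p E (v x) (σ i)) (betaF 𝔉 p v E D τ x) (fun j => cntT p E (v x) (τ j))

theorem vF_neg (E : Fm → Option Bool) (D : ℕ) (σ : ℕ → Fm) (τ : ℕ → List Fm) (s : FSch) :
    ind K (vF 𝔉 p v E D σ τ (.neg s)) = 1 - ind K (vF 𝔉 p v E D σ τ s) := by
  rw [← ind_not]; rfl

theorem vF_or (E : Fm → Option Bool) (D : ℕ) (σ : ℕ → Fm) (τ : ℕ → List Fm) (l : LSch) :
    ind K (vF 𝔉 p v E D σ τ (.or l)) = 1 - ind K (vL 𝔉 p v E D σ τ l) := by
  rw [← ind_not]; rfl

theorem vF_mod [hp : Fact p.Prime] [CharP K p] (E : Fm → Option Bool) (D : ℕ) (σ : ℕ → Fm)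
    (τ : ℕ → List Fm) (l : LSch) :
    ind K (vF 𝔉 p v E D σ τ (.mod l)) =
      1 - (fun x => ((cL 𝔉 p v E D σ τ l x : ℕ) : K)) ^ (p - 1) := by
  rw [← ind_dvd]; rfl

theorem vL_nil (E : Fm → Option Bool) (D : ℕ) (σ : ℕ → Fm) (τ : ℕ → List Fm) :
    ind K (vL 𝔉 p v E D σ τ .nil) = 1 := by
  funext x; simp [ind, vL, LSch.valF]

theorem vL_cons (E : Fm → Option Bool) (D : ℕ) (σ : ℕ → Fm) (τ : ℕ → List Fm) (s : FSch)
    (l : LSch) :
    ind K (vL 𝔉 p v E D σ τ (.cons s l)) =
      (1 - ind K (vF 𝔉 p v E D σ τ s)) * ind K (vL 𝔉 p v E D σ τ l) := by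
  rw [← ind_not, ← ind_and]; rfl

theorem vL_app (E : Fm → Option Bool) (D : ℕ) (σ : ℕ → Fm) (τ : ℕ → List Fm) (j : ℕ)
    (l : LSch) :
    ind K (vL 𝔉 p v E D σ τ (.app j l)) =
      ind K (fun x => betaF 𝔉 p v E D τ x j) * ind K (vL 𝔉 p v E D σ τ l) := by
  rw [← ind_and]; rfl

theorem cL_cons (E : Fm → Option Bool) (D : ℕ) (σ : ℕ → Fm) (τ : ℕ → List Fm) (s : FSch)
    (l : LSch) :
    (fun x => ((cL 𝔉 p v E D σ τ (.cons s l) x : ℕ) : K)) =
      ind K (vF 𝔉 p v E D σ τ s) + (fun x => ((cL 𝔉 p v E D σ τ l x : ℕ) : K)) := by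
  funext x
  by_cases h : vF 𝔉 p v E D σ τ s x = true
  · have h' := h
    simp only [vF] at h'
    simp [cL, LSch.valC, ind, h, h']
  · have h' := h
    simp only [vF] at h'
    simp [cL, LSch.valC, ind, h, h']

theorem cL_app (E : Fm → Option Bool) (D : ℕ) (σ : ℕ → Fm) (τ : ℕ → List Fm) (j : ℕ)
    (l : LSch) :
    (fun x => ((cL 𝔉 p v E D σ τ (.app j l) x : ℕ) : K)) =
      (fun x => ((cntT p E (v x) (τ j) : ℕ) : K)) +
        (fun x => ((cL 𝔉 p v E D σ τ l x : ℕ) : K)) := by
  funext x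
  simp [cL, LSch.valC]

theorem cntT_fun_cons (E : Fm → Option Bool) (A : Fm) (l : List Fm) :
    (fun x => ((cntT p E (v x) (A :: l) : ℕ) : K)) =
      qf K p v E A + (fun x => ((cntT p E (v x) l : ℕ) : K)) := by
  funext x
  by_cases h : ev p E (v x) A = true <;> simp [cntT_cons, qf, ind, h]

theorem cntT_fun_append (E : Fm → Option Bool) (l l' : List Fm) :
    (fun x => ((cntT p E (v x) (l ++ l') : ℕ) : K)) =
      (fun x => ((cntT p E (v x) l : ℕ) : K)) + (fun x => ((cntT p E (v x) l' : ℕ) : K)) := by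
  funext x
  simp [cntT_append]

theorem allF_fun_cons (E : Fm → Option Bool) (A : Fm) (l : List Fm) :
    ind K (fun x => allF p E (v x) (A :: l)) =
      (1 - qf K p v E A) * ind K (fun x => allF p E (v x) l) := by
  rw [qf, ← ind_not, ← ind_and]; rfl

theorem allF_fun_append (E : Fm → Option Bool) (l l' : List Fm) :
    ind K (fun x => allF p E (v x) (l ++ l')) =
      ind K (fun x => allF p E (v x) l) * ind K (fun x => allF p E (v x) l') := by
  rw [← ind_and]
  congr 1
  funext x
  exact allF_append _ _ _ _ _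

theorem cntT_mem {E : Fm → Option Bool} {D : ℕ} (l : List Fm)
    (h : ∀ B ∈ l, qf K p v E B ∈ 𝔉.LD D) :
    (fun x => ((cntT p E (v x) l : ℕ) : K)) ∈ 𝔉.LD D := by
  induction l with
  | nil => simpa [cntT] using (𝔉.const_mem (0 : K) D)
  | cons A l ih =>
    rw [cntT_fun_cons]
    exact Submodule.add_mem _ (h A (by simp)) (ih (fun B hB => h B (by simp [hB])))

theorem beta_mem (E : Fm → Option Bool) (D : ℕ) (τ : ℕ → List Fm) (j : ℕ) :
    ind K (fun x => betaF 𝔉 p v E D τ x j) ∈ 𝔉.LD D := by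
  by_cases h : ind K (fun x => allF p E (v x) (τ j)) ∈ 𝔉.LD D
  · have : (fun x => betaF 𝔉 p v E D τ x j) = (fun x => allF p E (v x) (τ j)) := by
      funext x; simp [betaF, h]
    rw [this]; exact h
  · have : (fun x => betaF 𝔉 p v E D τ x j) = (fun _ => false) := by
      funext x; simp [betaF, h]
    rw [this]; exact 𝔉.const_mem _ _

/-- The hypotheses of the simulation: `S` is a set of formulas closed under subformulas all
of whose members compute functions of degree at most `D`. -/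
structure SimHyp (𝔉 : Filt X K) (p : ℕ) (v : X → ℕ → Bool) (S : Set Fm) (E : Fm → Option Bool)
    (Ax : Set (X → K)) (w D : ℕ) : Prop where
  sub : ∀ A ∈ S, ∀ B, Fm.IsSub B A → B ∈ S
  deg : ∀ A ∈ S, rf K p v E A ∈ 𝔉.LD D
  orr : ∀ (l : List Fm), Fm.orL l ∈ S → (∃ B ∈ l, E B = some true) ∨
    ∀ l' : List Fm, (∀ B ∈ l', B ∈ l) → ind K (fun x => allF p E (v x) l') ∈ 𝔉.LD D
  asg : ∀ A b, E A = some b → Der 𝔉 Ax w (rf K p v E A - ind K (fun _ => b))

variable {S : Set Fm} {E : Fm → Option Bool} {Ax : Set (X → K)} {w D : ℕ}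

theorem SimHyp.qdeg (H : SimHyp 𝔉 p v S E Ax w D) {A : Fm} (hA : A ∈ S) :
    qf K p v E A ∈ 𝔉.LD D := qf_mem_of_rf_mem (H.deg A hA)

theorem SimHyp.qr (H : SimHyp 𝔉 p v S E Ax w D) (A : Fm) :
    Der 𝔉 Ax w (qf K p v E A - rf K p v E A) := by
  rcases hE : E A with _ | b
  · rw [qf_of_none hE, sub_self]; exact Der.zero
  · rw [qf_of_some hE]
    have := (H.asg A b hE).neg
    simpa using this

theorem isSub_orL {l : List Fm} {B : Fm} (h : B ∈ l) : Fm.IsSub B (Fm.orL l) := by
  obtain ⟨i, rfl⟩ := List.get_of_mem h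
  exact Fm.IsSub.or i Fm.IsSub.refl

theorem isSub_modL {l : List Fm} {B : Fm} (h : B ∈ l) : Fm.IsSub B (Fm.modL l) := by
  obtain ⟨i, rfl⟩ := List.get_of_mem h
  exact Fm.IsSub.mod i Fm.IsSub.refl

mutual
theorem SimHyp.vF_mem [hp : Fact p.Prime] [CharP K p] (H : SimHyp 𝔉 p v S E Ax w D)
    (σ : ℕ → Fm) (τ : ℕ → List Fm) :
    (s : FSch) → s.inst σ τ ∈ S → ind K (vF 𝔉 p v E D σ τ s) ∈ 𝔉.LD (s.deg p * D)
  | .mv i => fun h => by
      have : ind K (vF 𝔉 p v E D σ τ (.mv i)) = qf K p v E (σ i) := rfl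
      rw [this, FSch.deg, one_mul]
      exact H.qdeg h
  | .neg s => fun h => by
      rw [vF_neg, FSch.deg]
      have h1 : s.inst σ τ ∈ S := H.sub _ h _ (Fm.IsSub.neg Fm.IsSub.refl)
      exact Submodule.sub_mem _ (𝔉.one_mem' _) (H.vF_mem σ τ s h1)
  | .or l => fun h => by
      rw [vF_or, FSch.deg]
      have h1 : ∀ B ∈ l.inst σ τ, B ∈ S := fun B hB => H.sub _ h _ (isSub_orL hB)
      exact Submodule.sub_mem _ (𝔉.one_mem' _) (H.vL_mem σ τ l h1)
  | .mod l => fun h => by
      rw [vF_mod, FSch.deg]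
      have h1 : ∀ B ∈ l.inst σ τ, B ∈ S := fun B hB => H.sub _ h _ (isSub_modL hB)
      refine Submodule.sub_mem _ (𝔉.one_mem' _) ?_
      refine 𝔉.mono ?_ (𝔉.pow_mem (H.cL_mem σ τ l h1) (p - 1))
      rw [mul_assoc]
      exact Nat.mul_le_mul_right _ (by omega)
theorem SimHyp.vL_mem [hp : Fact p.Prime] [CharP K p] (H : SimHyp 𝔉 p v S E Ax w D)
    (σ : ℕ → Fm) (τ : ℕ → List Fm) :
    (l : LSch) → (∀ B ∈ l.inst σ τ, B ∈ S) → ind K (vL 𝔉 p v E D σ τ l) ∈ 𝔉.LD (l.deg p * D)
  | .nil => fun h => by rw [vL_nil]; exact 𝔉.one_mem' _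
  | .cons s l => fun h => by
      rw [vL_cons, LSch.deg, add_mul]
      rw [LSch.inst] at h
      exact 𝔉.mul_mem (Submodule.sub_mem _ (𝔉.one_mem' _) (H.vF_mem σ τ s (h _ (by simp))))
        (H.vL_mem σ τ l (fun B hB => h B (by simp [hB])))
  | .app j l => fun h => by
      rw [vL_app, LSch.deg, add_mul, one_mul]
      rw [LSch.inst] at h
      exact 𝔉.mul_mem (beta_mem _ _ _ _) (H.vL_mem σ τ l (fun B hB => h B (by simp [hB])))
theorem SimHyp.cL_mem [hp : Fact p.Prime] [CharP K p] (H : SimHyp 𝔉 p v S E Ax w D)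
    (σ : ℕ → Fm) (τ : ℕ → List Fm) :
    (l : LSch) → (∀ B ∈ l.inst σ τ, B ∈ S) →
      (fun x => ((cL 𝔉 p v E D σ τ l x : ℕ) : K)) ∈ 𝔉.LD (l.deg p * D)
  | .nil => fun h => by
      have : (fun x => ((cL 𝔉 p v E D σ τ .nil x : ℕ) : K)) = (fun _ => (0 : K)) := by
        funext x; simp [cL, LSch.valC]
      rw [this]; exact 𝔉.const_mem _ _
  | .cons s l => fun h => by
      rw [cL_cons, LSch.deg]
      rw [LSch.inst] at h
      refine Submodule.add_mem _ (𝔉.mono ?_ (H.vF_mem σ τ s (h _ (by simp))))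
        (𝔉.mono ?_ (H.cL_mem σ τ l (fun B hB => h B (by simp [hB]))))
      · exact Nat.mul_le_mul_right _ (Nat.le_add_right _ _)
      · exact Nat.mul_le_mul_right _ (Nat.le_add_left _ _)
  | .app j l => fun h => by
      rw [cL_app, LSch.deg]
      rw [LSch.inst] at h
      refine Submodule.add_mem _ (𝔉.mono ?_ (cntT_mem (τ j)
        (fun B hB => H.qdeg (h B (by simp [hB])))))
        (𝔉.mono ?_ (H.cL_mem σ τ l (fun B hB => h B (by simp [hB]))))
      · nlinarith [Nat.zero_le (l.deg p * D)]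
      · exact Nat.mul_le_mul_right _ (Nat.le_add_left _ _)
end

mutual
theorem SimHyp.diff [hp : Fact p.Prime] [CharP K p] (H : SimHyp 𝔉 p v S E Ax w D)
    (σ : ℕ → Fm) (τ : ℕ → List Fm) :
    (s : FSch) → s.inst σ τ ∈ S → s.need p * D ≤ w →
      Der 𝔉 Ax w (qf K p v E (s.inst σ τ) - ind K (vF 𝔉 p v E D σ τ s))
  | .mv i => fun h hw => by
      have : ind K (vF 𝔉 p v E D σ τ (.mv i)) = qf K p v E (σ i) := rfl
      rw [this, FSch.inst, sub_self]; exact Der.zero
  | .neg s => fun h hw => by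
      rw [FSch.need] at hw
      have h1 : s.inst σ τ ∈ S := H.sub _ h _ (Fm.IsSub.neg Fm.IsSub.refl)
      have h2 := H.diff σ τ s h1 hw
      have h3 := H.qr (FSch.inst σ τ (.neg s))
      have e : qf K p v E (FSch.inst σ τ (.neg s)) - ind K (vF 𝔉 p v E D σ τ (.neg s)) =
          (qf K p v E (FSch.inst σ τ (.neg s)) - rf K p v E (FSch.inst σ τ (.neg s))) -
          (qf K p v E (s.inst σ τ) - ind K (vF 𝔉 p v E D σ τ s)) := by
        rw [vF_neg]
        have : rf K p v E (FSch.inst σ τ (.neg s)) = 1 - qf K p v E (s.inst σ τ) := by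
          rw [FSch.inst, rf_neg]
        rw [this]; ring
      rw [e]
      exact Der.sub h3 h2
  | .or l => fun h hw => by
      rw [FSch.need] at hw
      have h1 : ∀ B ∈ l.inst σ τ, B ∈ S := fun B hB => H.sub _ h _ (isSub_orL hB)
      have h3 := H.qr (FSch.inst σ τ (.or l))
      have hr : rf K p v E (FSch.inst σ τ (.or l)) =
          1 - ind K (fun x => allF p E (v x) (l.inst σ τ)) := by
        rw [FSch.inst, ← ind_not]
        funext x
        simp only [rf, ind, rv_orL]
      have e : qf K p v E (FSch.inst σ τ (.or l)) - ind K (vF 𝔉 p v E D σ τ (.or l)) =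
          (qf K p v E (FSch.inst σ τ (.or l)) - rf K p v E (FSch.inst σ τ (.or l))) -
          (ind K (fun x => allF p E (v x) (l.inst σ τ)) - ind K (vL 𝔉 p v E D σ τ l)) := by
        rw [vF_or, hr]; ring
      rw [e]
      refine Der.sub h3 ?_
      rcases H.orr (l.inst σ τ) h with hk | hL
      · have h4 := H.killed' σ τ l h1 hw hk
        obtain ⟨B, hB, hBE⟩ := hk
        have h5 : ind K (fun x => allF p E (v x) (l.inst σ τ)) = 0 := by
          funext x
          have : allF p E (v x) (l.inst σ τ) = false := by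
            simp only [allF, List.all_eq_false]
            exact ⟨B, hB, by simp [ev_of_some hBE]⟩
          simp [ind, this]
        rw [h5, zero_sub]
        exact h4.neg
      · exact H.unkilled' σ τ _ hL l (fun B hB => hB) h1 hw
  | .mod l => fun h hw => by
      rw [FSch.need] at hw
      have h1 : ∀ B ∈ l.inst σ τ, B ∈ S := fun B hB => H.sub _ h _ (isSub_modL hB)
      have h3 := H.qr (FSch.inst σ τ (.mod l))
      have hr : rf K p v E (FSch.inst σ τ (.mod l)) =
          1 - (fun x => ((cntT p E (v x) (l.inst σ τ) : ℕ) : K)) ^ (p - 1) := by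
        rw [FSch.inst, ← ind_dvd]
        funext x
        simp only [rf, ind, rv_modL]
      have h4 := H.diffC σ τ l h1 (le_trans (Nat.mul_le_mul_right _ (by omega)) hw)
      have e : qf K p v E (FSch.inst σ τ (.mod l)) - ind K (vF 𝔉 p v E D σ τ (.mod l)) =
          (qf K p v E (FSch.inst σ τ (.mod l)) - rf K p v E (FSch.inst σ τ (.mod l))) -
          ((fun x => ((cntT p E (v x) (l.inst σ τ) : ℕ) : K)) ^ (p - 1) -
            (fun x => ((cL 𝔉 p v E D σ τ l x : ℕ) : K)) ^ (p - 1)) := by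
        rw [vF_mod, hr]; ring
      rw [e]
      refine Der.sub h3 ?_
      set a := (fun x => ((cntT p E (v x) (l.inst σ τ) : ℕ) : K)) with ha
      set b := (fun x => ((cL 𝔉 p v E D σ τ l x : ℕ) : K)) with hb
      have hamem : a ∈ 𝔉.LD ((l.deg p + 1) * D) :=
        𝔉.mono (by nlinarith [Nat.zero_le (l.deg p * D)])
          (cntT_mem _ (fun B hB => H.qdeg (h1 B hB)))
      have hbmem : b ∈ 𝔉.LD ((l.deg p + 1) * D) :=
        𝔉.mono (by nlinarith) (H.cL_mem σ τ l h1)
      have hg : (∑ i ∈ Finset.range (p - 1), a ^ i * b ^ (p - 1 - 1 - i)) ∈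
          𝔉.LD (p * ((l.deg p + 1) * D)) := by
        refine 𝔉.sum_mem _ _ _ (fun i hi => ?_)
        rw [Finset.mem_range] at hi
        refine 𝔉.mono ?_ (𝔉.mul_mem (𝔉.pow_mem hamem i) (𝔉.pow_mem hbmem (p - 1 - 1 - i)))
        rw [← add_mul]
        exact Nat.mul_le_mul_right _ (by omega)
      have e2 : a ^ (p - 1) - b ^ (p - 1) =
          (a - b) * (∑ i ∈ Finset.range (p - 1), a ^ i * b ^ (p - 1 - 1 - i)) := by
        rw [mul_comm]
        exact ((Commute.all a b).geom_sum₂_mul (p - 1)).symm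
      rw [e2]
      refine Der.mul h4 (Submodule.sub_mem _ hamem hbmem) hg (le_trans ?_ hw)
      nlinarith [Nat.zero_le (l.deg p * D), Nat.zero_le D, Nat.zero_le (l.need p * D),
        Nat.zero_le (p * ((l.deg p + 1) * D))]
theorem SimHyp.diffC [hp : Fact p.Prime] [CharP K p] (H : SimHyp 𝔉 p v S E Ax w D)
    (σ : ℕ → Fm) (τ : ℕ → List Fm) :
    (l : LSch) → (∀ B ∈ l.inst σ τ, B ∈ S) → l.need p * D ≤ w →
      Der 𝔉 Ax w ((fun x => ((cntT p E (v x) (l.inst σ τ) : ℕ) : K)) -
        (fun x => ((cL 𝔉 p v E D σ τ l x : ℕ) : K)))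
  | .nil => fun _ _ => by
      have : (fun x => ((cntT p E (v x) (LSch.inst σ τ .nil) : ℕ) : K)) -
        (fun x => ((cL 𝔉 p v E D σ τ .nil x : ℕ) : K)) = 0 := by
        funext x; simp [cL, LSch.valC, LSch.inst, cntT]
      rw [this]; exact Der.zero
  | .cons s l => fun h hw => by
      rw [LSch.inst] at h
      rw [LSch.need] at hw
      rw [LSch.inst, cL_cons, cntT_fun_cons]
      have h1 := H.diff σ τ s (h _ (by simp)) (le_trans (Nat.mul_le_mul_right _ (by omega)) hw)
      have h2 := H.diffC σ τ l (fun B hB => h B (by simp [hB]))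
        (le_trans (Nat.mul_le_mul_right _ (by omega)) hw)
      have := Der.add h1 h2
      convert this using 1
      ring
  | .app j l => fun h hw => by
      rw [LSch.inst] at h
      rw [LSch.need] at hw
      rw [LSch.inst, cL_app, cntT_fun_append]
      have h2 := H.diffC σ τ l (fun B hB => h B (by simp [hB]))
        (le_trans (Nat.mul_le_mul_right _ (by omega)) hw)
      convert h2 using 1
      ring
theorem SimHyp.killed' [hp : Fact p.Prime] [CharP K p] (H : SimHyp 𝔉 p v S E Ax w D)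
    (σ : ℕ → Fm) (τ : ℕ → List Fm) :
    (l : LSch) → (∀ B ∈ l.inst σ τ, B ∈ S) → l.need p * D ≤ w →
      (∃ B ∈ l.inst σ τ, E B = some true) → Der 𝔉 Ax w (ind K (vL 𝔉 p v E D σ τ l))
  | .nil => fun _ _ hk => by
      obtain ⟨B, hB, _⟩ := hk
      simp [LSch.inst] at hB
  | .cons s l => fun h hw hk => by
      rw [LSch.inst] at h hk
      rw [LSch.need] at hw
      have hs : s.inst σ τ ∈ S := h _ (by simp)
      have hl : ∀ B ∈ l.inst σ τ, B ∈ S := fun B hB => h B (by simp [hB])
      have hsd := H.vF_mem σ τ s hs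
      have hld := H.vL_mem σ τ l hl
      rw [vL_cons]
      obtain ⟨B, hB, hBE⟩ := hk
      rcases List.mem_cons.1 hB with rfl | hB'
      · have h1 := H.diff σ τ s hs (le_trans (Nat.mul_le_mul_right _ (by omega)) hw)
        rw [qf_of_some hBE] at h1
        have h2 : ind K (fun _ : X => true) = 1 := by funext x; simp [ind]
        rw [h2] at h1
        refine Der.mul h1 (Submodule.sub_mem _ (𝔉.one_mem' _) hsd) hld (le_trans ?_ hw)
        nlinarith [Nat.zero_le (s.deg p * D), Nat.zero_le (l.deg p * D), Nat.zero_le D,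
          Nat.zero_le (s.need p * D), Nat.zero_le (l.need p * D)]
      · have h1 := H.killed' σ τ l hl (le_trans (Nat.mul_le_mul_right _ (by omega)) hw)
          ⟨B, hB', hBE⟩
        refine Der.mul_left h1 hld (Submodule.sub_mem _ (𝔉.one_mem' _) hsd) (le_trans ?_ hw)
        nlinarith [Nat.zero_le (s.deg p * D), Nat.zero_le (l.deg p * D), Nat.zero_le D,
          Nat.zero_le (s.need p * D), Nat.zero_le (l.need p * D)]
  | .app j l => fun h hw hk => by
      rw [LSch.inst] at h hk
      rw [LSch.need] at hw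
      have hl : ∀ B ∈ l.inst σ τ, B ∈ S := fun B hB => h B (by simp [hB])
      have hld := H.vL_mem σ τ l hl
      rw [vL_app]
      obtain ⟨B, hB, hBE⟩ := hk
      rcases List.mem_append.1 hB with hB' | hB'
      · have h1 : (fun x => allF p E (v x) (τ j)) = (fun _ => false) := by
          funext x
          simp only [allF, List.all_eq_false]
          refine ⟨B, hB', ?_⟩
          simp [ev_of_some hBE]
        have h2 : (fun x => betaF 𝔉 p v E D τ x j) = (fun _ => false) := by
          funext x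
          have h4 : allF p E (v x) (τ j) = false := congrFun h1 x
          simp [betaF, h4]
        rw [h2]
        have h3 : ind K (fun _ : X => false) = 0 := by funext x; simp [ind]
        rw [h3, zero_mul]
        exact Der.zero
      · have h1 := H.killed' σ τ l hl (le_trans (Nat.mul_le_mul_right _ (by omega)) hw)
          ⟨B, hB', hBE⟩
        refine Der.mul_left h1 hld (beta_mem _ _ _ _) (le_trans ?_ hw)
        nlinarith [Nat.zero_le (l.deg p * D), Nat.zero_le D, Nat.zero_le (l.need p * D)]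
theorem SimHyp.unkilled' [hp : Fact p.Prime] [CharP K p] (H : SimHyp 𝔉 p v S E Ax w D)
    (σ : ℕ → Fm) (τ : ℕ → List Fm)
    (L : List Fm)
    (hL : ∀ l' : List Fm, (∀ B ∈ l', B ∈ L) → ind K (fun x => allF p E (v x) l') ∈ 𝔉.LD D) :
    (l : LSch) → (∀ B ∈ l.inst σ τ, B ∈ L) → (∀ B ∈ l.inst σ τ, B ∈ S) → l.need p * D ≤ w →
      Der 𝔉 Ax w (ind K (fun x => allF p E (v x) (l.inst σ τ)) -
        ind K (vL 𝔉 p v E D σ τ l))
  | .nil => fun _ _ _ => by
      rw [vL_nil, LSch.inst, ind_allF_nil, sub_self]; exact Der.zero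
  | .cons s l => fun hLl h hw => by
      rw [LSch.inst] at h hLl
      rw [LSch.need] at hw
      rw [LSch.inst, vL_cons, allF_fun_cons]
      have hs : s.inst σ τ ∈ S := h _ (by simp)
      have hl : ∀ B ∈ l.inst σ τ, B ∈ S := fun B hB => h B (by simp [hB])
      have hsd := H.vF_mem σ τ s hs
      have hld := H.vL_mem σ τ l hl
      have hq := H.qdeg hs
      have ha := hL (l.inst σ τ) (fun B hB => hLl B (by simp [hB]))
      have h1 := H.diff σ τ s hs (le_trans (Nat.mul_le_mul_right _ (by omega)) hw)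
      have h2 := H.unkilled' σ τ L hL l (fun B hB => hLl B (by simp [hB])) hl
        (le_trans (Nat.mul_le_mul_right _ (by omega)) hw)
      have e : (1 - qf K p v E (s.inst σ τ)) * ind K (fun x => allF p E (v x) (l.inst σ τ)) -
          (1 - ind K (vF 𝔉 p v E D σ τ s)) * ind K (vL 𝔉 p v E D σ τ l) =
          (ind K (fun x => allF p E (v x) (l.inst σ τ)) - ind K (vL 𝔉 p v E D σ τ l)) *
            (1 - qf K p v E (s.inst σ τ)) -
          (qf K p v E (s.inst σ τ) - ind K (vF 𝔉 p v E D σ τ s)) *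
            ind K (vL 𝔉 p v E D σ τ l) := by ring
      rw [e]
      have ha' : ind K (fun x => allF p E (v x) (l.inst σ τ)) - ind K (vL 𝔉 p v E D σ τ l) ∈
          𝔉.LD ((l.deg p + 1) * D) :=
        Submodule.sub_mem _ (𝔉.mono (by nlinarith [Nat.zero_le (l.deg p * D)]) ha)
          (𝔉.mono (by nlinarith) hld)
      have hq' : qf K p v E (s.inst σ τ) - ind K (vF 𝔉 p v E D σ τ s) ∈
          𝔉.LD ((s.deg p + 1) * D) :=
        Submodule.sub_mem _ (𝔉.mono (by nlinarith [Nat.zero_le (s.deg p * D)]) hq)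
          (𝔉.mono (by nlinarith) hsd)
      refine Der.sub (Der.mul h2 ha' (Submodule.sub_mem _ (𝔉.one_mem' _) hq)
        (le_trans ?_ hw)) (Der.mul h1 hq' hld (le_trans ?_ hw))
      · nlinarith [Nat.zero_le (s.deg p * D), Nat.zero_le (l.deg p * D), Nat.zero_le D,
          Nat.zero_le (s.need p * D), Nat.zero_le (l.need p * D)]
      · nlinarith [Nat.zero_le (s.deg p * D), Nat.zero_le (l.deg p * D), Nat.zero_le D,
          Nat.zero_le (s.need p * D), Nat.zero_le (l.need p * D)]
  | .app j l => fun hLl h hw => by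
      rw [LSch.inst] at h hLl
      rw [LSch.need] at hw
      rw [LSch.inst, vL_app, allF_fun_append]
      have hl : ∀ B ∈ l.inst σ τ, B ∈ S := fun B hB => h B (by simp [hB])
      have hld := H.vL_mem σ τ l hl
      have ha := hL (l.inst σ τ) (fun B hB => hLl B (by simp [hB]))
      have hj := hL (τ j) (fun B hB => hLl B (by simp [hB]))
      have h2 := H.unkilled' σ τ L hL l (fun B hB => hLl B (by simp [hB])) hl
        (le_trans (Nat.mul_le_mul_right _ (by omega)) hw)
      have hb : (fun x => betaF 𝔉 p v E D τ x j) = (fun x => allF p E (v x) (τ j)) := by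
        funext x; simp [betaF, hj]
      rw [hb, ← mul_sub]
      have ha' : ind K (fun x => allF p E (v x) (l.inst σ τ)) - ind K (vL 𝔉 p v E D σ τ l) ∈
          𝔉.LD ((l.deg p + 1) * D) :=
        Submodule.sub_mem _ (𝔉.mono (by nlinarith [Nat.zero_le (l.deg p * D)]) ha)
          (𝔉.mono (by nlinarith) hld)
      refine Der.mul_left h2 ha' hj (le_trans ?_ hw)
      nlinarith [Nat.zero_le (l.deg p * D), Nat.zero_le D, Nat.zero_le (l.need p * D)]
end

theorem cntT_of_allF {E : Fm → Option Bool} {u : ℕ → Bool} (l : List Fm)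
    (h : allF p E u l = true) : cntT p E u l = 0 := by
  induction l with
  | nil => rfl
  | cons A l ih =>
    rw [allF_cons, Bool.and_eq_true] at h
    rw [cntT_cons, ih h.2]
    have : ev p E u A = false := by simpa using h.1
    rw [this]; rfl

/-- Budget needed by a rule. -/
def Rule.need (p : ℕ) (r : Rule) : ℕ :=
  (r.prems.map (fun s => s.need p + s.deg p + 1)).sum + (r.concl.need p + r.concl.deg p + 1)

theorem SimHyp.prods [hp : Fact p.Prime] [CharP K p] (H : SimHyp 𝔉 p v S E Ax w D)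
    (σ : ℕ → Fm) (τ : ℕ → List Fm) (ps : List FSch) (hS : ∀ s ∈ ps, s.inst σ τ ∈ S)
    (hprem : ∀ s ∈ ps, Der 𝔉 Ax w (1 - qf K p v E (s.inst σ τ)))
    (hw : (ps.map (fun s => s.need p + s.deg p + 1)).sum * D ≤ w) :
    Der 𝔉 Ax w (1 - (ps.map (fun s => ind K (vF 𝔉 p v E D σ τ s))).prod) ∧
    (ps.map (fun s => ind K (vF 𝔉 p v E D σ τ s))).prod ∈
      𝔉.LD ((ps.map (fun s => s.need p + s.deg p + 1)).sum * D) := by
  induction ps with
  | nil => exact ⟨by simpa using Der.zero, by simpa using 𝔉.one_mem⟩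
  | cons s ps ih =>
    rw [List.map_cons, List.sum_cons] at hw
    have hs : s.inst σ τ ∈ S := hS s (by simp)
    obtain ⟨h1, h2⟩ := ih (fun t ht => hS t (by simp [ht])) (fun t ht => hprem t (by simp [ht]))
      (le_trans (Nat.mul_le_mul_right _ (by omega)) hw)
    have h3 := H.diff σ τ s hs (le_trans (Nat.mul_le_mul_right _ (by omega)) hw)
    have h4 := hprem s (by simp)
    have h5 := H.vF_mem σ τ s hs
    rw [List.map_cons, List.prod_cons, List.map_cons, List.sum_cons]
    refine ⟨?_, ?_⟩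
    · have e : 1 - ind K (vF 𝔉 p v E D σ τ s) *
          (ps.map (fun s => ind K (vF 𝔉 p v E D σ τ s))).prod =
          ((1 - qf K p v E (s.inst σ τ)) +
            (qf K p v E (s.inst σ τ) - ind K (vF 𝔉 p v E D σ τ s))) +
          (1 - (ps.map (fun s => ind K (vF 𝔉 p v E D σ τ s))).prod) *
            ind K (vF 𝔉 p v E D σ τ s) := by ring
      rw [e]
      refine Der.add (Der.add h4 h3) (Der.mul h1 (Submodule.sub_mem _ (𝔉.one_mem' _) h2) h5
        (le_trans ?_ hw))
      rw [← add_mul]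
      exact Nat.mul_le_mul_right _ (by omega)
    · refine 𝔉.mono ?_ (𝔉.mul_mem h5 h2)
      rw [← add_mul]
      exact Nat.mul_le_mul_right _ (by omega)

theorem SimHyp.rule [hp : Fact p.Prime] [CharP K p] (H : SimHyp 𝔉 p v S E Ax w D)
    {r : Rule} (hr : r.Sound p) (σ : ℕ → Fm) (τ : ℕ → List Fm)
    (hS : ∀ s ∈ r.prems, s.inst σ τ ∈ S) (hc : r.concl.inst σ τ ∈ S)
    (hprem : ∀ s ∈ r.prems, Der 𝔉 Ax w (1 - qf K p v E (s.inst σ τ)))
    (hw : r.need p * D ≤ w) :
    Der 𝔉 Ax w (1 - qf K p v E (r.concl.inst σ τ)) := by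
  unfold Rule.need at hw
  obtain ⟨h1, h2⟩ := H.prods σ τ r.prems hS hprem
    (le_trans (Nat.mul_le_mul_right _ (by omega)) hw)
  have h3 := H.diff σ τ r.concl hc (le_trans (Nat.mul_le_mul_right _ (by omega)) hw)
  have h4 := H.vF_mem σ τ r.concl hc
  set P := (r.prems.map (fun s => ind K (vF 𝔉 p v E D σ τ s))).prod with hP
  have h5 : (1 - ind K (vF 𝔉 p v E D σ τ r.concl)) * P = 0 := by
    funext x
    by_cases hx : vF 𝔉 p v E D σ τ r.concl x = true
    · simp [ind, hx]
    · have hex : ∃ s ∈ r.prems, vF 𝔉 p v E D σ τ s x = false := by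
        by_contra hcon
        push Not at hcon
        apply hx
        refine hr.val hp.out.pos _ _ _ ?_ (fun s hs => (by
          have := hcon s hs
          simpa using this : vF 𝔉 p v E D σ τ s x = true))
        intro j hj
        simp only [betaF] at hj
        split_ifs at hj with h
        exact cntT_of_allF _ hj
      obtain ⟨s, hs, hsx⟩ := hex
      have hPx : P x = 0 := by
        have e : P x = (r.prems.map (fun s => ind K (vF 𝔉 p v E D σ τ s) x)).prod := by
          rw [hP]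
          have := map_list_prod (Pi.evalMonoidHom (fun _ : X => K) x)
            (r.prems.map (fun s => ind K (vF 𝔉 p v E D σ τ s)))
          simp only [Pi.evalMonoidHom_apply, List.map_map] at this
          rw [this]
          rfl
        rw [e]
        apply List.prod_eq_zero
        rw [List.mem_map]
        exact ⟨s, hs, by simp [ind, hsx]⟩
      simp [hPx]
  have e : 1 - qf K p v E (r.concl.inst σ τ) =
      (1 - P) * (1 - ind K (vF 𝔉 p v E D σ τ r.concl)) -
      (qf K p v E (r.concl.inst σ τ) - ind K (vF 𝔉 p v E D σ τ r.concl)) := by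
    have : (1 - P) * (1 - ind K (vF 𝔉 p v E D σ τ r.concl)) =
      (1 - ind K (vF 𝔉 p v E D σ τ r.concl)) - (1 - ind K (vF 𝔉 p v E D σ τ r.concl)) * P := by
      ring
    rw [this, h5]; ring
  rw [e]
  refine Der.sub (Der.mul h1 (Submodule.sub_mem _ (𝔉.one_mem' _) h2)
    (Submodule.sub_mem _ (𝔉.one_mem' _) h4) (le_trans ?_ hw)) h3
  rw [← add_mul]
  exact Nat.mul_le_mul_right _ (by omega)

/-- Simulation of a derivation. -/
theorem SimHyp.derivation [hp : Fact p.Prime] [CharP K p] (H : SimHyp 𝔉 p v S E Ax w D)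
    {R : List Rule} (hR : ∀ r ∈ R, r.Sound p) {F : List Clause}
    (hF : ∀ C ∈ F, Der 𝔉 Ax w (1 - qf K p v E (clauseFm C)))
    (hw : ∀ r ∈ R, r.need p * D ≤ w) {π : List Fm} (hπ : Derivation R F π)
    (hS : ∀ A ∈ π, A ∈ S) : ∀ A ∈ π, Der 𝔉 Ax w (1 - qf K p v E A) := by
  induction hπ with
  | nil => intro A hA; simp at hA
  | @clause π C hd hC ih =>
    intro A hA
    rcases List.mem_cons.1 hA with rfl | hA
    · exact hF C hC
    · exact ih (fun B hB => hS B (by simp [hB])) A hA
  | @rule π r σ τ hd hr hprem ih =>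
    have ih' := ih (fun B hB => hS B (by simp [hB]))
    intro A hA
    rcases List.mem_cons.1 hA with rfl | hA
    · exact H.rule (hR r hr) σ τ (fun s hs => hS _ (by simp [hprem s hs])) (hS _ (by simp))
        (fun s hs => ih' _ (hprem s hs)) (hw r hr)
    · exact ih' A hA

/-- A refutation is impossible under the simulation hypotheses. -/
theorem SimHyp.no_refutation [hp : Fact p.Prime] [CharP K p] (H : SimHyp 𝔉 p v S E Ax w D)
    {R : List Rule} (hR : ∀ r ∈ R, r.Sound p) {F : List Clause}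
    (hF : ∀ C ∈ F, Der 𝔉 Ax w (1 - qf K p v E (clauseFm C)))
    (hw : ∀ r ∈ R, r.need p * D ≤ w) {π : List Fm} (hπ : Refutation R F π)
    (hS : ∀ A ∈ π, A ∈ S) : Der 𝔉 Ax w 1 := by
  have h1 := H.derivation hR hF hw hπ.1 hS _ hπ.2
  have h2 := H.qr (Fm.orL [])
  have h3 : rf K p v E (Fm.orL []) = 0 := by
    funext x
    simp [rf, ind, rv_orL, allF]
  rw [h3, sub_zero] at h2
  have := Der.add h1 h2
  simpa using this

end Sim

end Pool.Agent.Helper21.AC0p
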