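import Pool.Agent.Helper21.AC0p.FewDisj

/-!
A superlinear lower bound on the size of all refutations of bounded depth.
-/

namespace Pool.Agent.Helper21.AC0p

open scoped BigOperators Classical

theorem prodT_const_le {T : ℕ} {y : ℝ} (hT : (T : ℝ) ≤ y) (j : ℕ) :
    (prodT (fun _ => T) j : ℝ) ≤ y ^ j := by
  induction j with
  | zero => simp [prodT]
  | succ j ih =>
    rw [prodT, pow_succ]
    push_cast
    rw [mul_comm]
    have : (0 : ℝ) ≤ T := Nat.cast_nonneg _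
    have h2 : (0 : ℝ) ≤ prodT (fun _ => T) j := Nat.cast_nonneg _
    exact mul_le_mul ih hT this (h2.trans ih)

set_option maxHeartbeats 4000000 in
/-- The superlinear size lower bound. -/
theorem superlinear (p : ℕ) (hp : p.Prime) :
    ∃ (c : ℕ) (F : ℕ → List Clause),
      (∀ n, (∀ C ∈ F n, C.length ≤ c ∧ ∀ l ∈ C, l.1 < n) ∧ (F n).length ≤ c * (n + 1) ∧
        Unsat (F n)) ∧
      ∀ R : List Rule, (∀ r ∈ R, r.Sound p) → ∀ d h : ℕ, 1 ≤ h → ∀ η : ℝ, 0 < η →
        ∃ ε : ℝ, 0 < ε ∧ ∃ n₀ : ℕ, ∀ n : ℕ, n₀ ≤ n → ∀ π : List Fm, Refutation R (F n) π →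
          ∀ t : ℕ, (t : ℝ) ≤ (n : ℝ) ^ ε → (∀ A ∈ π, A.depth ≤ d ∧ A.wideDepth t ≤ h) →
            (n : ℝ) ^ (1 + 1 / (h : ℝ) - η) ≤ psize π := by
  have : Fact p.Prime := ⟨hp⟩
  obtain ⟨c, F, hc1, hF, hhard⟩ := exists_hard p
  refine ⟨c, F, hF, ?_⟩
  intro R hR d h hh η hη
  -- exponents
  set ε : ℝ := min (η / (4 * d + 3)) (1 / (4 * d + 2)) with hε
  have hε0 : 0 < ε := by
    rw [hε]; apply lt_min <;> positivity
  have hε1 : (4 * d + 3) * ε ≤ η := by
    have : ε ≤ η / (4 * d + 3) := min_le_left _ _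
    rwa [le_div_iff₀ (by positivity), mul_comm] at this
  have hε2 : (4 * d + 2) * ε ≤ 1 := by
    have : ε ≤ 1 / (4 * d + 2) := min_le_right _ _
    rwa [le_div_iff₀ (by positivity), mul_comm] at this
  have hh1 : (1 : ℝ) ≤ h := by exact_mod_cast hh
  set a : ℝ := 1 / (h : ℝ) with ha
  have ha0 : 0 < a := by rw [ha]; positivity
  have ha1 : a ≤ 1 := by rw [ha, div_le_one (by linarith)]; linarith
  have hamul : a * h = 1 := by
    rw [ha]; exact one_div_mul_cancel (by linarith)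
  have hd0 : (0 : ℝ) ≤ d := Nat.cast_nonneg d
  set τ : ℝ := a * (1 - (2 * d + 1) * ε) with hτ
  have hδ1 : (2 * d + 1) * ε ≤ 1 / 2 := by nlinarith
  have hτ0 : 0 ≤ τ := by
    rw [hτ]
    apply mul_nonneg ha0.le
    linarith
  -- constants
  set needs : ℕ := (R.map (fun r => r.need p)).sum with hneeds
  set Cst : ℝ := (c + 2 + needs) * 2 ^ h + h * (p ^ d * (d + 1) + 1 + 2 ^ h) with hCst
  have hneeds0 : (0 : ℝ) ≤ needs := Nat.cast_nonneg _
  have hc00 : (0 : ℝ) ≤ c := Nat.cast_nonneg _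
  have hCst0 : 0 < Cst := by
    rw [hCst]
    positivity
  -- large n
  have hlarge : ∀ᶠ n : ℕ in Filter.atTop, (2 : ℝ) ≤ (n : ℝ) ^ ε ∧ (p : ℝ) ≤ (n : ℝ) ^ ε ∧
      Cst * (2 * c) ≤ (n : ℝ) ^ ε ∧ (2 * c : ℝ) ≤ n ∧ ((c + 1) * c : ℝ) ≤ n ∧ (1 : ℝ) ≤ n ∧
      (n : ℝ) ^ (2 : ℝ) < Real.exp ((n : ℝ) ^ ε) := by
    have h1 : Filter.Tendsto (fun n : ℕ => ((n : ℝ)) ^ ε) Filter.atTop Filter.atTop :=
      (tendsto_rpow_atTop hε0).comp tendsto_natCast_atTop_atTop
    have h2 : Filter.Tendsto (fun n : ℕ => ((n : ℝ))) Filter.atTop Filter.atTop :=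
      tendsto_natCast_atTop_atTop
    have h3 : ∀ᶠ n : ℕ in Filter.atTop, ((n : ℝ)) ^ (2 : ℝ) < Real.exp ((n : ℝ) ^ ε) := by
      have h4 : Filter.Tendsto (fun y : ℝ => Real.exp (1 * y) / y ^ (2 / ε)) Filter.atTop
          Filter.atTop := tendsto_exp_mul_div_rpow_atTop (2 / ε) 1 one_pos
      have h5 := h4.comp h1
      filter_upwards [h5.eventually_gt_atTop 1, h2.eventually_ge_atTop 1] with n a1 a2
      simp only [Function.comp_apply, one_mul] at a1
      have hn0 : (0 : ℝ) < n := by linarith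
      rw [← Real.rpow_mul hn0.le, mul_div_cancel₀ _ hε0.ne'] at a1
      rwa [lt_div_iff₀ (Real.rpow_pos_of_pos hn0 _), one_mul] at a1
    filter_upwards [h1.eventually_ge_atTop 2, h1.eventually_ge_atTop (p : ℝ),
      h1.eventually_ge_atTop (Cst * (2 * c)), h2.eventually_ge_atTop (2 * c : ℝ),
      h2.eventually_ge_atTop ((c + 1) * c : ℝ), h2.eventually_ge_atTop 1, h3]
      with n a1 a2 a3 a4 a5 a6 a7
    exact ⟨a1, a2, a3, a4, a5, a6, a7⟩
  obtain ⟨n₀, hn₀⟩ := Filter.eventually_atTop.1 hlarge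
  refine ⟨ε, hε0, n₀, ?_⟩
  intro n hn π hπ t ht hdep
  obtain ⟨hx2, hxp, hxC, hx2c, hxcc, hx1, hxexp⟩ := hn₀ n hn
  by_contra hcon
  push Not at hcon
  set x : ℝ := (n : ℝ) with hx
  have hx0 : 0 < x := by linarith
  -- parameters
  set K0 : ℕ := max p (t + 1) with hK0
  have hK0x : (K0 : ℝ) ≤ x ^ (2 * ε) := by
    have e : x ^ (2 * ε) = x ^ ε * x ^ ε := by
      rw [← Real.rpow_add hx0]; ring_nf
    have hxe0 : 0 < x ^ ε := Real.rpow_pos_of_pos hx0 _
    rw [e, hK0]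
    push_cast
    apply max_le
    · nlinarith
    · nlinarith
  set D0 : ℝ := x ^ (2 * d * ε) with hD0
  have hK0d : ((K0 : ℝ)) ^ d ≤ D0 := by
    calc ((K0 : ℝ)) ^ d ≤ (x ^ (2 * ε)) ^ d := by gcongr
      _ = x ^ (2 * d * ε) := by
          rw [← Real.rpow_natCast, ← Real.rpow_mul hx0.le]; ring_nf
  set T : ℕ := ⌈x ^ τ⌉₊ with hT
  have hT1' : 1 ≤ T := by
    rw [hT, Nat.one_le_ceil_iff]; positivity
  have hTge : x ^ τ ≤ T := Nat.le_ceil _
  have hxτ0 : (0 : ℝ) < x ^ τ := Real.rpow_pos_of_pos hx0 _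
  have hTle : (T : ℝ) ≤ 2 * x ^ τ := by
    have h1 : (1 : ℝ) ≤ x ^ τ := Real.one_le_rpow hx1 hτ0
    have h2 := Nat.ceil_lt_add_one (a := x ^ τ) hxτ0.le
    linarith
  have hprod : ∀ j, (prodT (fun _ => T) j : ℝ) ≤ 2 ^ j * x ^ (τ * j) := by
    intro j
    refine (prodT_const_le hTle j).trans (le_of_eq ?_)
    rw [mul_pow, ← Real.rpow_natCast (x ^ τ), ← Real.rpow_mul hx0.le]
  set S : ℕ := psize π with hSdef
  set Cs : ℕ := p ^ d * ((d + 1) * S) with hCsdef
  set s : ℕ := ⌈x ^ ε * Cs / T⌉₊ with hs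
  set W : ℕ := n / c with hW
  have hc0 : 0 < c := hc1
  have hcr : (1 : ℝ) ≤ c := by exact_mod_cast hc1
  have hWx : x / (2 * c) ≤ W := by
    have h1 : (n : ℝ) / c - 1 ≤ (n / c : ℕ) := by
      have := Nat.lt_floor_add_one ((n : ℝ) / c)
      rw [Nat.floor_div_eq_div] at this
      linarith
    have h2 : x / (2 * c) ≤ x / c - 1 := by
      rw [div_le_iff₀ (by positivity)]
      have : (x / c - 1) * (2 * c) = 2 * x - 2 * c := by field_simp
      rw [this]; linarith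
    exact h2.trans h1
  have hWc : c ≤ W := by
    rw [hW, Nat.le_div_iff_mul_le hc0]
    have : ((c * c : ℕ) : ℝ) ≤ n := by push_cast; nlinarith
    exact_mod_cast this
  have hWn : c * W ≤ n := Nat.mul_div_le n c
  obtain ⟨H⟩ := hhard n W hWc hWn
  have hT1 : ∀ j : ℕ, 1 ≤ (fun _ : ℕ => T) j := fun _ => hT1'
  set wf : ℕ := (c + 2 + needs) * (K0 ^ d * prodT (fun _ => T) h) with hwf
  have hK0pos : 1 ≤ K0 := by rw [hK0]; exact le_max_of_le_right (by omega)
  have hK0dpos : 1 ≤ K0 ^ d := Nat.one_le_pow _ _ hK0pos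
  -- upper bounds
  have hDj : ∀ j, j ≤ h → ((K0 ^ d * prodT (fun _ => T) j : ℕ) : ℝ) ≤ 2 ^ h * x ^ (1 - ε) := by
    intro j hj
    have hjr : (j : ℝ) ≤ h := by exact_mod_cast hj
    push_cast
    calc ((K0 : ℝ)) ^ d * (prodT (fun _ => T) j : ℝ) ≤ D0 * (2 ^ h * x ^ (τ * h)) := by
          gcongr
          refine (hprod j).trans ?_
          gcongr
          norm_num
      _ = 2 ^ h * (D0 * x ^ (τ * h)) := by ring
      _ = 2 ^ h * x ^ (1 - ε) := by
          rw [hD0, ← Real.rpow_add hx0]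
          congr 2
          have : τ * h = (1 - (2 * d + 1) * ε) * (a * h) := by rw [hτ]; ring
          rw [this, hamul]; ring
  have hp0 : (0 : ℝ) < p := by exact_mod_cast hp.pos
  have hs_le : (s : ℝ) ≤ (p ^ d * (d + 1) + 1) * x ^ (1 - ε) := by
    have h3 := Nat.ceil_lt_add_one (a := x ^ ε * Cs / T) (by positivity)
    have h6 : (Cs : ℝ) ≤ p ^ d * (d + 1) * x ^ (1 + a - η) := by
      rw [hCsdef]
      push_cast
      rw [← mul_assoc]
      gcongr
    have h7 : x ^ ε * Cs / T ≤ p ^ d * (d + 1) * x ^ (1 - ε) := by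
      calc x ^ ε * Cs / T ≤ x ^ ε * (p ^ d * (d + 1) * x ^ (1 + a - η)) / x ^ τ := by gcongr
        _ = p ^ d * (d + 1) * (x ^ ε * x ^ (1 + a - η) / x ^ τ) := by ring
        _ = p ^ d * (d + 1) * x ^ (ε + (1 + a - η) - τ) := by
            rw [← Real.rpow_add hx0, ← Real.rpow_sub hx0]
        _ ≤ p ^ d * (d + 1) * x ^ (1 - ε) := by
            apply mul_le_mul_of_nonneg_left _ (by positivity)
            apply Real.rpow_le_rpow_of_exponent_le hx1
            rw [hτ]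
            have h8 : a * ((2 * d + 1) * ε) ≤ 1 * ((2 * d + 1) * ε) := by gcongr
            nlinarith
    have h10 : (1 : ℝ) ≤ x ^ (1 - ε) := Real.one_le_rpow hx1 (by nlinarith)
    calc (s : ℝ) ≤ p ^ d * (d + 1) * x ^ (1 - ε) + 1 := by linarith
      _ ≤ p ^ d * (d + 1) * x ^ (1 - ε) + x ^ (1 - ε) := by linarith
      _ = _ := by ring
  have htotal : (wf : ℝ) + ((∑ i ∈ Finset.Icc 1 h,
      (s + K0 ^ d * prodT (fun _ => T) (i - 1)) : ℕ) : ℝ) ≤ W := by
    have h1 : (wf : ℝ) ≤ (c + 2 + needs) * (2 ^ h * x ^ (1 - ε)) := by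
      have := hDj h le_rfl
      rw [hwf, Nat.cast_mul]
      push_cast
      push_cast at this
      gcongr
    have h2 : ((∑ i ∈ Finset.Icc 1 h, (s + K0 ^ d * prodT (fun _ => T) (i - 1)) : ℕ) : ℝ) ≤
        h * ((p ^ d * (d + 1) + 1 + 2 ^ h) * x ^ (1 - ε)) := by
      rw [Nat.cast_sum]
      have : ∀ i ∈ Finset.Icc 1 h, ((s + K0 ^ d * prodT (fun _ => T) (i - 1) : ℕ) : ℝ) ≤
          (p ^ d * (d + 1) + 1 + 2 ^ h) * x ^ (1 - ε) := by
        intro i hi
        rw [Finset.mem_Icc] at hi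
        have h5 := hDj (i - 1) (by omega)
        rw [Nat.cast_add]
        calc (s : ℝ) + ((K0 ^ d * prodT (fun _ => T) (i - 1) : ℕ) : ℝ) ≤
              (p ^ d * (d + 1) + 1) * x ^ (1 - ε) + 2 ^ h * x ^ (1 - ε) := add_le_add hs_le h5
          _ = _ := by ring
      refine (Finset.sum_le_sum this).trans ?_
      rw [Finset.sum_const, Nat.card_Icc, nsmul_eq_mul]
      simp
    have h3 : Cst * x ^ (1 - ε) ≤ x / (2 * c) := by
      rw [le_div_iff₀ (by positivity)]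
      calc Cst * x ^ (1 - ε) * (2 * c) = (Cst * (2 * c)) * x ^ (1 - ε) := by ring
        _ ≤ x ^ ε * x ^ (1 - ε) := by gcongr
        _ = x := by rw [← Real.rpow_add hx0]; simp
    have h4 : (c + 2 + needs) * (2 ^ h * x ^ (1 - ε)) +
        h * ((p ^ d * (d + 1) + 1 + 2 ^ h) * x ^ (1 - ε)) =
        Cst * x ^ (1 - ε) := by rw [hCst]; ring
    linarith
  -- apply the core theorem
  set Pop : Finset Fm := (finite_subs π).toFinset with hPop
  refine core H (fun C hC => (hF n).1 C hC |>.1) hR hπ Pop (T := fun _ => T)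
    (b := fun _ => s) (Cs := fun _ => Cs)
    (κ := fun j z => min (K0 ^ d * prodT (fun _ => T) (j - 1)) (p ^ z.depth * z.size))
    (K0 := K0) (d := d) (h := h) (t := t) (M := numOr π) (wf := wf)
    (le_max_right _ _) (le_max_left _ _) hT1 (fun A hA => (hdep A hA).1)
    (fun A hA => (hdep A hA).2) ?_ (le_refl _)
    ?_ (fun _ _ => min_le_left _ _)
    ?_ ?_ ?_ ?_ ?_ ?_
  · intro k f hf
    have : (Finset.univ.image f).filter (fun z => z ∉ Pop) = ∅ := by
      apply Finset.filter_eq_empty_iff.2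
      intro z hz
      rw [Finset.mem_image] at hz
      obtain ⟨i, _, rfl⟩ := hz
      rw [not_not, hPop, Set.Finite.mem_toFinset]
      exact subs_trans hf (Fm.IsSub.or i Fm.IsSub.refl)
    rw [this]
    simp
  · intro j z
    apply le_min
    · exact Nat.mul_pos hK0dpos (prodT_pos hT1 _)
    · exact Nat.mul_pos (Nat.pow_pos hp.pos) z.one_le_size
  · intro j z
    rcases min_choice (K0 ^ d * prodT (fun _ => T) (j - 1)) (p ^ z.depth * z.size) with h1 | h1
    · left; exact h1.ge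
    · right; exact h1.ge
  · intro j _ _
    have h1 : ∑ z ∈ atoms π Pop t j,
        min (K0 ^ d * prodT (fun _ => T) (j - 1)) (p ^ z.depth * z.size) ≤
        ∑ z ∈ atoms π Pop t j, p ^ d * z.size := by
      refine Finset.sum_le_sum (fun z hz => (min_le_right _ _).trans ?_)
      refine Nat.mul_le_mul_right _ (Nat.pow_le_pow_right hp.pos ?_)
      simp only [atoms, Finset.mem_filter] at hz
      exact depth_subs (fun A hA => (hdep A hA).1) hz.2.1
    refine h1.trans ?_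
    rw [← Finset.mul_sum]
    apply Nat.mul_le_mul_left
    apply sum_subs_le (fun A hA => (hdep A hA).1)
    intro B hB
    simp only [atoms, Finset.mem_filter] at hB
    exact hB.2.1
  · intro j _ _ hCj
    apply exp_budget (y := x ^ ε) _ hCj _ hT1'
    · calc (numOr π : ℝ) ≤ S := by exact_mod_cast numOr_le_psize π
        _ ≤ x ^ (1 + a - η) := hcon.le
        _ ≤ x ^ (2 : ℝ) := Real.rpow_le_rpow_of_exponent_le hx1 (by linarith)
        _ < Real.exp (x ^ ε) := hxexp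
    · exact Nat.le_ceil _
  · exact_mod_cast htotal
  · have h1 : prodT (fun _ => T) (h - 1) ≤ prodT (fun _ => T) h := prodT_mono hT1 (Nat.sub_le _ _)
    have h2 : K0 ^ d * prodT (fun _ => T) (h - 1) ≤ K0 ^ d * prodT (fun _ => T) h :=
      Nat.mul_le_mul_left _ h1
    have h3 : 1 ≤ K0 ^ d * prodT (fun _ => T) h :=
      Nat.mul_pos hK0dpos (prodT_pos hT1 h)
    rw [hwf]
    nlinarith
  · intro r hr
    rw [hwf]
    apply Nat.mul_le_mul_right
    have : r.need p ≤ needs := by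
      rw [hneeds]
      exact List.single_le_sum (by simp) _ (List.mem_map.2 ⟨r, hr, rfl⟩)
    omega

end Pool.Agent.Helper21.AC0p
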