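import Pool.Agent.Helper21.AC0p.Expander
import Pool.Agent.Helper21.AC0p.Simul

/-!
The CNF formulas: sparse unsatisfiable systems of linear equations modulo `q`, each
`ZMod q` variable being written as a sum of `q - 1` Boolean variables.
-/

namespace Pool.Agent.Helper21.AC0p

open scoped BigOperators Classical

section CNF

variable (q : ℕ) {n m : ℕ}

/-- Index of the `j`-th bit of the `i`-th `ZMod q` variable. -/
def bitVar (i j : ℕ) : ℕ := i * (q - 1) + j

/-- The clause of row `r` excluding the partial assignment `a`. -/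
def rowClause (f : Fin m → Fin 5 → Fin n) (r : Fin m) (a : Fin 5 → Fin (q - 1) → Bool) :
    Clause :=
  (List.finRange 5).flatMap (fun t => (List.finRange (q - 1)).map
    (fun j => (bitVar q (f r t).val j.val, !(a t j))))

/-- The value modulo `q` of a partial assignment. -/
def asgVal (a : Fin 5 → Fin (q - 1) → Bool) : ZMod q := ∑ t, ∑ j, if a t j then 1 else 0

/-- The CNF of the system. -/
noncomputable def sysCNF (f : Fin m → Fin 5 → Fin n) (rhs : Fin m → ZMod q) : List Clause :=
  (List.finRange m).flatMap (fun r =>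
    ((Finset.univ.filter (fun a : Fin 5 → Fin (q - 1) → Bool => asgVal q a ≠ rhs r)).toList.map
      (rowClause q f r)))

variable {q}

theorem mem_rowClause {f : Fin m → Fin 5 → Fin n} {r : Fin m}
    {a : Fin 5 → Fin (q - 1) → Bool} {l : Lit} :
    l ∈ rowClause q f r a ↔ ∃ t j, l = (bitVar q (f r t).val j.val, !(a t j)) := by
  simp only [rowClause, List.mem_flatMap, List.mem_finRange, true_and, List.mem_map]
  constructor
  · rintro ⟨t, j, h⟩; exact ⟨t, j, h.symm⟩
  · rintro ⟨t, j, h⟩; exact ⟨t, j, h.symm⟩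

theorem length_rowClause {f : Fin m → Fin 5 → Fin n} {r : Fin m}
    {a : Fin 5 → Fin (q - 1) → Bool} : (rowClause q f r a).length = 5 * (q - 1) := by
  simp [rowClause]
  omega

theorem mem_sysCNF {f : Fin m → Fin 5 → Fin n} {rhs : Fin m → ZMod q} {C : Clause} :
    C ∈ sysCNF q f rhs ↔ ∃ r a, asgVal q a ≠ rhs r ∧ C = rowClause q f r a := by
  simp only [sysCNF, List.mem_flatMap, List.mem_finRange, true_and, List.mem_map,
    Finset.mem_toList, Finset.mem_filter, Finset.mem_univ]
  constructor
  · rintro ⟨r, a, h1, h2⟩; exact ⟨r, a, h1, h2.symm⟩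
  · rintro ⟨r, a, h1, h2⟩; exact ⟨r, a, h1, h2.symm⟩

theorem length_sysCNF {f : Fin m → Fin 5 → Fin n} {rhs : Fin m → ZMod q} :
    (sysCNF q f rhs).length ≤ m * 2 ^ (5 * (q - 1)) := by
  simp only [sysCNF, List.length_flatMap, List.length_map, Finset.length_toList]
  have h : ∀ r ∈ (List.finRange m).map (fun r : Fin m =>
      (Finset.univ.filter (fun a : Fin 5 → Fin (q - 1) → Bool => asgVal q a ≠ rhs r)).card),
      r ≤ 2 ^ (5 * (q - 1)) := by
    intro c hc
    rw [List.mem_map] at hc
    obtain ⟨r, _, rfl⟩ := hc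
    refine (Finset.card_filter_le _ _).trans ?_
    rw [Finset.card_univ]
    simp [← pow_mul, mul_comm]
  refine (List.sum_le_card_nsmul _ _ h).trans ?_
  simp

theorem bitVar_lt (hq : 2 ≤ q) {i j : ℕ} (hi : i < n) (hj : j < q - 1) :
    bitVar q i j < n * (q - 1) := by
  unfold bitVar
  calc i * (q - 1) + j < i * (q - 1) + (q - 1) := by omega
    _ = (i + 1) * (q - 1) := by ring
    _ ≤ n * (q - 1) := Nat.mul_le_mul_right _ hi

theorem sum_mat [NeZero q] (f : Fin m → Fin 5 → Fin n) (x : Fin n → ZMod q) (r : Fin m) :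
    ∑ i, mat q f r i * x i = ∑ t, x (f r t) := by
  simp only [mat, Finset.sum_mul]
  rw [Finset.sum_comm]
  refine Finset.sum_congr rfl (fun t _ => ?_)
  rw [Finset.sum_eq_single (f r t)]
  · simp
  · intro i _ hi; rw [if_neg (Ne.symm hi), zero_mul]
  · intro h; exact absurd (Finset.mem_univ _) h

theorem exists_rhs [hq : Fact q.Prime] (f : Fin (n + 1) → Fin 5 → Fin n) :
    ∃ rhs : Fin (n + 1) → ZMod q, ∀ x : Fin n → ZMod q, ∃ r, ∑ t, x (f r t) ≠ rhs r := by
  by_contra hcon
  push Not at hcon
  have hsurj : Function.Surjective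
      (fun (x : Fin n → ZMod q) (r : Fin (n + 1)) => ∑ t, x (f r t)) := by
    intro rhs
    obtain ⟨x, hx⟩ := hcon rhs
    exact ⟨x, funext hx⟩
  have := Fintype.card_le_of_surjective _ hsurj
  simp only [Fintype.card_pi, ZMod.card, Finset.prod_const, Finset.card_univ,
    Fintype.card_fin] at this
  have h2 := hq.out.two_le
  have h3 : q ^ n < q ^ (n + 1) := Nat.pow_lt_pow_right (by omega) (by omega)
  omega

theorem unsat_sysCNF [hq : Fact q.Prime] {f : Fin m → Fin 5 → Fin n} {rhs : Fin m → ZMod q}
    (h : ∀ x : Fin n → ZMod q, ∃ r, ∑ t, x (f r t) ≠ rhs r) : Unsat (sysCNF q f rhs) := by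
  intro v
  obtain ⟨r, hr⟩ := h (fun i => ∑ j : Fin (q - 1), if v (bitVar q i.val j.val) then 1 else 0)
  refine ⟨rowClause q f r (fun t j => v (bitVar q (f r t).val j.val)), ?_, ?_⟩
  · rw [mem_sysCNF]
    exact ⟨r, _, hr, rfl⟩
  · intro l hl
    rw [mem_rowClause] at hl
    obtain ⟨t, j, rfl⟩ := hl
    simp

/-- The Boolean assignment encoding a point of `ZMod q ^ n`. -/
noncomputable def enc (q : ℕ) {n : ℕ} (x : Fin n → ZMod q) (k : ℕ) : Bool :=
  if h : k / (q - 1) < n then decide (k % (q - 1) < (x ⟨k / (q - 1), h⟩).val) else false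

theorem enc_bitVar (hq : 2 ≤ q) (x : Fin n → ZMod q) (i : Fin n) (j : Fin (q - 1)) :
    enc q x (bitVar q i.val j.val) = decide (j.val < (x i).val) := by
  have hj := j.isLt
  have h0 : 0 < q - 1 := by omega
  have h1 : bitVar q i.val j.val / (q - 1) = i.val := by
    unfold bitVar
    rw [mul_comm, Nat.mul_add_div h0, Nat.div_eq_of_lt hj, add_zero]
  have h2 : bitVar q i.val j.val % (q - 1) = j.val := by
    unfold bitVar
    rw [mul_comm, Nat.mul_add_mod, Nat.mod_eq_of_lt hj]
  unfold enc
  rw [dif_pos (by rw [h1]; exact i.isLt)]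
  simp only [h1, h2]

theorem sum_enc [hq : Fact q.Prime] (x : ZMod q) :
    (∑ j : Fin (q - 1), if decide (j.val < x.val) = true then (1 : ZMod q) else 0) = x := by
  have hlt : x.val ≤ q - 1 := by
    have := ZMod.val_lt x
    omega
  have h1 : (∑ j : Fin (q - 1), if decide (j.val < x.val) = true then (1 : ZMod q) else 0) =
      ∑ j ∈ Finset.range (q - 1), if j < x.val then (1 : ZMod q) else 0 := by
    rw [Finset.sum_range]
    simp
  rw [h1, ← Finset.sum_filter]
  have h2 : (Finset.range (q - 1)).filter (fun j => j < x.val) = Finset.range x.val := by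
    ext j
    simp only [Finset.mem_filter, Finset.mem_range]
    omega
  rw [h2]
  simp

end CNF

section Lower

variable {q n m : ℕ} [hq : Fact q.Prime] {K : Type} [Field K]

theorem enc_mem (ψ : AddChar (ZMod q) K) (hψ : ψ.IsPrimitive) (hqK : (q : K) ≠ 0) (k : ℕ) :
    ind K (fun x : Fin n → ZMod q => enc q x k) ∈ (chrFilt ψ n).LD 1 := by
  by_cases h : k / (q - 1) < n
  · have : ind K (fun x : Fin n → ZMod q => enc q x k) =
        (fun x => (fun s : ZMod q => if decide (k % (q - 1) < s.val) = true then (1 : K) else 0)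
          (x ⟨k / (q - 1), h⟩)) := by
      funext x
      simp only [ind, enc, dif_pos h]
    rw [this]
    exact coord_mem (n := n) ψ hψ hqK ⟨k / (q - 1), h⟩
      (fun s : ZMod q => if decide (k % (q - 1) < s.val) = true then (1 : K) else 0)
  · have : ind K (fun x : Fin n → ZMod q => enc q x k) = ind K (fun _ => false) := by
      funext x
      simp only [ind, enc, dif_neg h]
    rw [this]
    exact (chrFilt ψ n).const_mem _ _

/-- The axiom function of a clause: the indicator that the clause is false. -/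
noncomputable def clauseAx (K : Type) [Field K] {X : Type} (p : ℕ) (v : X → ℕ → Bool)
    (C : Clause) : X → K :=
  1 - qf K p v (fun _ => none) (clauseFm C)

theorem clauseAx_eq {X : Type} (p : ℕ) (v : X → ℕ → Bool) (C : Clause) :
    clauseAx K p v C = (C.map (fun l => ind K (fun x => v x l.1 == !l.2))).prod := by
  have h : clauseAx K p v C = ind K (fun x => allF p (fun _ => none) (v x) (C.map litFm)) := by
    rw [clauseAx, qf_of_none rfl]
    have : rf K p v (fun _ => none) (clauseFm C) =
        1 - ind K (fun x => allF p (fun _ => none) (v x) (C.map litFm)) := by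
      rw [← ind_not]
      funext x
      simp only [rf, ind, clauseFm, rv_orL]
    rw [this]; ring
  rw [h]
  induction C with
  | nil => simp [ind_allF_nil]
  | cons l C ih =>
    rw [List.map_cons, allF_fun_cons, List.map_cons, List.prod_cons, ih (by
      rw [clauseAx, qf_of_none rfl]
      have : rf K p v (fun _ => none) (clauseFm C) =
          1 - ind K (fun x => allF p (fun _ => none) (v x) (C.map litFm)) := by
        rw [← ind_not]
        funext x
        simp only [rf, ind, clauseFm, rv_orL]
      rw [this]; ring)]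
    congr 1
    rw [qf, ← ind_not]
    congr 1
    funext x
    rw [ev_empty]
    rcases l with ⟨i, b⟩
    cases b <;> cases h1 : v x i <;> simp [litFm, Fm.eval, h1]

theorem clauseAx_mem {X : Type} {𝔉 : Filt X K} {p : ℕ} {v : X → ℕ → Bool}
    (hv : ∀ i, ind K (fun x => v x i) ∈ 𝔉.LD 1) (C : Clause) :
    clauseAx K p v C ∈ 𝔉.LD C.length := by
  rw [clauseAx_eq]
  induction C with
  | nil => simpa using 𝔉.one_mem
  | cons l C ih =>
    rw [List.map_cons, List.prod_cons, List.length_cons, add_comm]
    refine 𝔉.mul_mem ?_ ih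
    rcases l with ⟨i, b⟩
    cases b with
    | false =>
      have : (fun x => v x i == !false) = (fun x => v x i) := by funext x; simp
      simp only [this]
      exact hv i
    | true =>
      have : (fun x => v x i == !true) = (fun x => !(v x i)) := by funext x; simp
      simp only [this]
      rw [ind_not]
      exact Submodule.sub_mem _ (𝔉.one_mem' _) (hv i)

/-- The degree lower bound for the CNF of an expanding system. -/
theorem sysCNF_lower {p : ℕ} (ψ : AddChar (ZMod q) K) (hψ : ψ.IsPrimitive) (hqK : (q : K) ≠ 0)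
    {f : Fin m → Fin 5 → Fin n} {rhs : Fin m → ZMod q} {ρ w : ℕ}
    (hE : Expands (mat q f) ρ w) (hw : 10 * (q - 1) ≤ w) :
    ¬ Der (chrFilt ψ n) {g | ∃ C ∈ sysCNF q f rhs, g = clauseAx K p (enc q) C} w 1 := by
  have hq2 := hq.out.two_le
  refine linsys_lower (b := rhs) (k := 5 * (q - 1)) hψ hqK hE (by omega) ?_ ?_
  · intro r j
    unfold hammingNorm
    have h1 : Finset.univ.filter (fun i => (j • mat q f r) i ≠ 0) ⊆
        Finset.univ.image (f r) := by
      intro i hi
      rw [Finset.mem_filter] at hi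
      rw [Finset.mem_image]
      by_contra hcon
      push Not at hcon
      apply hi.2
      have : mat q f r i = 0 := by
        unfold mat
        refine Finset.sum_eq_zero (fun t _ => ?_)
        rw [if_neg (hcon t (Finset.mem_univ _))]
      simp [this]
    refine (Finset.card_le_card h1).trans (Finset.card_image_le.trans ?_)
    rw [Finset.card_univ, Fintype.card_fin]
    omega
  · rintro g ⟨C, hC, rfl⟩
    rw [mem_sysCNF] at hC
    obtain ⟨r, a, ha, rfl⟩ := hC
    refine ⟨?_, r, ?_⟩
    · have := clauseAx_mem (𝔉 := chrFilt ψ n) (p := p) (v := enc q) (enc_mem ψ hψ hqK)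
        (rowClause q f r a)
      rwa [length_rowClause] at this
    · intro x hx
      rw [clauseAx_eq]
      rw [sum_mat] at hx
      -- some literal is true
      by_contra hne
      apply ha
      have hall : ∀ t j, enc q x (bitVar q (f r t).val j.val) = a t j := by
        intro t j
        by_contra hcon
        apply hne
        have e : ((rowClause q f r a).map
            (fun l => ind K (fun x => enc q x l.1 == !l.2))).prod x =
            ((rowClause q f r a).map (fun l => ind K (fun x => enc q x l.1 == !l.2) x)).prod := by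
          have := map_list_prod (Pi.evalMonoidHom (fun _ : Fin n → ZMod q => K) x)
            ((rowClause q f r a).map (fun l => ind K (fun x => enc q x l.1 == !l.2)))
          simp only [Pi.evalMonoidHom_apply, List.map_map] at this
          rw [this]
          rfl
        rw [e]
        apply List.prod_eq_zero
        rw [List.mem_map]
        refine ⟨(bitVar q (f r t).val j.val, !(a t j)), mem_rowClause.2 ⟨t, j, rfl⟩, ?_⟩
        simp only [ind, Bool.not_not]
        rw [if_neg]
        simpa using hcon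
      rw [← hx]
      unfold asgVal
      refine Finset.sum_congr rfl (fun t _ => ?_)
      rw [← sum_enc (x (f r t))]
      refine Finset.sum_congr rfl (fun j _ => ?_)
      rw [← hall t j, enc_bitVar hq2]

end Lower

/-- The interface between the formulas and the simulation. -/
structure HardAt (p : ℕ) (F : List Clause) (w : ℕ) where
  X : Type
  K : Type
  fK : Field K
  cK : CharP K p
  𝔉 : Filt X K
  v : X → ℕ → Bool
  hv : ∀ i, ind K (fun x => v x i) ∈ 𝔉.LD 1
  hard : ¬ Der 𝔉 {g | ∃ C ∈ F, g = clauseAx K p v C} w 1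

/-- The main construction. -/
theorem exists_hard (p : ℕ) [hp : Fact p.Prime] :
    ∃ (c : ℕ) (F : ℕ → List Clause), 1 ≤ c ∧
      (∀ n, (∀ C ∈ F n, C.length ≤ c ∧ ∀ l ∈ C, l.1 < n) ∧ (F n).length ≤ c * (n + 1) ∧
        Unsat (F n)) ∧
      ∀ n w, c ≤ w → c * w ≤ n → Nonempty (HardAt p (F n) w) := by
  -- choose q
  obtain ⟨q, hq, hqp, hq3⟩ : ∃ q : ℕ, q.Prime ∧ q ≠ p ∧ q ≤ 3 := by
    by_cases h : p = 2
    · exact ⟨3, Nat.prime_three, by omega, le_refl _⟩
    · exact ⟨2, Nat.prime_two, fun h' => h h'.symm, by norm_num⟩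
  have : Fact q.Prime := ⟨hq⟩
  have hq2 := hq.two_le
  have hne : ((q : ℕ) : ZMod p) ≠ 0 := by
    rw [Ne, ZMod.natCast_eq_zero_iff]
    intro h
    exact hqp ((Nat.prime_dvd_prime_iff_eq hp.out hq).1 h).symm
  have : NeZero ((q : ℕ) : ZMod p) := ⟨hne⟩
  obtain ⟨ζ, hζ⟩ := HasEnoughRootsOfUnity.exists_primitiveRoot (AlgebraicClosure (ZMod p)) q
  have hψ := AddChar.zmodChar_primitive_of_primitive_root q hζ
  set ψ := AddChar.zmodChar q ((IsPrimitiveRoot.iff_def ζ q).mp hζ).left with hψdef
  have hqK : ((q : ℕ) : AlgebraicClosure (ZMod p)) ≠ 0 := by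
    intro h
    apply hne
    have := (algebraMap (ZMod p) (AlgebraicClosure (ZMod p))).injective
    apply this
    simpa using h
  have main : ∀ n, ∃ F : List Clause, ((∀ C ∈ F, C.length ≤ 20000 ∧ ∀ l ∈ C, l.1 < n) ∧
      F.length ≤ 20000 * (n + 1) ∧ Unsat F) ∧
      ∀ w, 20000 ≤ w → 20000 * w ≤ n → Nonempty (HardAt p F w) := by
    intro n
    by_cases hn : 1 ≤ n / (q - 1)
    · obtain ⟨f, hf⟩ := exists_expander (m := n / (q - 1) + 1) (n := n / (q - 1)) (by omega)
      obtain ⟨rhs, hrhs⟩ := exists_rhs (q := q) f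
      refine ⟨sysCNF q f rhs, ⟨?_, ?_, unsat_sysCNF hrhs⟩, ?_⟩
      · intro C hC
        rw [mem_sysCNF] at hC
        obtain ⟨r, a, _, rfl⟩ := hC
        refine ⟨?_, ?_⟩
        · rw [length_rowClause]; omega
        · intro l hl
          rw [mem_rowClause] at hl
          obtain ⟨t, j, rfl⟩ := hl
          exact lt_of_lt_of_le (bitVar_lt hq2 (f r t).isLt j.isLt) (Nat.div_mul_le_self _ _)
      · refine length_sysCNF.trans ?_
        have h1 : 2 ^ (5 * (q - 1)) ≤ 2 ^ 10 := Nat.pow_le_pow_right (by norm_num) (by omega)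
        have h2 : n / (q - 1) + 1 ≤ n + 1 := by
          have := Nat.div_le_self n (q - 1); omega
        calc (n / (q - 1) + 1) * 2 ^ (5 * (q - 1)) ≤ (n + 1) * 2 ^ 10 := Nat.mul_le_mul h2 h1
          _ ≤ 20000 * (n + 1) := by omega
      · intro w hcw hwn
        have hN : 8000 * w ≤ n / (q - 1) := by
          rw [Nat.le_div_iff_mul_le (by omega)]
          calc 8000 * w * (q - 1) ≤ 8000 * w * 2 := Nat.mul_le_mul_left _ (by omega)
            _ ≤ n := by omega
        have hE : Expands (mat q f) (2 * w) w := expands_of f hf (by omega) hN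
        have hlow := sysCNF_lower (p := p) ψ hψ hqK (rhs := rhs) hE (by omega)
        exact ⟨⟨Fin (n / (q - 1)) → ZMod q, AlgebraicClosure (ZMod p), inferInstance,
          inferInstance, chrFilt ψ _, enc q, enc_mem ψ hψ hqK, hlow⟩⟩
    · refine ⟨[[]], ⟨?_, ?_, ?_⟩, ?_⟩
      · intro C hC
        rw [List.mem_singleton] at hC
        subst hC
        simp
      · simp; omega
      · intro v
        exact ⟨[], by simp, by simp⟩
      · intro w hcw hwn
        exfalso
        apply hn
        rw [Nat.le_div_iff_mul_le (by omega)]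
        omega
  choose F hF1 hF2 using main
  exact ⟨20000, F, by norm_num, hF1, hF2⟩

end Pool.Agent.Helper21.AC0p
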